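import Pool.Agent.CTP.Key

/-!
# The atoms are well-quasi-ordered under reverse inclusion

PAPER PROOF of `exists_monotone_of_dcc`: the set `Γ ∪ {0}` is well founded (`IsDCC`,
`Set.isWF_iff_no_descending_seq`; adding one element: `Set.IsWF.union`/`Set.isWF_singleton` or
`Set.IsPWO.union`), hence partially well ordered (`Set.IsWF.isPWO`); for every `i : ι` the sequence
`f · i` has a monotone subsequence (`Set.IsPWO.exists_monotone_subseq`); iterate over the finite
type `ι` (induction over a finset of indices), or use the well-quasi-order of finite products.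

PAPER PROOF of `atoms_pwo`: let `n ↦ (G n, δ n, D n)` be a sequence. By the lemma (applied to the
finite index type `Fin m ⊕ (Fin s × Fin m)`) there is a strictly increasing `φ` along which all
the numbers `δ n i` and `D n j i` are nondecreasing. Apply `key` to the sequence `G (φ n)`: there
are `j < k`. Let `t ∈ atom (G (φ k)) ...` and let `c ∈ G (φ j)` have positive coordinates. Put
`a i = 1 - (δ (φ k) i + ∑ l, t l * D (φ k) l i)`, which is at most
`1 - (δ (φ j) i + ∑ l, t l * D (φ j) l i)` as `t l ≥ 0`. `key` gives `x ∈ G (φ k)` with positive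
coordinates and `1 ≤ ∑ x i * a i ≤ ∑ c i * a i ≤ ∑ c i * (1 - (δ (φ j) i + ...))`.
-/

namespace Pool.Agent.CTP

theorem exists_monotone_of_dcc {Γ : Set ℝ} (hΓ : IsDCC Γ) {ι : Type*} [Finite ι]
    (f : ℕ → ι → ℝ) (hf : ∀ n i, f n i = 0 ∨ f n i ∈ Γ) :
    ∃ φ : ℕ → ℕ, StrictMono φ ∧ ∀ i, Monotone fun n => f (φ n) i := by
  have hwf : Γ.IsWF := by
    rw [Set.isWF_iff_no_descending_seq]
    intro g hg hmem
    exact hΓ ⟨g, hg, hmem⟩
  have hpwo : (insert (0 : ℝ) Γ).IsPWO := (hwf.isPWO).insert 0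
  have hpi : (Set.univ.pi fun _ : ι => insert (0 : ℝ) Γ).IsPWO := Set.IsPWO.pi fun _ => hpwo
  obtain ⟨g, hg⟩ := hpi.exists_monotone_subseq (f := f) (fun n => by
    rw [Set.mem_univ_pi]
    intro i
    exact hf n i)
  exact ⟨g, g.strictMono, fun i a b hab => hg hab i⟩

theorem atoms_pwo {Γ : Set ℝ} (hΓ : IsDCC Γ) {m s : ℕ} (G : ℕ → AddSubgroup (Fin m → ℝ))
    (hG : ∀ n, Lat (G n)) (δ : ℕ → Fin m → ℝ) (D : ℕ → Fin s → Fin m → ℝ)
    (hδ : ∀ n i, δ n i = 0 ∨ δ n i ∈ Γ) (hD : ∀ n j i, D n j i = 0 ∨ D n j i ∈ Γ) :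
    ∃ j k, j < k ∧ atom (G k) (δ k) (D k) ⊆ atom (G j) (δ j) (D j) := by
  obtain ⟨φ, hφ, hmono⟩ := exists_monotone_of_dcc hΓ (ι := Fin m ⊕ (Fin s × Fin m))
    (fun n => Sum.elim (δ n) (fun p => D n p.1 p.2)) (by
      intro n i
      rcases i with i | ⟨j, i⟩
      · exact hδ n i
      · exact hD n j i)
  obtain ⟨j, k, hjk, hkey⟩ := key (fun n => G (φ n)) (fun n => hG (φ n))
  refine ⟨φ j, φ k, hφ hjk, ?_⟩
  rintro t ⟨ht0, ht⟩
  refine ⟨ht0, ?_⟩
  intro c hc hcpos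
  obtain ⟨x, hx, hxpos, hxle⟩ := hkey
    (fun i => 1 - (δ (φ k) i + ∑ l, t l * D (φ k) l i)) c hc hcpos
  have h1 := ht x hx hxpos
  have hle : ∑ i, c i * (1 - (δ (φ k) i + ∑ l, t l * D (φ k) l i)) ≤
      ∑ i, c i * (1 - (δ (φ j) i + ∑ l, t l * D (φ j) l i)) := by
    refine Finset.sum_le_sum fun i _ => mul_le_mul_of_nonneg_left ?_ (hcpos i).le
    have e1 : δ (φ j) i ≤ δ (φ k) i := hmono (Sum.inl i) hjk.le
    have e2 : ∑ l, t l * D (φ j) l i ≤ ∑ l, t l * D (φ k) l i :=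
      Finset.sum_le_sum fun l _ => mul_le_mul_of_nonneg_left
        (hmono (Sum.inr (l, i)) hjk.le) (ht0 l)
    linarith
  exact h1.trans (hxle.trans hle)

end Pool.Agent.CTP
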