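import Pool.Agent.CTP.Def

/-!
# Caratheodory's theorem for cones and coordinate groups

PAPER PROOF of `exists_positive_comb`. Let `x ∈ coneOf σ`. Consider the finitely many subsets `S`
of `σ` such that `x = ∑_{v ∈ S} c_v v` with all `c_v > 0` (there is one: delete the zero
coefficients of the given representation) and choose one of minimal cardinality. If the vectors
`toReal v`, `v ∈ S`, were linearly dependent, there would be `e : S → ℝ` not all zero with
`∑ e_v v = 0`, some `e_v > 0` (change the sign). Let `s = min {c_v / e_v : e_v > 0}`; then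
`x = ∑ (c_v - s e_v) v` with all coefficients `≥ 0` and at least one zero; deleting the zero
coefficients gives a smaller set, contradiction. Enumerate `S` by `Fin m`
(`Finset.equivFin`). Finally `m ≤ d` as `m` vectors of `ℝ ^ d` are linearly independent.

PAPER PROOF of `lat_coordGroup`. `toReal z ∈ coordGroup g` is clear (`v = ∑ z_i g_i`). Real linear
independence of the `toReal (g i)` gives an integral (or rational) matrix `Λ` and `D > 0` with
`∑_l Λ_{i l} (g i')_l = D δ_{i i'}` for all `i, i'`: e.g. the vectors `g i` over `ℚ` are linearly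
independent over `ℚ` (a rational relation is a real relation), so there is a `ℚ`-linear left
inverse of `ℚ^m → ℚ^d` (`LinearMap.exists_leftInverse_of_injective`), whose matrix has rational
entries; let `D` be the product of the denominators. If `toReal v = ∑ c_i toReal (g i)` then
`D c_i = ∑_l Λ_{i l} v_l` is an integer.
-/

namespace Pool.Agent.CTP

private theorem carath_step {d : ℕ} {x : Fin d → ℝ} (S : Finset (Fin d → ℤ))
    (c e : (Fin d → ℤ) → ℝ) (hc : ∀ v ∈ S, 0 < c v) (hx : x = ∑ v ∈ S, c v • toReal v)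
    (he : ∑ v ∈ S, e v • toReal v = 0) (hpos : ∃ u ∈ S, 0 < e u) :
    ∃ S' ⊆ S, S'.card < S.card ∧ ∃ c' : (Fin d → ℤ) → ℝ, (∀ v ∈ S', 0 < c' v) ∧
      x = ∑ v ∈ S', c' v • toReal v := by
  classical
  have hne : (S.filter (fun v => 0 < e v)).Nonempty := by
    obtain ⟨u, hu, heu⟩ := hpos
    exact ⟨u, Finset.mem_filter.2 ⟨hu, heu⟩⟩
  obtain ⟨u, hu, hmin⟩ := Finset.exists_min_image _ (fun v => c v / e v) hne
  rw [Finset.mem_filter] at hu
  obtain ⟨huS, heu⟩ := hu
  have hs : 0 < c u / e u := div_pos (hc u huS) heu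
  have hnonneg : ∀ w ∈ S, 0 ≤ c w - c u / e u * e w := by
    intro w hw
    by_cases hew : 0 < e w
    · have h1 := hmin w (Finset.mem_filter.2 ⟨hw, hew⟩)
      rw [le_div_iff₀ hew] at h1
      linarith
    · have h1 : c u / e u * e w ≤ 0 := mul_nonpos_of_nonneg_of_nonpos hs.le (not_lt.1 hew)
      have := hc w hw
      linarith
  have hu0 : c u - c u / e u * e u = 0 := by
    field_simp
    ring
  refine ⟨S.filter (fun w => c w - c u / e u * e w ≠ 0), Finset.filter_subset _ _, ?_,
    fun w => c w - c u / e u * e w, ?_, ?_⟩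
  · apply Finset.card_lt_card
    rw [Finset.filter_ssubset]
    exact ⟨u, huS, by rw [hu0]; simp⟩
  · intro w hw
    rw [Finset.mem_filter] at hw
    exact lt_of_le_of_ne (hnonneg w hw.1) (Ne.symm hw.2)
  · rw [Finset.sum_filter_of_ne]
    · have h1 : ∀ w ∈ S, (c w - c u / e u * e w) • toReal w =
          c w • toReal w - (c u / e u) • (e w • toReal w) := by
        intro w _
        rw [sub_smul, smul_smul]
      rw [Finset.sum_congr rfl h1, Finset.sum_sub_distrib, ← Finset.smul_sum, he, smul_zero,
        sub_zero]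
      exact hx
    · intro w _ h0 h1
      apply h0
      simp only at h1 ⊢
      rw [h1, zero_smul]

theorem exists_positive_comb {d : ℕ} (σ : Finset (Fin d → ℤ)) (x : Fin d → ℝ)
    (hx : x ∈ coneOf σ) :
    ∃ (m : ℕ) (g : Fin m → (Fin d → ℤ)) (c : Fin m → ℝ), m ≤ d ∧ (∀ i, g i ∈ σ) ∧
      LinearIndependent ℝ (fun i => toReal (g i)) ∧ (∀ i, 0 < c i) ∧
      x = ∑ i, c i • toReal (g i) := by
  classical
  let P : ℕ → Prop := fun n => ∃ S ⊆ σ, S.card = n ∧ ∃ c : (Fin d → ℤ) → ℝ,
    (∀ v ∈ S, 0 < c v) ∧ x = ∑ v ∈ S, c v • toReal v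
  have hP : ∃ n, P n := by
    obtain ⟨c, hc, hxc⟩ := hx
    refine ⟨_, σ.filter (fun v => c v ≠ 0), Finset.filter_subset _ _, rfl, c, ?_, ?_⟩
    · intro v hv
      rw [Finset.mem_filter] at hv
      exact lt_of_le_of_ne (hc v hv.1) (Ne.symm hv.2)
    · rw [Finset.sum_filter_of_ne]
      · exact hxc
      · intro v _ h0 h1
        apply h0
        rw [h1, zero_smul]
  obtain ⟨S, hSσ, hcard, c, hc, hxc⟩ := Nat.find_spec hP
  have hno : ∀ e : (Fin d → ℤ) → ℝ, ∑ v ∈ S, e v • toReal v = 0 → ¬ ∃ u ∈ S, 0 < e u := by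
    intro e he hpos
    obtain ⟨S', hS', hlt, c', hc', hx'⟩ := carath_step S c e hc hxc he hpos
    rw [hcard] at hlt
    exact Nat.find_min hP hlt ⟨S', hS'.trans hSσ, rfl, c', hc', hx'⟩
  have hli : LinearIndepOn ℝ (toReal : (Fin d → ℤ) → (Fin d → ℝ)) (S : Set (Fin d → ℤ)) := by
    rw [linearIndepOn_finset_iff]
    intro e he v hv
    by_contra hne
    rcases lt_or_gt_of_ne hne with h1 | h1
    · apply hno (fun w => - e w) _ ⟨v, hv, by simpa using h1⟩
      have h2 : ∀ w ∈ S, (- e w) • toReal w = - (e w • toReal w) := fun w _ => neg_smul _ _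
      rw [Finset.sum_congr rfl h2, Finset.sum_neg_distrib, he, neg_zero]
    · exact hno e he ⟨v, hv, h1⟩
  let ψ : Fin S.card ≃ S := S.equivFin.symm
  have hli2 : LinearIndependent ℝ (fun i : Fin S.card => toReal ((ψ i : S) : Fin d → ℤ)) :=
    LinearIndependent.comp (hli : LinearIndependent ℝ (fun v : (S : Set (Fin d → ℤ)) =>
      toReal (v : Fin d → ℤ))) ψ ψ.injective
  refine ⟨S.card, fun i => ((ψ i : S) : Fin d → ℤ), fun i => c (ψ i : S), ?_, ?_, hli2, ?_, ?_⟩
  · have h1 := hli2.fintype_card_le_finrank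
    rw [Fintype.card_fin, Module.finrank_fin_fun] at h1
    exact h1
  · intro i
    exact hSσ (ψ i).2
  · intro i
    exact hc _ (ψ i).2
  · rw [hxc, ← Finset.sum_coe_sort S (fun v => c v • toReal v)]
    exact (Equiv.sum_comp ψ (fun v : S => c v • toReal (v : Fin d → ℤ))).symm

private theorem exists_denominator {ι : Type*} [Fintype ι] (q : ι → ℚ) :
    ∃ D : ℕ, 0 < D ∧ ∀ i, ∃ z : ℤ, (D : ℚ) * q i = z := by
  classical
  refine ⟨∏ i, (q i).den, Finset.prod_pos fun i _ => (q i).pos, fun i => ?_⟩
  obtain ⟨k, hk⟩ := Finset.dvd_prod_of_mem (fun i => (q i).den) (Finset.mem_univ i)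
  refine ⟨k * (q i).num, ?_⟩
  rw [hk]
  push_cast
  have h1 : ((q i).den : ℚ) * q i = (q i).num := by
    rw [mul_comm]
    exact Rat.mul_den_eq_num (q i)
  linear_combination (k : ℚ) * h1

theorem lat_coordGroup {m d : ℕ} (g : Fin m → (Fin d → ℤ))
    (hg : LinearIndependent ℝ (fun i => toReal (g i))) : Lat (coordGroup g) := by
  classical
  constructor
  · intro z
    refine ⟨∑ i, z i • g i, ?_⟩
    ext l
    simp only [toReal, Finset.sum_apply, Pi.smul_apply, smul_eq_mul]
    push_cast
    rfl
  · let A : (Fin m → ℚ) →ₗ[ℚ] (Fin d → ℚ) := Fintype.linearCombination ℚ (fun i l => (g i l : ℚ))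
    have hA : ∀ q l, A q l = ∑ i, q i * (g i l : ℚ) := by
      intro q l
      simp only [A, Fintype.linearCombination_apply, Finset.sum_apply, Pi.smul_apply, smul_eq_mul]
    have hinj : LinearMap.ker A = ⊥ := by
      rw [LinearMap.ker_eq_bot']
      intro q hq
      have h1 : ∑ i, (q i : ℝ) • toReal (g i) = 0 := by
        ext l
        have h2 := congrFun hq l
        rw [hA] at h2
        simp only [toReal, Finset.sum_apply, Pi.smul_apply, smul_eq_mul, Pi.zero_apply]
        exact_mod_cast h2
      have h3 := Fintype.linearIndependent_iff.1 hg (fun i => (q i : ℝ)) h1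
      funext i
      exact_mod_cast h3 i
    obtain ⟨B, hB⟩ := LinearMap.exists_leftInverse_of_injective A hinj
    let L : Fin m → Fin d → ℚ := fun i l => B (Pi.single l 1) i
    have hBL : ∀ (y : Fin d → ℚ) (i : Fin m), B y i = ∑ l, L i l * y l := by
      intro y i
      have h1 : y = ∑ l, y l • (Pi.single l 1 : Fin d → ℚ) := by
        ext k
        simp [Finset.sum_apply, Pi.single_apply]
      conv_lhs => rw [h1]
      rw [map_sum, Finset.sum_apply]
      refine Finset.sum_congr rfl fun l _ => ?_
      rw [map_smul, Pi.smul_apply, smul_eq_mul, mul_comm]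
    have hL : ∀ i i' : Fin m, ∑ l, L i l * (g i' l : ℚ) = if i = i' then 1 else 0 := by
      intro i i'
      have h1 := congrFun (LinearMap.congr_fun hB (Pi.single i' 1)) i
      rw [LinearMap.comp_apply, LinearMap.id_apply, hBL] at h1
      have h2 : ∀ l, A (Pi.single i' 1) l = (g i' l : ℚ) := by
        intro l
        rw [hA]
        simp [Pi.single_apply]
      rw [Pi.single_apply] at h1
      rw [← h1]
      refine Finset.sum_congr rfl fun l _ => ?_
      rw [h2]
    obtain ⟨D, hD, hDL⟩ := exists_denominator (fun p : Fin m × Fin d => L p.1 p.2)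
    refine ⟨D, hD, ?_⟩
    rintro c ⟨v, hv⟩ i
    have hc : c i = ∑ l, (L i l : ℝ) * (v l : ℝ) := by
      have h1 : ∀ l, (v l : ℝ) = ∑ i', c i' * (g i' l : ℝ) := by
        intro l
        have h2 := congrFun hv l
        simp only [toReal, Finset.sum_apply, Pi.smul_apply, smul_eq_mul] at h2
        exact h2
      have h3 : ∀ i', ∑ l, (L i l : ℝ) * (g i' l : ℝ) = if i = i' then 1 else 0 := by
        intro i'
        have h5 := hL i i'
        by_cases hii : i = i'
        · rw [if_pos hii] at h5 ⊢
          exact_mod_cast h5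
        · rw [if_neg hii] at h5 ⊢
          exact_mod_cast h5
      calc c i = ∑ i', c i' * (if i = i' then 1 else 0) := by simp
        _ = ∑ i', c i' * ∑ l, (L i l : ℝ) * (g i' l : ℝ) := by
            refine Finset.sum_congr rfl fun i' _ => ?_
            rw [h3]
        _ = ∑ l, (L i l : ℝ) * ∑ i', c i' * (g i' l : ℝ) := by
            simp only [Finset.mul_sum]
            rw [Finset.sum_comm]
            refine Finset.sum_congr rfl fun l _ => Finset.sum_congr rfl fun i' _ => ?_
            ring
        _ = ∑ l, (L i l : ℝ) * (v l : ℝ) := by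
            refine Finset.sum_congr rfl fun l _ => ?_
            rw [h1]
    choose z hz using fun l => hDL (i, l)
    refine ⟨∑ l, z l * v l, ?_⟩
    rw [hc, Finset.mul_sum]
    push_cast
    refine Finset.sum_congr rfl fun l _ => ?_
    have h4 : (D : ℝ) * (L i l : ℝ) = z l := by exact_mod_cast hz l
    rw [← mul_assoc, h4]

end Pool.Agent.CTP
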