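import Pool.Agent.CTP.Dom
import Pool.Agent.CTP.Atoms

/-!
# Passing to a subsequence along which all the data are comparable

PAPER PROOF of `exists_chain`. Consider the quasi-order on triples
`(x, y, E) : ℝ × (Fin s → ℝ) × Finset (Fin m → ℕ)` with `(x, y, E) ≤ (x', y', E')` iff `x ≤ x'`,
`y ≤ y'` and `Dom E E'`. It is reflexive and transitive and it is partially well ordered on the
set of the triples whose real entries lie in `Γ ∪ {0}`: `Γ ∪ {0}` is partially well ordered
(see `Atoms.lean`, `Set.IsWF.isPWO`), finite products of partially well ordered sets are partially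
well ordered (`Set.PartiallyWellOrderedOn.prod`, `.pi`), and `dom_pwo`. By Higman's lemma
(`Set.PartiallyWellOrderedOn.partiallyWellOrderedOn_sublistForall₂`) the lists
`ℓ n = List.ofFn fun l : Fin (L n) => (ε n l, fun j => γ n j l, E n l)` are partially well ordered
by `List.SublistForall₂`, which is again reflexive and transitive. So there is a subsequence along
which they are increasing (`Set.PartiallyWellOrderedOn.exists_monotone_subseq`); pass to a further
subsequence along which the `δ n i`, `D n j i` are nondecreasing (`exists_monotone_of_dcc` for the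
index type `Fin m ⊕ (Fin s × Fin m)`). Finally `List.SublistForall₂ r (List.ofFn f) (List.ofFn g)`
gives an injective (indeed increasing) map `ι` of the indices with `r (f l) (g (ι l))`
(`List.sublistForall₂_iff`: a sublist of `List.ofFn g` is `Forall₂`-related to `List.ofFn f`;
`List.sublist_iff_exists_orderEmbedding_getElem?_eq` or
`List.sublist_iff_exists_fin_orderEmbedding_get_eq` gives the embedding of indices).
-/

namespace Pool.Agent.CTP

theorem chain_dom_refl {m : ℕ} (E : Finset (Fin m → ℕ)) : Dom E E :=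
  fun μ hμ => ⟨μ, hμ, le_refl _⟩

theorem chain_dom_trans {m : ℕ} {E F G : Finset (Fin m → ℕ)} (h : Dom E F) (h' : Dom F G) :
    Dom E G := by
  intro μ hμ
  obtain ⟨ν, hν, h1⟩ := h' μ hμ
  obtain ⟨κ, hκ, h2⟩ := h ν hν
  exact ⟨κ, hκ, h2.trans h1⟩

theorem chain_idx {α : Type*} {r : α → α → Prop} {a b : ℕ} (f : Fin a → α) (g : Fin b → α)
    (h : List.SublistForall₂ r (List.ofFn f) (List.ofFn g)) :
    ∃ ι : Fin a → Fin b, Function.Injective ι ∧ ∀ l, r (f l) (g (ι l)) := by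
  rw [List.sublistForall₂_iff] at h
  obtain ⟨l, hl, hs⟩ := h
  rw [List.sublist_iff_exists_fin_orderEmbedding_get_eq] at hs
  obtain ⟨e, he⟩ := hs
  have hlen : a = l.length := by
    have h1 := hl.length_eq
    rw [List.length_ofFn] at h1
    exact h1
  refine ⟨fun i => Fin.cast (by rw [List.length_ofFn]) (e (Fin.cast hlen i)), ?_, ?_⟩
  · intro i j hij
    have h1 := Fin.cast_injective _ hij
    have h2 := e.injective h1
    exact Fin.cast_injective _ h2
  · intro i
    have h1 := hl.get (i := i.1) (by rw [List.length_ofFn]; exact i.2) (by rw [← hlen]; exact i.2)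
    have h2 := he (Fin.cast hlen i)
    have h3 : l.get ⟨i.1, by rw [← hlen]; exact i.2⟩ = l.get (Fin.cast hlen i) := rfl
    rw [h3, h2, List.get_ofFn, List.get_ofFn] at h1
    exact h1

theorem exists_chain {Γ : Set ℝ} (hΓ : IsDCC Γ) {m s : ℕ} (δ : ℕ → Fin m → ℝ)
    (D : ℕ → Fin s → Fin m → ℝ) (L : ℕ → ℕ) (ε : ∀ n, Fin (L n) → ℝ)
    (γ : ∀ n, Fin s → Fin (L n) → ℝ) (E : ∀ n, Fin (L n) → Finset (Fin m → ℕ))
    (hδ : ∀ n i, δ n i = 0 ∨ δ n i ∈ Γ) (hD : ∀ n j i, D n j i = 0 ∨ D n j i ∈ Γ)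
    (hε : ∀ n l, ε n l = 0 ∨ ε n l ∈ Γ) (hγ : ∀ n j l, γ n j l = 0 ∨ γ n j l ∈ Γ) :
    ∃ φ : ℕ → ℕ, StrictMono φ ∧ (∀ i, Monotone fun n => δ (φ n) i) ∧
      (∀ j i, Monotone fun n => D (φ n) j i) ∧
      ∀ n, ∃ ι : Fin (L (φ n)) → Fin (L (φ (n + 1))), Function.Injective ι ∧
        ∀ l, ε (φ n) l ≤ ε (φ (n + 1)) (ι l) ∧
          (∀ j, γ (φ n) j l ≤ γ (φ (n + 1)) j (ι l)) ∧
          Dom (E (φ n) l) (E (φ (n + 1)) (ι l)) := by
  classical
  set T := (ℝ × (Fin s → ℝ)) × Finset (Fin m → ℕ) with hT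
  set r : T → T → Prop := fun a b => a.1 ≤ b.1 ∧ Dom a.2 b.2 with hr
  haveI hpre : IsPreorder T r :=
    { refl := fun a => ⟨le_refl _, chain_dom_refl _⟩
      trans := fun a b c hab hbc => ⟨hab.1.trans hbc.1, chain_dom_trans hab.2 hbc.2⟩ }
  haveI hpre2 : IsPreorder (List T) (List.SublistForall₂ r) :=
    { refl := fun a => refl_of (List.SublistForall₂ r) a
      trans := fun a b c hab hbc => trans_of (List.SublistForall₂ r) hab hbc }
  have hwf : Γ.IsWF := by
    rw [Set.isWF_iff_no_descending_seq]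
    intro g hg hmem
    exact hΓ ⟨g, hg, hmem⟩
  have hpwo : (insert (0 : ℝ) Γ).IsPWO := (hwf.isPWO).insert 0
  have hpi : (Set.univ.pi fun _ : Fin s => insert (0 : ℝ) Γ).IsPWO := Set.IsPWO.pi fun _ => hpwo
  have hp2 : ((insert (0 : ℝ) Γ) ×ˢ (Set.univ.pi fun _ : Fin s => insert (0 : ℝ) Γ)).IsPWO :=
    hpwo.prod hpi
  have hp3 : (((insert (0 : ℝ) Γ) ×ˢ (Set.univ.pi fun _ : Fin s => insert (0 : ℝ) Γ)) ×ˢ
      (Set.univ : Set (Finset (Fin m → ℕ)))).PartiallyWellOrderedOn r :=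
    Set.PartiallyWellOrderedOn.prod (r := (· ≤ ·)) (r' := Dom) hp2 dom_pwo
  have hp4 := Set.PartiallyWellOrderedOn.partiallyWellOrderedOn_sublistForall₂ r hp3
  obtain ⟨g, hg⟩ := hp4.exists_monotone_subseq
    (f := fun n => List.ofFn fun l : Fin (L n) => (((ε n l, fun j => γ n j l), E n l) : T)) (by
      intro n x hx
      rw [List.mem_ofFn] at hx
      obtain ⟨l, rfl⟩ := hx
      refine ⟨⟨hε n l, ?_⟩, Set.mem_univ _⟩
      rw [Set.mem_univ_pi]
      intro j
      exact hγ n j l)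
  obtain ⟨ψ, hψ, hmono⟩ := exists_monotone_of_dcc hΓ (ι := Fin m ⊕ (Fin s × Fin m))
    (fun n => Sum.elim (δ (g n)) (fun p => D (g n) p.1 p.2)) (by
      intro n i
      rcases i with i | ⟨j, i⟩
      · exact hδ (g n) i
      · exact hD (g n) j i)
  refine ⟨fun n => g (ψ n), fun a b hab => g.strictMono (hψ hab), fun i => hmono (Sum.inl i),
    fun j i => hmono (Sum.inr (j, i)), ?_⟩
  intro n
  have h1 := hg (ψ n) (ψ (n + 1)) (hψ (Nat.lt_succ_self n)).le
  obtain ⟨ι, hι, h2⟩ := chain_idx _ _ h1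
  refine ⟨ι, hι, fun l => ?_⟩
  obtain ⟨⟨h3, h4⟩, h5⟩ := h2 l
  exact ⟨h3, h4, h5⟩

end Pool.Agent.CTP
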