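import Mathlib

/-!
# Toric pairs and their canonical threshold polytopes

Definitions for the toric case of the ascending chain condition for canonical threshold
polytopes (problem MP_afce3b_ag).
-/

namespace Pool.Agent.CTP

/-- The value of the real linear form `m` on the lattice vector `v`. -/
def pair {d : ℕ} (m : Fin d → ℝ) (v : Fin d → ℤ) : ℝ := ∑ i, m i * (v i : ℝ)

/-- A lattice vector regarded as a real vector. -/
def toReal {d : ℕ} (v : Fin d → ℤ) : Fin d → ℝ := fun i => (v i : ℝ)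

/-- Primitive lattice vectors of `ℤ ^ d` (in particular nonzero). -/
def IsPrimitive {d : ℕ} (v : Fin d → ℤ) : Prop :=
  ∀ (k : ℤ) (w : Fin d → ℤ), v = k • w → IsUnit k

/-- The real convex cone generated by a finite set of lattice vectors. -/
def coneOf {d : ℕ} (σ : Finset (Fin d → ℤ)) : Set (Fin d → ℝ) :=
  {x | ∃ c : (Fin d → ℤ) → ℝ, (∀ v ∈ σ, 0 ≤ c v) ∧ x = ∑ v ∈ σ, c v • toReal v}

/-- A finite fan of strongly convex rational polyhedral cones in `ℝ ^ d`, with lattice `ℤ ^ d`.
A cone is given by the finite set of the primitive generators of its rays. -/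
structure Fan (d : ℕ) where
  /-- the cones, each given by the set of primitive generators of its rays -/
  cones : Finset (Finset (Fin d → ℤ))
  nonempty : cones.Nonempty
  primitive : ∀ σ ∈ cones, ∀ v ∈ σ, IsPrimitive v
  /-- strong convexity -/
  pointed : ∀ σ ∈ cones, ∃ m : Fin d → ℝ, ∀ v ∈ σ, 0 < pair m v
  /-- every element of `σ` spans a ray (one-dimensional face) of the cone -/
  extremal : ∀ σ ∈ cones, ∀ v ∈ σ, toReal v ∉ coneOf (σ.erase v)
  /-- faces of cones are cones of the fan -/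
  face_mem : ∀ σ ∈ cones, ∀ τ ⊆ σ, ∀ m : Fin d → ℝ,
    (∀ v ∈ σ, 0 ≤ pair m v) → (∀ v ∈ σ, pair m v = 0 ↔ v ∈ τ) → τ ∈ cones
  /-- two cones intersect in a common face -/
  inter_eq : ∀ σ ∈ cones, ∀ τ ∈ cones, coneOf σ ∩ coneOf τ = coneOf (σ ∩ τ)
  inter_face : ∀ σ ∈ cones, ∀ τ ∈ cones, ∃ m : Fin d → ℝ,
    (∀ v ∈ σ, 0 ≤ pair m v) ∧ ∀ v ∈ σ, (pair m v = 0 ↔ v ∈ τ)

/-- The primitive generators of the rays of the fan; they correspond to the torus invariant
prime divisors of the toric variety. -/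
def Fan.rays {d : ℕ} (F : Fan d) : Set (Fin d → ℤ) := {v | ∃ σ ∈ F.cones, v ∈ σ}

/-- A torus invariant `ℝ`-divisor is given by its coefficients `B v`, `v` a ray generator. It is
`ℝ`-Cartier when on every cone there is a linear form with the values `B v` at the generators. -/
def Fan.RCartier {d : ℕ} (F : Fan d) (B : (Fin d → ℤ) → ℝ) : Prop :=
  ∀ σ ∈ F.cones, ∃ m : Fin d → ℝ, ∀ v ∈ σ, pair m v = B v

/-- The toric pair `(X_F, B)` is canonical. The log discrepancy of the toric exceptional divisor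
of a primitive `v ∈ σ` is the value at `v` of the linear form which equals `1 - B w` at the
generators `w` of `σ`; it has to be at least one. In dimension at least two the coefficients of
`B` have to be at most one. (All other exceptional divisors then have log discrepancy at least
one.) -/
structure Fan.Canonical {d : ℕ} (F : Fan d) (B : (Fin d → ℤ) → ℝ) : Prop where
  /-- `K + B` is `ℝ`-Cartier -/
  cartier : F.RCartier (fun v => 1 - B v)
  coeff : 2 ≤ d → ∀ v ∈ F.rays, B v ≤ 1
  logdisc : ∀ σ ∈ F.cones, ∀ m : Fin d → ℝ, (∀ w ∈ σ, pair m w = 1 - B w) →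
    ∀ v : Fin d → ℤ, IsPrimitive v → toReal v ∈ coneOf σ → v ∉ σ → 1 ≤ pair m v

/-- Tuples `(X, Δ; D_1, ..., D_s)` as in the question, with `X` a toric variety of dimension `d`
and torus invariant divisors: `(X, Δ)` is canonical, the `D_j` are `ℝ`-Cartier and all the
coefficients of the divisors which are not zero lie in `Γ`. -/
structure ToricTuple (d s : ℕ) (Γ : Set ℝ) where
  /-- the fan of `X` -/
  fan : Fan d
  /-- the boundary -/
  Δ : (Fin d → ℤ) → ℝ
  /-- the divisors -/
  D : Fin s → (Fin d → ℤ) → ℝ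
  Δ_mem : ∀ v ∈ fan.rays, Δ v = 0 ∨ Δ v ∈ Γ
  D_mem : ∀ j, ∀ v ∈ fan.rays, D j v = 0 ∨ D j v ∈ Γ
  canonical : fan.Canonical Δ
  cartier : ∀ j, fan.RCartier (D j)

/-- The canonical threshold polytope. -/
def ToricTuple.polytope {d s : ℕ} {Γ : Set ℝ} (T : ToricTuple d s Γ) : Set (Fin s → ℝ) :=
  {t | (∀ j, 0 ≤ t j) ∧ T.fan.Canonical (fun v => T.Δ v + ∑ j, t j * T.D j v)}

/-- The descending chain condition. -/
def IsDCC (Γ : Set ℝ) : Prop := ¬ ∃ f : ℕ → ℝ, StrictAnti f ∧ ∀ n, f n ∈ Γ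

/-! ## Auxiliary definitions (not used in the statement) -/

/-- `G` contains `ℤ ^ m` and has a common denominator. -/
def Lat {m : ℕ} (G : AddSubgroup (Fin m → ℝ)) : Prop :=
  (∀ z : Fin m → ℤ, toReal z ∈ G) ∧ ∃ D : ℕ, 0 < D ∧ ∀ c ∈ G, ∀ i, ∃ z : ℤ, (D : ℝ) * c i = z

/-- The integral linear forms which are integral on `G`. -/
def ann {m : ℕ} (G : AddSubgroup (Fin m → ℝ)) : AddSubgroup (Fin m → ℤ) where
  carrier := {u | ∀ c ∈ G, ∃ z : ℤ, ∑ i, (u i : ℝ) * c i = z}
  zero_mem' := fun c _ => ⟨0, by simp⟩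
  add_mem' := by
    intro a b ha hb c hc
    obtain ⟨z, hz⟩ := ha c hc
    obtain ⟨w, hw⟩ := hb c hc
    refine ⟨z + w, ?_⟩
    push_cast
    rw [← hz, ← hw, ← Finset.sum_add_distrib]
    exact Finset.sum_congr rfl fun i _ => by simp [add_mul]
  neg_mem' := by
    intro a ha c hc
    obtain ⟨z, hz⟩ := ha c hc
    refine ⟨-z, ?_⟩
    push_cast
    rw [← hz, ← Finset.sum_neg_distrib]
    exact Finset.sum_congr rfl fun i _ => by simp

/-- The elementary pieces of the polytopes: the conditions of all the points of `G` with positive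
coordinates. -/
def atom {m s : ℕ} (G : AddSubgroup (Fin m → ℝ)) (δ : Fin m → ℝ) (D : Fin s → Fin m → ℝ) :
    Set (Fin s → ℝ) :=
  {t | (∀ j, 0 ≤ t j) ∧ ∀ c ∈ G, (∀ i, 0 < c i) →
    1 ≤ ∑ i, c i * (1 - (δ i + ∑ j, t j * D j i))}

/-- The coordinate group of the lattice `ℤ ^ d` with respect to the vectors `g i`. -/
def coordGroup {m d : ℕ} (g : Fin m → (Fin d → ℤ)) : AddSubgroup (Fin m → ℝ) where
  carrier := {c | ∃ v : Fin d → ℤ, toReal v = ∑ i, c i • toReal (g i)}
  zero_mem' := ⟨0, by ext; simp [toReal]⟩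
  add_mem' := by
    rintro a b ⟨v, hv⟩ ⟨w, hw⟩
    refine ⟨v + w, ?_⟩
    have : toReal (v + w) = toReal v + toReal w := by ext; simp [toReal]
    rw [this, hv, hw, ← Finset.sum_add_distrib]
    exact Finset.sum_congr rfl fun i _ => by simp [add_smul]
  neg_mem' := by
    rintro a ⟨v, hv⟩
    refine ⟨-v, ?_⟩
    have : toReal (-v) = - toReal v := by ext; simp [toReal]
    rw [this, hv, ← Finset.sum_neg_distrib]
    exact Finset.sum_congr rfl fun i _ => by simp

end Pool.Agent.CTP
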