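import Mathlib

/-!
# A point of a finite group where all the given characters are close to given values

`fourier_large`: let `A` be a finite abelian group with characters `χ_1, ..., χ_m`, let
`θ_1, ..., θ_m` be complex numbers of absolute value one and let `R` be a natural number, such
that for all integral exponents `|u_i| ≤ R`: if `∏ χ_i ^ u_i` is the trivial character then
`∏ θ_i ^ u_i = 1`. Then there is `y : A` with
`4 ^ (R m) / (R + 1) ^ m ≤ ∏ |1 + θ_i χ_i(y)| ^ (2 R)`.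

PAPER PROOF. Put `F(y) = ∏_i (1 + θ_i χ_i(y)) ^ R = ∑_r b_r ∏_i (θ_i χ_i(y)) ^ (r_i)`, where `r`
runs over `Fin m → Fin (R+1)` (or `Fintype.piFinset fun _ => Finset.range (R+1)`) and
`b_r = ∏_i (R choose r_i)` (binomial theorem `add_pow` and `Finset.prod_univ_sum`). Then
`∑_y |F(y)|^2 = ∑_y F(y) * conj (F(y))
  = ∑_{r,r'} b_r b_r' ∏ θ_i ^ (r_i - r'_i) * ∑_y ∏_i χ_i(y) ^ (r_i - r'_i)`
(the conjugate of a number `z` of absolute value one is its inverse; `|χ_i(y)| = 1`,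
`AddChar.norm_apply`). For `u = r - r'` the function `y ↦ ∏ χ_i(y) ^ (u_i)` is an additive
character `ψ` (`∏ i, χ i ^ u i` in the group `AddChar A ℂ`) and `∑_y ψ y` is `|A|` if `ψ` is
trivial and `0` otherwise (`AddChar.sum_eq_ite` or `AddChar.sum_eq_zero_iff_ne_zero`,
`AddChar.sum_eq_card_of_eq_zero`...). In the first case the hypothesis gives
`∏ θ_i ^ (u_i) = 1` (as `|u_i| ≤ R`). So every term `(r, r')` is `0` or `b_r b_r' |A|`, in both
cases a real number `≥ 0`, and the terms with `r = r'` are `b_r ^ 2 |A|`. Hence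
`∑_y |F(y)|^2 ≥ |A| ∑_r b_r^2 ≥ |A| (∑_r b_r)^2 / (R+1)^m = |A| 4^(Rm) / (R+1)^m`
by Cauchy-Schwarz (`sq_sum_le_card_mul_sum_sq`; there are `(R+1)^m` values of `r`) and
`∑_r b_r = ∏_i ∑_{r_i} (R choose r_i) = 2^(Rm)`. So some `y` has
`|F(y)|^2 ≥ 4^(Rm)/(R+1)^m` (`Finset.exists_le_of_sum_le` or by contradiction), and
`|F(y)|^2 = ∏ |1 + θ_i χ_i(y)|^(2R)`.
-/

namespace Pool.Agent.CTP

theorem fourier_char_sum {A : Type*} [AddCommGroup A] [Fintype A] {m : ℕ}
    (χ : Fin m → AddChar A ℂ) (u : Fin m → ℤ) (hne : ¬ ∀ y : A, ∏ i, (χ i y) ^ (u i) = 1) :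
    ∑ y : A, ∏ i, (χ i y) ^ (u i) = 0 := by
  push Not at hne
  obtain ⟨a, ha⟩ := hne
  have h1 : ∑ y : A, ∏ i, (χ i y) ^ (u i) =
      (∏ i, (χ i a) ^ (u i)) * ∑ y : A, ∏ i, (χ i y) ^ (u i) := by
    conv_lhs => rw [← Equiv.sum_comp (Equiv.addLeft a)]
    rw [Finset.mul_sum]
    refine Finset.sum_congr rfl fun y _ => ?_
    rw [← Finset.prod_mul_distrib]
    refine Finset.prod_congr rfl fun i _ => ?_
    rw [Equiv.coe_addLeft, AddChar.map_add_eq_mul, mul_zpow]
  have h2 : (1 - ∏ i, (χ i a) ^ (u i)) * ∑ y : A, ∏ i, (χ i y) ^ (u i) = 0 := by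
    rw [sub_mul, one_mul, ← h1, sub_self]
  rcases mul_eq_zero.1 h2 with h3 | h3
  · exact absurd (sub_eq_zero.1 h3).symm ha
  · exact h3

theorem fourier_conj {z : ℂ} (hz : ‖z‖ = 1) (a b : ℕ) :
    z ^ a * (starRingEnd ℂ) (z ^ b) = z ^ ((a : ℤ) - b) := by
  have hz0 : z ≠ 0 := by
    intro h
    rw [h, norm_zero] at hz
    exact zero_ne_one hz
  rw [map_pow, ← Complex.inv_eq_conj hz, zpow_sub₀ hz0, zpow_natCast, zpow_natCast, inv_pow,
    div_eq_mul_inv]

theorem fourier_large {A : Type*} [AddCommGroup A] [Finite A] {m : ℕ} (χ : Fin m → AddChar A ℂ)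
    (θ : Fin m → ℂ) (hθ : ∀ i, ‖θ i‖ = 1) (R : ℕ)
    (h : ∀ u : Fin m → ℤ, (∀ i, |u i| ≤ (R : ℤ)) → (∀ y : A, ∏ i, (χ i y) ^ (u i) = 1) →
      ∏ i, (θ i) ^ (u i) = 1) :
    ∃ y : A, (4 : ℝ) ^ (R * m) / ((R : ℝ) + 1) ^ m ≤ ∏ i, ‖1 + θ i * χ i y‖ ^ (2 * R) := by
  classical
  have : Fintype A := Fintype.ofFinite A
  set I : Finset (Fin m → ℕ) := Fintype.piFinset (fun _ : Fin m => Finset.range (R + 1)) with hI
  set b : (Fin m → ℕ) → ℝ := fun r => ∏ i, (R.choose (r i) : ℝ) with hb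
  have hb0 : ∀ r, 0 ≤ b r := fun r => Finset.prod_nonneg fun i _ => Nat.cast_nonneg _
  set z : A → Fin m → ℂ := fun y i => θ i * χ i y with hz
  have hz1 : ∀ y i, ‖z y i‖ = 1 := by
    intro y i
    rw [hz]
    simp only [norm_mul, hθ, AddChar.norm_apply, mul_one]
  set F : A → ℂ := fun y => ∏ i, (1 + z y i) ^ R with hF
  have hFexp : ∀ y, F y = ∑ r ∈ I, (b r : ℂ) * ∏ i, (z y i) ^ (r i) := by
    intro y
    have e1 : ∀ i, (1 + z y i) ^ R =
        ∑ k ∈ Finset.range (R + 1), (R.choose k : ℂ) * (z y i) ^ k := by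
      intro i
      rw [add_comm, add_pow]
      refine Finset.sum_congr rfl fun k _ => ?_
      rw [one_pow, mul_one, mul_comm]
    rw [hF]
    simp only [e1]
    rw [Finset.prod_univ_sum]
    refine Finset.sum_congr rfl fun r _ => ?_
    rw [Finset.prod_mul_distrib, hb]
    push_cast
    rfl
  set t : (Fin m → ℕ) → (Fin m → ℕ) → ℝ := fun r r' =>
    if ∀ y : A, ∏ i, (χ i y) ^ ((r i : ℤ) - r' i) = 1 then (Fintype.card A : ℝ) else 0 with ht
  have ht0 : ∀ r r', 0 ≤ t r r' := by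
    intro r r'
    rw [ht]
    simp only
    split_ifs
    · exact Nat.cast_nonneg _
    · exact le_rfl
  have htd : ∀ r, t r r = Fintype.card A := by
    intro r
    rw [ht]
    simp only [sub_self, zpow_zero, Finset.prod_const_one, implies_true, if_true]
  have hT : ∀ r ∈ I, ∀ r' ∈ I, ∑ y : A, ∏ i, (z y i) ^ ((r i : ℤ) - r' i) = (t r r' : ℂ) := by
    intro r hr r' hr'
    rw [hI, Fintype.mem_piFinset] at hr hr'
    have hu : ∀ i, |(r i : ℤ) - r' i| ≤ (R : ℤ) := by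
      intro i
      have h1 := Finset.mem_range.1 (hr i)
      have h2 := Finset.mem_range.1 (hr' i)
      rw [abs_le]
      constructor <;> omega
    have e1 : ∀ y : A, ∏ i, (z y i) ^ ((r i : ℤ) - r' i) =
        (∏ i, (θ i) ^ ((r i : ℤ) - r' i)) * ∏ i, (χ i y) ^ ((r i : ℤ) - r' i) := by
      intro y
      rw [← Finset.prod_mul_distrib]
      refine Finset.prod_congr rfl fun i _ => ?_
      rw [hz]
      simp only
      rw [mul_zpow]
    simp only [e1]
    rw [← Finset.mul_sum, ht]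
    simp only
    split_ifs with h1
    · rw [h _ hu h1, one_mul]
      simp only [h1, Finset.sum_const, Finset.card_univ, nsmul_eq_mul, mul_one]
      push_cast
      rfl
    · rw [fourier_char_sum χ _ h1, mul_zero]
      simp
  have hsum : ∑ y : A, ‖F y‖ ^ 2 = ∑ r ∈ I, ∑ r' ∈ I, b r * b r' * t r r' := by
    have e1 : ((∑ y : A, ‖F y‖ ^ 2 : ℝ) : ℂ) =
        ((∑ r ∈ I, ∑ r' ∈ I, b r * b r' * t r r' : ℝ) : ℂ) := by
      push_cast
      have e2 : ∀ y : A, ((‖F y‖ : ℝ) : ℂ) ^ 2 = ∑ r ∈ I, ∑ r' ∈ I,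
          (b r : ℂ) * (b r' : ℂ) * ∏ i, (z y i) ^ ((r i : ℤ) - r' i) := by
        intro y
        have e3 : ((‖F y‖ : ℝ) : ℂ) ^ 2 = F y * (starRingEnd ℂ) (F y) := by
          rw [Complex.mul_conj, Complex.normSq_eq_norm_sq]
          push_cast
          rfl
        rw [e3, hFexp y, map_sum, Finset.sum_mul_sum]
        refine Finset.sum_congr rfl fun r _ => Finset.sum_congr rfl fun r' _ => ?_
        rw [map_mul, Complex.conj_ofReal, map_prod]
        have e4 : ∏ i, (z y i) ^ ((r i : ℤ) - r' i) =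
            (∏ i, (z y i) ^ (r i)) * ∏ i, (starRingEnd ℂ) ((z y i) ^ (r' i)) := by
          rw [← Finset.prod_mul_distrib]
          exact Finset.prod_congr rfl fun i _ => (fourier_conj (hz1 y i) _ _).symm
        rw [e4]
        ring
      simp only [e2]
      rw [Finset.sum_comm]
      refine Finset.sum_congr rfl fun r hr => ?_
      rw [Finset.sum_comm]
      refine Finset.sum_congr rfl fun r' hr' => ?_
      rw [← Finset.mul_sum, hT r hr r' hr']
    exact_mod_cast e1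
  have hlow : (Fintype.card A : ℝ) * ∑ r ∈ I, b r ^ 2 ≤ ∑ y : A, ‖F y‖ ^ 2 := by
    rw [hsum, Finset.mul_sum]
    refine Finset.sum_le_sum fun r hr => ?_
    have h1 := Finset.single_le_sum (f := fun r' => b r * b r' * t r r')
      (fun r' _ => mul_nonneg (mul_nonneg (hb0 r) (hb0 r')) (ht0 r r')) hr
    refine le_trans (le_of_eq ?_) h1
    simp only [htd]
    ring
  have hbsum : ∑ r ∈ I, b r = (2 : ℝ) ^ (R * m) := by
    have e1 := Finset.prod_univ_sum (fun _ : Fin m => Finset.range (R + 1))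
      (fun (_ : Fin m) (k : ℕ) => (R.choose k : ℝ))
    have e2 : ∑ k ∈ Finset.range (R + 1), (R.choose k : ℝ) = 2 ^ R := by
      have := Nat.sum_range_choose R
      exact_mod_cast this
    rw [hb, hI]
    simp only
    rw [← e1]
    simp only [e2, Finset.prod_const, Finset.card_univ, Fintype.card_fin]
    rw [← pow_mul]
  have hcardI : ((I.card : ℕ) : ℝ) = ((R : ℝ) + 1) ^ m := by
    rw [hI, Fintype.card_piFinset]
    simp only [Finset.card_range, Finset.prod_const, Finset.card_univ, Fintype.card_fin]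
    push_cast
    rfl
  have hCS := sq_sum_le_card_mul_sum_sq (s := I) (f := b)
  rw [hbsum, hcardI] at hCS
  have hR : (0 : ℝ) < ((R : ℝ) + 1) ^ m := by positivity
  have h4 : ((2 : ℝ) ^ (R * m)) ^ 2 = 4 ^ (R * m) := by
    rw [← pow_mul, mul_comm (R * m) 2, pow_mul]
    norm_num
  rw [h4] at hCS
  have hCS2 : (4 : ℝ) ^ (R * m) / ((R : ℝ) + 1) ^ m ≤ ∑ r ∈ I, b r ^ 2 := by
    rw [div_le_iff₀ hR]
    linarith
  have hfin : ∑ _y : A, (4 : ℝ) ^ (R * m) / ((R : ℝ) + 1) ^ m ≤ ∑ y : A, ‖F y‖ ^ 2 := by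
    rw [Finset.sum_const, Finset.card_univ, nsmul_eq_mul]
    exact le_trans (mul_le_mul_of_nonneg_left hCS2 (Nat.cast_nonneg _)) hlow
  obtain ⟨y, _, hy⟩ := Finset.exists_le_of_sum_le (Finset.univ_nonempty (α := A)) hfin
  refine ⟨y, hy.trans (le_of_eq ?_)⟩
  rw [hF]
  simp only
  rw [norm_prod, ← Finset.prod_pow]
  refine Finset.prod_congr rfl fun i _ => ?_
  rw [norm_pow, ← pow_mul, mul_comm R 2]

end Pool.Agent.CTP
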