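import Pool.Agent.CTP.Def
import Pool.Agent.CTP.Fourier

/-!
# Quantitative duality: a lattice containing `ℤ ^ m` whose short dual vectors are integral at `h`
has a point near `h`

PAPER PROOF of `density`. We may assume `ε ≤ 1/2`. For real `t` put `e(t) = exp(2 π i t)`; then
`|1 + e(t)|^2 = 2 + 2 cos(2πt) = 4 cos(πt)^2`. If `|t - n| ≥ ε` for every integer `n` then (take
`n = round t`, `s = t - n`, `ε ≤ |s| ≤ 1/2`) `cos(πt)^2 = cos(πs)^2 ≤ cos(πε)^2 =: q < 1`.
Choose `R` with `q ^ R * (R+1)^m < 1` (`tendsto_pow_const_mul_const_pow_of_abs_lt_one`).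

Let `G` be given, with common denominator `D`. Let
`A = {y : Fin m → ZMod D | ∃ c ∈ G, ∃ z : Fin m → ℤ, (∀ i, D * c i = z i) ∧ ∀ i, y i = (z i : ZMod D)}`,
an additive subgroup of the finite group `Fin m → ZMod D` (`NeZero D`), with the characters
`χ_i(y) = ZMod.stdAddChar (y i)`; if `y` comes from `c`, `z` then `χ_i(y) = exp(2πi z_i/D) = e(c_i)`
(`ZMod.stdAddChar_coe`). (Any other finite model of `G / ℤ^m` will do.) Put `θ_i = e(-h_i)`.
If `|u_i| ≤ R` and `∏ χ_i^(u_i)` is trivial on `A` then for all `c ∈ G`: `e(∑ u_i c_i) = 1`, so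
`∑ u_i c_i` is an integer (`Complex.exp_eq_one_iff`), i.e. `u ∈ ann G`, so by hypothesis
`∑ u_i h_i` is an integer and `∏ θ_i^(u_i) = e(-∑ u_i h_i) = 1`. So `fourier_large` gives
`y ∈ A`, i.e. `c ∈ G`, with `4^(Rm)/(R+1)^m ≤ ∏ |1 + e(c_i - h_i)|^(2R)`. If some `i` has
`|c_i - h_i - n| ≥ ε` for all integers `n` then the right side is at most
`4^(R(m-1)) (4q)^R = 4^(Rm) q^R < 4^(Rm)/(R+1)^m`, contradiction. So for every `i` there is an
integer `n_i` with `|c_i - h_i - n_i| < ε`, and `x = c - n ∈ G` (`G ⊇ ℤ^m`).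
-/

namespace Pool.Agent.CTP

namespace DensityAux

open Real

/-- the character of the circle -/
noncomputable def ec (t : ℝ) : ℂ := Complex.exp (((2 * π * t : ℝ) : ℂ) * Complex.I)

theorem norm_ec (t : ℝ) : ‖ec t‖ = 1 := Complex.norm_exp_ofReal_mul_I _

theorem ec_add (s t : ℝ) : ec (s + t) = ec s * ec t := by
  unfold ec
  rw [← Complex.exp_add]
  congr 1
  push_cast
  ring

theorem ec_int (n : ℤ) : ec n = 1 := by
  unfold ec
  rw [Complex.exp_eq_one_iff]
  refine ⟨n, ?_⟩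
  push_cast
  ring

theorem int_of_ec {t : ℝ} (h : ec t = 1) : ∃ n : ℤ, t = n := by
  unfold ec at h
  rw [Complex.exp_eq_one_iff] at h
  obtain ⟨n, hn⟩ := h
  refine ⟨n, ?_⟩
  have hpi : (π : ℂ) ≠ 0 := by exact_mod_cast Real.pi_ne_zero
  have h2 : (2 * (π : ℂ) * Complex.I) ≠ 0 :=
    mul_ne_zero (mul_ne_zero two_ne_zero hpi) Complex.I_ne_zero
  have h3 : ((t : ℝ) : ℂ) * (2 * (π : ℂ) * Complex.I) = (n : ℂ) * (2 * (π : ℂ) * Complex.I) := by
    rw [← hn]
    push_cast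
    ring
  have h4 := mul_right_cancel₀ h2 h3
  exact_mod_cast h4

theorem ec_prod {m : ℕ} (t : Fin m → ℝ) (u : Fin m → ℤ) :
    ∏ i, ec (t i) ^ (u i) = ec (∑ i, (u i : ℝ) * t i) := by
  unfold ec
  have h1 : ∀ i, Complex.exp (((2 * π * t i : ℝ) : ℂ) * Complex.I) ^ (u i) =
      Complex.exp ((u i : ℂ) * (((2 * π * t i : ℝ) : ℂ) * Complex.I)) := fun i =>
    (Complex.exp_int_mul _ _).symm
  simp only [h1]
  rw [← Complex.exp_sum]
  congr 1
  push_cast
  rw [Finset.mul_sum, Finset.sum_mul]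
  refine Finset.sum_congr rfl fun i _ => ?_
  ring

theorem sq_norm (t : ℝ) : ‖1 + ec t‖ ^ 2 = 4 * cos (π * t) ^ 2 := by
  have h1 : (1 + ec t).re = 1 + cos (2 * (π * t)) := by
    unfold ec
    rw [Complex.add_re, Complex.one_re, Complex.exp_ofReal_mul_I_re]
    congr 2
    ring
  have h2 : (1 + ec t).im = sin (2 * (π * t)) := by
    unfold ec
    rw [Complex.add_im, Complex.one_im, Complex.exp_ofReal_mul_I_im, zero_add]
    congr 1
    ring
  rw [← Complex.normSq_eq_norm_sq, Complex.normSq_apply, h1, h2]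
  have h3 := sin_sq_add_cos_sq (2 * (π * t))
  have h4 := cos_two_mul (π * t)
  nlinarith

theorem cos_bd {ε : ℝ} (hε : 0 < ε) (hε2 : ε ≤ 1 / 2) {t : ℝ} (h : ∀ n : ℤ, ε ≤ |t - n|) :
    cos (π * t) ^ 2 ≤ cos (π * ε) ^ 2 := by
  have hpi := Real.pi_pos
  have hs1 : |t - round t| ≤ 1 / 2 := abs_sub_round t
  have hs2 := h (round t)
  obtain ⟨s, hs⟩ : ∃ s, s = t - round t := ⟨_, rfl⟩
  rw [← hs] at hs1 hs2
  have e1 : π * t = π * s + (round t : ℤ) * π := by
    rw [hs]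
    ring
  have e2 : cos (π * t) ^ 2 = cos (π * |s|) ^ 2 := by
    rw [e1, cos_add_int_mul_pi]
    rcases abs_choice s with hc | hc
    · rw [hc]
      rcases Int.even_or_odd (round t) with he | ho
      · rw [he.neg_one_zpow, one_mul]
      · rw [ho.neg_one_zpow]
        ring
    · have e3 : cos (π * |s|) = cos (π * s) := by
        rw [hc, mul_neg, cos_neg]
      rw [e3]
      rcases Int.even_or_odd (round t) with he | ho
      · rw [he.neg_one_zpow, one_mul]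
      · rw [ho.neg_one_zpow]
        ring
  rw [e2]
  have h1 : 0 ≤ cos (π * |s|) := by
    apply cos_nonneg_of_mem_Icc
    constructor
    · have : 0 ≤ π * |s| := by positivity
      linarith
    · nlinarith
  have h2 : cos (π * |s|) ≤ cos (π * ε) := by
    apply cos_le_cos_of_nonneg_of_le_pi
    · positivity
    · nlinarith
    · exact mul_le_mul_of_nonneg_left hs2 hpi.le
  exact pow_le_pow_left₀ h1 h2 2

theorem exists_R (m : ℕ) {q : ℝ} (hq0 : 0 ≤ q) (hq1 : q < 1) :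
    ∃ R : ℕ, q ^ R * ((R : ℝ) + 1) ^ m < 1 := by
  have h1 := tendsto_pow_const_mul_const_pow_of_abs_lt_one m (r := q)
    (by rw [abs_of_nonneg hq0]; exact hq1)
  have h2 : (0 : ℝ) < 1 / 2 ^ m := by positivity
  have h3 := (h1.eventually (gt_mem_nhds h2)).and (Filter.eventually_ge_atTop 1)
  obtain ⟨R, hR, hR1⟩ := h3.exists
  refine ⟨R, ?_⟩
  have hR1' : (1 : ℝ) ≤ (R : ℝ) := by exact_mod_cast hR1
  have h4 : ((R : ℝ) + 1) ^ m ≤ (2 * (R : ℝ)) ^ m := by
    apply pow_le_pow_left₀ (by positivity)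
    linarith
  calc q ^ R * ((R : ℝ) + 1) ^ m ≤ q ^ R * (2 * (R : ℝ)) ^ m :=
        mul_le_mul_of_nonneg_left h4 (pow_nonneg hq0 R)
    _ = 2 ^ m * ((R : ℝ) ^ m * q ^ R) := by
        rw [mul_pow]
        ring
    _ < 2 ^ m * (1 / 2 ^ m) := mul_lt_mul_of_pos_left hR (by positivity)
    _ = 1 := by
        field_simp

/-- a finite model of `G` modulo `ℤ ^ m` -/
def fin {m : ℕ} (G : AddSubgroup (Fin m → ℝ)) (D : ℕ) : AddSubgroup (Fin m → ZMod D) where
  carrier := {y | ∃ c ∈ G, ∃ z : Fin m → ℤ, (∀ i, (D : ℝ) * c i = z i) ∧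
    ∀ i, y i = ((z i : ℤ) : ZMod D)}
  zero_mem' := ⟨0, G.zero_mem, 0, fun i => by simp, fun i => by simp⟩
  add_mem' := by
    rintro a b ⟨c, hc, z, hz, hy⟩ ⟨c', hc', z', hz', hy'⟩
    refine ⟨c + c', G.add_mem hc hc', z + z', fun i => ?_, fun i => ?_⟩
    · rw [Pi.add_apply, Pi.add_apply, mul_add, hz, hz']
      push_cast
      rfl
    · rw [Pi.add_apply, Pi.add_apply, hy, hy']
      push_cast
      rfl
  neg_mem' := by
    rintro a ⟨c, hc, z, hz, hy⟩
    refine ⟨-c, G.neg_mem hc, -z, fun i => ?_, fun i => ?_⟩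
    · rw [Pi.neg_apply, Pi.neg_apply, mul_neg, hz]
      push_cast
      rfl
    · rw [Pi.neg_apply, Pi.neg_apply, hy]
      push_cast
      rfl

/-- the coordinate characters -/
noncomputable def chr {m : ℕ} (G : AddSubgroup (Fin m → ℝ)) (D : ℕ) [NeZero D] (i : Fin m) :
    AddChar (fin G D) ℂ :=
  (ZMod.stdAddChar (N := D)).compAddMonoidHom
    ((Pi.evalAddMonoidHom (fun _ : Fin m => ZMod D) i).comp (fin G D).subtype)

theorem chr_eq {m : ℕ} {G : AddSubgroup (Fin m → ℝ)} {D : ℕ} [NeZero D] {c : Fin m → ℝ}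
    {z : Fin m → ℤ} (hz : ∀ i, (D : ℝ) * c i = z i) {y : fin G D}
    (hy : ∀ i, y.1 i = ((z i : ℤ) : ZMod D)) (i : Fin m) : chr G D i y = ec (c i) := by
  have h1 : chr G D i y = ZMod.stdAddChar (N := D) (y.1 i) := rfl
  rw [h1, hy, ZMod.stdAddChar_coe]
  unfold ec
  congr 1
  have hD : (D : ℂ) ≠ 0 := by exact_mod_cast NeZero.ne D
  have h2 : (D : ℂ) * (c i : ℂ) = ((z i : ℤ) : ℂ) := by exact_mod_cast hz i
  rw [← h2]
  push_cast
  field_simp

end DensityAux

open DensityAux in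
theorem density (m : ℕ) (ε : ℝ) (hε : 0 < ε) : ∃ R : ℕ, ∀ G : AddSubgroup (Fin m → ℝ), Lat G →
    ∀ h : Fin m → ℝ,
      (∀ u ∈ ann G, (∀ i, |u i| ≤ (R : ℤ)) → ∃ z : ℤ, ∑ i, (u i : ℝ) * h i = z) →
      ∃ x ∈ G, ∀ i, |x i - h i| < ε := by
  obtain ⟨ε', hε'0, hε'1, hε'2⟩ : ∃ ε' : ℝ, 0 < ε' ∧ ε' ≤ ε ∧ ε' ≤ 1 / 2 :=
    ⟨min ε (1 / 2), lt_min hε (by norm_num), min_le_left _ _, min_le_right _ _⟩
  obtain ⟨q, hq⟩ : ∃ q, q = Real.cos (Real.pi * ε') ^ 2 := ⟨_, rfl⟩
  have hpi := Real.pi_pos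
  have hq0 : 0 ≤ q := by rw [hq]; positivity
  have hq1 : q < 1 := by
    have h1 : 0 ≤ Real.cos (Real.pi * ε') := by
      apply Real.cos_nonneg_of_mem_Icc
      constructor
      · have : 0 ≤ Real.pi * ε' := by positivity
        linarith
      · nlinarith
    have h2 : Real.cos (Real.pi * ε') < 1 := by
      have h3 : Real.cos (Real.pi * ε') < Real.cos 0 := by
        apply Real.cos_lt_cos_of_nonneg_of_le_pi le_rfl
        · nlinarith
        · positivity
      rwa [Real.cos_zero] at h3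
    rw [hq]
    exact pow_lt_one₀ h1 h2 two_ne_zero
  obtain ⟨R, hR⟩ := exists_R m hq0 hq1
  refine ⟨R, fun G hG h hann => ?_⟩
  obtain ⟨hZ, D, hD, hGD⟩ := hG
  haveI : NeZero D := ⟨hD.ne'⟩
  have hlift : ∀ c ∈ G, ∃ y : fin G D, ∀ i, chr G D i y = ec (c i) := by
    intro c hc
    choose z hz using hGD c hc
    exact ⟨⟨fun i => ((z i : ℤ) : ZMod D), c, hc, z, hz, fun i => rfl⟩,
      fun i => chr_eq hz (fun i => rfl) i⟩
  obtain ⟨y, hy⟩ := fourier_large (chr G D) (fun i => ec (-h i)) (fun i => norm_ec _) R (by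
    intro u hu hchar
    have hu2 : u ∈ ann G := by
      intro c hc
      obtain ⟨y, hy⟩ := hlift c hc
      have h1 := hchar y
      simp only [hy] at h1
      rw [ec_prod] at h1
      exact int_of_ec h1
    obtain ⟨z, hz⟩ := hann u hu2 hu
    rw [ec_prod]
    have h2 : ∑ i, (u i : ℝ) * -h i = ((-z : ℤ) : ℝ) := by
      push_cast
      rw [← hz, ← Finset.sum_neg_distrib]
      exact Finset.sum_congr rfl fun i _ => by ring
    rw [h2, ec_int])
  obtain ⟨c, hc, z, hz, hyz⟩ := y.2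
  have hchi : ∀ i, ec (-h i) * chr G D i y = ec (c i - h i) := by
    intro i
    rw [chr_eq hz hyz i, ← ec_add]
    congr 1
    ring
  have hfac : ∀ i, ‖1 + ec (-h i) * chr G D i y‖ ^ (2 * R) =
      4 ^ R * (Real.cos (Real.pi * (c i - h i)) ^ 2) ^ R := by
    intro i
    rw [hchi i, pow_mul, sq_norm, mul_pow]
  simp only [hfac] at hy
  rw [Finset.prod_mul_distrib, Finset.prod_const, Finset.card_univ, Fintype.card_fin, ← pow_mul]
    at hy
  have hkey : ∀ i, ∃ n : ℤ, |c i - h i - n| < ε := by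
    intro i
    by_contra hcon
    push Not at hcon
    have h1 : Real.cos (Real.pi * (c i - h i)) ^ 2 ≤ q := by
      rw [hq]
      exact cos_bd hε'0 hε'2 fun n => hε'1.trans (hcon n)
    have hg0 : ∀ j, 0 ≤ (Real.cos (Real.pi * (c j - h j)) ^ 2) ^ R := fun j => by positivity
    have hg1 : ∀ j, (Real.cos (Real.pi * (c j - h j)) ^ 2) ^ R ≤ 1 := fun j =>
      pow_le_one₀ (by positivity) (Real.cos_sq_le_one _)
    have h2 : ∏ j, (Real.cos (Real.pi * (c j - h j)) ^ 2) ^ R ≤ q ^ R := by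
      rw [← Finset.mul_prod_erase Finset.univ _ (Finset.mem_univ i)]
      calc (Real.cos (Real.pi * (c i - h i)) ^ 2) ^ R *
            ∏ j ∈ Finset.univ.erase i, (Real.cos (Real.pi * (c j - h j)) ^ 2) ^ R
          ≤ (Real.cos (Real.pi * (c i - h i)) ^ 2) ^ R * 1 :=
            mul_le_mul_of_nonneg_left
              (Finset.prod_le_one (fun j _ => hg0 j) fun j _ => hg1 j) (hg0 i)
        _ = (Real.cos (Real.pi * (c i - h i)) ^ 2) ^ R := mul_one _
        _ ≤ q ^ R := pow_le_pow_left₀ (by positivity) h1 R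
    have h4 : (0 : ℝ) < 4 ^ (R * m) := by positivity
    have h5 : (0 : ℝ) < ((R : ℝ) + 1) ^ m := by positivity
    have h6 : (4 : ℝ) ^ (R * m) / ((R : ℝ) + 1) ^ m ≤ 4 ^ (R * m) * q ^ R :=
      hy.trans (mul_le_mul_of_nonneg_left h2 h4.le)
    rw [div_le_iff₀ h5] at h6
    have h7 : (4 : ℝ) ^ (R * m) * q ^ R * ((R : ℝ) + 1) ^ m < 4 ^ (R * m) * 1 := by
      rw [mul_assoc]
      exact mul_lt_mul_of_pos_left hR h4
    linarith
  choose n hn using hkey
  refine ⟨c - toReal n, G.sub_mem hc (hZ n), fun i => ?_⟩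
  have h1 : (c - toReal n) i - h i = c i - h i - n i := by
    rw [Pi.sub_apply]
    unfold toReal
    ring
  rw [h1]
  exact hn i

end Pool.Agent.CTP
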