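import Pool.Agent.CTP.NDef

/-!
# Maclagan's theorem: finitely generated up-closed subsets of `ℕ ^ m` are well-quasi-ordered by
# reverse inclusion

PAPER PROOF of `dom_pwo`. For a finite set `E` of elements of `ℕ ^ m` the complement of the
up-closure of `E` is a finite union of boxes: for every choice function `κ : E → Fin m` let
`b_κ : Fin m → ℕ∞`, `b_κ i = ⨅ μ ∈ E with κ μ = i, (μ i : ℕ∞)` (`⊤` if there is no such `μ`). Then
for `x : Fin m → ℕ`:
`(¬ ∃ μ ∈ E, μ ≤ x) ↔ (∀ μ ∈ E, ∃ i, x i < μ i) ↔ (∃ κ, ∀ μ ∈ E, x (κ μ) < μ (κ μ)) ↔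
(∃ κ, ∀ i, (x i : ℕ∞) < b_κ i)`
(the minimum over a finite set of numbers bigger than `x i` is bigger than `x i`; for an empty set
it is `⊤`). Let `box E : List (Fin m → ℕ∞)` be a list of all the `b_κ`. The type `Fin m → ℕ∞` is
partially well ordered (finite product of the well order `ℕ∞`: `Pi.isPWO`), so by Higman's lemma
(`Set.PartiallyWellOrderedOn.partiallyWellOrderedOn_sublistForall₂`) for every sequence
`E 0, E 1, ...` there are `j < k` with `List.SublistForall₂ (· ≤ ·) (box (E j)) (box (E k))`; in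
particular every `b ∈ box (E j)` has `b' ∈ box (E k)` with `b ≤ b'`. So the complement of the
up-closure of `E j` is contained in that of `E k`: if `μ' ∈ E k` then `μ'` is not in the
complement for `k`, hence not in the complement for `j`, i.e. there is `μ ∈ E j` with `μ ≤ μ'`.
-/

namespace Pool.Agent.CTP

/-- The box of a choice function. -/
private noncomputable def dbx {m : ℕ} (E : Finset (Fin m → ℕ)) (κ : E → Fin m) : Fin m → ℕ∞ :=
  fun i => (E.attach.filter (fun μ => κ μ = i)).inf (fun μ => ((μ.1 i : ℕ) : ℕ∞))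

/-- All boxes. -/
private noncomputable def dboxes {m : ℕ} (E : Finset (Fin m → ℕ)) : List (Fin m → ℕ∞) :=
  (Finset.univ : Finset (E → Fin m)).toList.map (dbx E)

private theorem dboxes_iff {m : ℕ} (E : Finset (Fin m → ℕ)) (x : Fin m → ℕ) :
    (¬ ∃ μ ∈ E, μ ≤ x) ↔ ∃ b ∈ dboxes E, ∀ i, ((x i : ℕ) : ℕ∞) < b i := by
  constructor
  · intro h
    push Not at h
    have h1 : ∀ μ : E, ∃ i, x i < μ.1 i := by
      intro μ
      have h2 := h μ.1 μ.2
      rw [Pi.le_def] at h2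
      push Not at h2
      exact h2
    choose κ hκ using h1
    refine ⟨dbx E κ, ?_, ?_⟩
    · rw [dboxes, List.mem_map]
      exact ⟨κ, by simp, rfl⟩
    · intro i
      rw [dbx, Finset.lt_inf_iff (by exact WithTop.coe_lt_top _)]
      intro μ hμ
      have h3 := (Finset.mem_filter.1 hμ).2
      have h4 := hκ μ
      rw [h3] at h4
      exact_mod_cast h4
  · rintro ⟨b, hb, hlt⟩ ⟨μ, hμ, hle⟩
    rw [dboxes, List.mem_map] at hb
    obtain ⟨κ, -, rfl⟩ := hb
    have h1 := hlt (κ ⟨μ, hμ⟩)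
    rw [dbx, Finset.lt_inf_iff (by exact WithTop.coe_lt_top _)] at h1
    have h2 := h1 ⟨μ, hμ⟩ (Finset.mem_filter.2 ⟨Finset.mem_attach _ _, rfl⟩)
    have h3 : x (κ ⟨μ, hμ⟩) < μ (κ ⟨μ, hμ⟩) := by exact_mod_cast h2
    exact absurd (hle (κ ⟨μ, hμ⟩)) (not_le.2 h3)

private theorem mem_of_sublistForall₂ {α : Type*} {r : α → α → Prop} {l₁ l₂ : List α}
    (h : List.SublistForall₂ r l₁ l₂) : ∀ b ∈ l₁, ∃ b' ∈ l₂, r b b' := by
  induction h with
  | nil => intro b hb; simp at hb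
  | cons h1 _ ih =>
    intro b hb
    rcases List.mem_cons.1 hb with rfl | hb
    · exact ⟨_, List.mem_cons_self, h1⟩
    · obtain ⟨b', hb', hr⟩ := ih b hb
      exact ⟨b', List.mem_cons_of_mem _ hb', hr⟩
  | cons_right _ ih =>
    intro b hb
    obtain ⟨b', hb', hr⟩ := ih b hb
    exact ⟨b', List.mem_cons_of_mem _ hb', hr⟩

theorem dom_pwo {m : ℕ} :
    (Set.univ : Set (Finset (Fin m → ℕ))).PartiallyWellOrderedOn Dom := by
  rw [Set.partiallyWellOrderedOn_iff_exists_lt]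
  intro E _
  have hp : (Set.univ : Set (Fin m → ℕ∞)).IsPWO := Set.isPWO_of_wellQuasiOrderedLE _
  have hH := Set.PartiallyWellOrderedOn.partiallyWellOrderedOn_sublistForall₂
    ((· ≤ ·) : (Fin m → ℕ∞) → (Fin m → ℕ∞) → Prop) hp
  obtain ⟨j, k, hjk, h⟩ := hH.exists_lt (f := fun n => dboxes (E n)) (fun n x _ => Set.mem_univ x)
  refine ⟨j, k, hjk, ?_⟩
  intro μ' hμ'
  by_contra hcon
  obtain ⟨b, hb, hlt⟩ := (dboxes_iff (E j) μ').1 hcon
  obtain ⟨b', hb', hle⟩ := mem_of_sublistForall₂ h b hb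
  exact (dboxes_iff (E k) μ').2 ⟨b', hb', fun i => lt_of_lt_of_le (hlt i) (hle i)⟩
    ⟨μ', hμ', le_refl _⟩

end Pool.Agent.CTP
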