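import Pool.Agent.CTP.NDef

/-!
# Finite determination of the pieces

PAPER PROOF of `exists_finite_test`. Let `D > 0` be a common denominator of `G`. For every choice
`μ : ∀ l, Fin m → ℕ` with `μ l ∈ E l` (finitely many choices: `Fintype.piFinset E`; none if some
`E l` is empty, but all the `E l` are assumed nonempty) let `T_μ` be the set of the `c ∈ G` with
all `0 < c i` such that for all `l` and all `μ' ∈ E l`:
`0 ≤ ∑ i, ((μ' i : ℝ) - μ l i) * c i`, i.e. `hmin (E l) c = ∑ i, μ l i * c i`. Every positive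
`c ∈ G` lies in some `T_μ`. For `c ∈ G` all the numbers `D * c i` and
`D * ∑ i, (μ' i - μ l i) * c i` are integers, and they are `≥ 0` for `c ∈ T_μ`. Let
`Φ_μ : T_μ → (Fin m ⊕ (Σ l, E l) → ℕ)` be the function with these coordinates (a finite index
type). By Dickson's lemma (`Pi.isPWO`, `Set.IsPWO`, or `WellQuasiOrdered`) there is a finite subset
`C_μ` of `T_μ` such that every `c ∈ T_μ` has `c' ∈ C_μ` with `Φ_μ c' ≤ Φ_μ c`. (A set which is
partially well ordered has finitely many minimal elements and every element is above a minimal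
one: `Set.IsPWO.exists_le_minimal`, `Set.PartiallyWellOrderedOn.finite_of_isAntichain`; choose a
preimage of each of the minimal elements.) Let `C = ⋃ C_μ`. If `c ∈ T_μ`, `c' ∈ C_μ` and
`Φ_μ c' ≤ Φ_μ c` then `g = c - c' ∈ G` has `g i ≥ 0` and `∑ i, (μ' i - μ l i) * g i ≥ 0`, so
`hmin (E l) g = ∑ i, μ l i * g i` for all `l`, hence
`fval a η E c = fval a η E c' + fval a η E g ≥ 1 + 0`.

PAPER PROOF of `fval_nonneg`. `hmin E (x + y) ≥ hmin E x + hmin E y` and
`hmin E (n • x) = n * hmin E x` for natural `n`, so (as `η ≥ 0`)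
`fval (n • x + y) ≤ n * fval x + fval y`. Let `g ∈ G` with `g i ≥ 0` and let `D` be a common
denominator. For every `n : ℕ` the vector `(n * D) • g + 1` (`1` the all ones vector) is an
integral vector with positive coordinates, so `1 ≤ n * D * fval g + fval 1` for all `n`, which
is impossible for large `n` if `fval g < 0`.

The other lemmas are immediate from `Finset.inf'`.
-/

namespace Pool.Agent.CTP

theorem hmin_le {m : ℕ} {E : Finset (Fin m → ℕ)} {μ : Fin m → ℕ} (hμ : μ ∈ E) (c : Fin m → ℝ) :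
    hmin E c ≤ ∑ i, (μ i : ℝ) * c i := by
  unfold hmin
  rw [dif_pos ⟨μ, hμ⟩]
  exact Finset.inf'_le (fun μ : Fin m → ℕ => ∑ i, (μ i : ℝ) * c i) hμ

theorem exists_hmin_eq {m : ℕ} {E : Finset (Fin m → ℕ)} (hE : E.Nonempty) (c : Fin m → ℝ) :
    ∃ μ ∈ E, hmin E c = ∑ i, (μ i : ℝ) * c i := by
  unfold hmin
  rw [dif_pos hE]
  exact Finset.exists_mem_eq_inf' hE (fun μ : Fin m → ℕ => ∑ i, (μ i : ℝ) * c i)

theorem hmin_nonneg {m : ℕ} (E : Finset (Fin m → ℕ)) (c : Fin m → ℝ) (hc : ∀ i, 0 ≤ c i) :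
    0 ≤ hmin E c := by
  rcases E.eq_empty_or_nonempty with h | h
  · simp [hmin, h]
  · obtain ⟨μ, -, hμ⟩ := exists_hmin_eq h c
    rw [hμ]
    exact Finset.sum_nonneg fun i _ => mul_nonneg (Nat.cast_nonneg _) (hc i)

theorem hmin_mono_of_dom {m : ℕ} {E E' : Finset (Fin m → ℕ)} (h : Dom E E') (hE' : E'.Nonempty)
    (c : Fin m → ℝ) (hc : ∀ i, 0 ≤ c i) : hmin E c ≤ hmin E' c := by
  obtain ⟨μ', hμ', he⟩ := exists_hmin_eq hE' c
  obtain ⟨μ, hμ, hle⟩ := h μ' hμ'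
  rw [he]
  refine (hmin_le hμ c).trans (Finset.sum_le_sum fun i _ => ?_)
  exact mul_le_mul_of_nonneg_right (by exact_mod_cast hle i) (hc i)

private theorem FinDet_hmin_eq {m : ℕ} {E : Finset (Fin m → ℕ)} {μ : Fin m → ℕ} (hμ : μ ∈ E)
    (c : Fin m → ℝ) (h : ∀ μ' ∈ E, 0 ≤ ∑ i, ((μ' i : ℝ) - μ i) * c i) :
    hmin E c = ∑ i, (μ i : ℝ) * c i := by
  refine le_antisymm (hmin_le hμ c) ?_
  obtain ⟨μ', hμ', he⟩ := exists_hmin_eq ⟨μ, hμ⟩ c
  rw [he]
  have := h μ' hμ'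
  have e : ∑ i, ((μ' i : ℝ) - μ i) * c i = ∑ i, (μ' i : ℝ) * c i - ∑ i, (μ i : ℝ) * c i := by
    rw [← Finset.sum_sub_distrib]
    exact Finset.sum_congr rfl fun i _ => by ring
  linarith

private theorem FinDet_dickson {α ι : Type} [Finite ι] (T : Set α) (f : α → ι → ℕ) :
    ∃ C : Finset α, (∀ c ∈ C, c ∈ T) ∧ ∀ c ∈ T, ∃ c' ∈ C, f c' ≤ f c := by
  classical
  have hS : (f '' T).IsPWO := Set.isPWO_of_wellQuasiOrderedLE _
  have hfin : {x | Minimal (· ∈ f '' T) x}.Finite :=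
    WellQuasiOrderedLE.finite_of_isAntichain (setOfPred_minimal_antichain _)
  have hex : ∀ x ∈ hfin.toFinset, ∃ t ∈ T, f t = x := by
    intro x hx
    rw [Set.Finite.mem_toFinset] at hx
    exact hx.prop
  choose g hgT hgf using hex
  refine ⟨hfin.toFinset.attach.image (fun x => g x.1 x.2), ?_, ?_⟩
  · intro c hc
    obtain ⟨x, -, rfl⟩ := Finset.mem_image.1 hc
    exact hgT _ _
  · intro c hc
    obtain ⟨b, hb, hmin⟩ := hS.exists_le_minimal (Set.mem_image_of_mem f hc)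
    have hb' : b ∈ hfin.toFinset := by
      rw [Set.Finite.mem_toFinset]
      exact hmin
    refine ⟨g b hb', Finset.mem_image.2 ⟨⟨b, hb'⟩, Finset.mem_attach _ _, rfl⟩, ?_⟩
    rw [hgf]
    exact hb

private theorem FinDet_floor {x : ℝ} (h0 : 0 ≤ x) (hz : ∃ z : ℤ, x = z) : ((⌊x⌋₊ : ℕ) : ℝ) = x := by
  obtain ⟨z, rfl⟩ := hz
  have hz : 0 ≤ z := by exact_mod_cast h0
  lift z to ℕ using hz
  simp

theorem exists_finite_test {m L : ℕ} (G : AddSubgroup (Fin m → ℝ)) (hG : Lat G)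
    (E : Fin L → Finset (Fin m → ℕ)) (hE : ∀ l, (E l).Nonempty) :
    ∃ C : Finset (Fin m → ℝ), (∀ c ∈ C, c ∈ G ∧ ∀ i, 0 < c i) ∧
      ∀ (a : Fin m → ℝ) (η : Fin L → ℝ), (∀ c ∈ C, 1 ≤ fval a η E c) →
        (∀ g ∈ G, (∀ i, 0 ≤ g i) → 0 ≤ fval a η E g) →
        ∀ c ∈ G, (∀ i, 0 < c i) → 1 ≤ fval a η E c := by
  classical
  obtain ⟨-, D, hD, hden⟩ := hG
  have hDpos : (0 : ℝ) < D := by exact_mod_cast hD
  -- the sets `T_μ`
  let T : (Fin L → Fin m → ℕ) → Set (Fin m → ℝ) := fun μ =>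
    {c | c ∈ G ∧ (∀ i, 0 < c i) ∧ ∀ l, ∀ μ' ∈ E l, 0 ≤ ∑ i, ((μ' i : ℝ) - μ l i) * c i}
  -- the coordinates
  let Φ : (Fin L → Fin m → ℕ) → (Fin m → ℝ) → (Fin m ⊕ (Σ l : Fin L, {x // x ∈ E l}) → ℕ) :=
    fun μ c => Sum.elim (fun i => ⌊(D : ℝ) * c i⌋₊)
      (fun p => ⌊(D : ℝ) * ∑ i, ((p.2.1 i : ℝ) - μ p.1 i) * c i⌋₊)
  have hint : ∀ c ∈ G, ∀ (μ' μ : Fin m → ℕ),
      ∃ z : ℤ, (D : ℝ) * ∑ i, ((μ' i : ℝ) - μ i) * c i = z := by
    intro c hc μ' μ
    choose z hz using fun i => hden c hc i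
    refine ⟨∑ i, ((μ' i : ℤ) - μ i) * z i, ?_⟩
    push_cast
    rw [Finset.mul_sum]
    refine Finset.sum_congr rfl fun i _ => ?_
    rw [← hz i]
    ring
  choose C hC1 hC2 using fun μ => FinDet_dickson (T μ) (Φ μ)
  refine ⟨(Fintype.piFinset E).biUnion C, ?_, ?_⟩
  · intro c hc
    obtain ⟨μ, -, hμ⟩ := Finset.mem_biUnion.1 hc
    have := hC1 μ c hμ
    exact ⟨this.1, this.2.1⟩
  · intro a η htest hnn c hc hpos
    -- choose the minimising exponents
    choose μ hμE hμ using fun l => exists_hmin_eq (hE l) c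
    have hcT : c ∈ T μ := by
      refine ⟨hc, hpos, fun l μ' hμ' => ?_⟩
      have h1 := hmin_le hμ' c
      rw [hμ l] at h1
      have e : ∑ i, ((μ' i : ℝ) - μ l i) * c i =
          ∑ i, (μ' i : ℝ) * c i - ∑ i, (μ l i : ℝ) * c i := by
        rw [← Finset.sum_sub_distrib]
        exact Finset.sum_congr rfl fun i _ => by ring
      linarith
    obtain ⟨c', hc', hle⟩ := hC2 μ c hcT
    have hc'T := hC1 μ c' hc'
    obtain ⟨hc'G, hc'pos, hc'E⟩ := hc'T
    have hgG : c - c' ∈ G := G.sub_mem hc hc'G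
    have hg0 : ∀ i, 0 ≤ (c - c') i := by
      intro i
      have h1 : ⌊(D : ℝ) * c' i⌋₊ ≤ ⌊(D : ℝ) * c i⌋₊ := hle (Sum.inl i)
      have h2 : ((⌊(D : ℝ) * c' i⌋₊ : ℕ) : ℝ) ≤ ((⌊(D : ℝ) * c i⌋₊ : ℕ) : ℝ) := by
        exact_mod_cast h1
      rw [FinDet_floor (mul_nonneg hDpos.le (hc'pos i).le) (hden c' hc'G i),
        FinDet_floor (mul_nonneg hDpos.le (hpos i).le) (hden c hc i)] at h2
      have h3 : c' i ≤ c i := le_of_mul_le_mul_left h2 hDpos
      simp only [Pi.sub_apply]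
      linarith
    have hgE : ∀ l, ∀ μ' ∈ E l, 0 ≤ ∑ i, ((μ' i : ℝ) - μ l i) * (c - c') i := by
      intro l μ' hμ'
      have h1 : ⌊(D : ℝ) * ∑ i, ((μ' i : ℝ) - μ l i) * c' i⌋₊ ≤
          ⌊(D : ℝ) * ∑ i, ((μ' i : ℝ) - μ l i) * c i⌋₊ := hle (Sum.inr ⟨l, ⟨μ', hμ'⟩⟩)
      have h2 : ((⌊(D : ℝ) * ∑ i, ((μ' i : ℝ) - μ l i) * c' i⌋₊ : ℕ) : ℝ) ≤
          ((⌊(D : ℝ) * ∑ i, ((μ' i : ℝ) - μ l i) * c i⌋₊ : ℕ) : ℝ) := by
        exact_mod_cast h1
      rw [FinDet_floor (mul_nonneg hDpos.le (hc'E l μ' hμ')) (hint c' hc'G μ' (μ l)),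
        FinDet_floor (mul_nonneg hDpos.le (hcT.2.2 l μ' hμ')) (hint c hc μ' (μ l))] at h2
      have h3 := le_of_mul_le_mul_left h2 hDpos
      have e : ∑ i, ((μ' i : ℝ) - μ l i) * (c - c') i =
          ∑ i, ((μ' i : ℝ) - μ l i) * c i - ∑ i, ((μ' i : ℝ) - μ l i) * c' i := by
        rw [← Finset.sum_sub_distrib]
        exact Finset.sum_congr rfl fun i _ => by simp only [Pi.sub_apply]; ring
      linarith
    have h1 : 1 ≤ fval a η E c' := htest c' (Finset.mem_biUnion.2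
      ⟨μ, Fintype.mem_piFinset.2 hμE, hc'⟩)
    have h2 : 0 ≤ fval a η E (c - c') := hnn _ hgG hg0
    have e : fval a η E c = fval a η E c' + fval a η E (c - c') := by
      unfold fval
      have e1 : ∀ l, hmin (E l) c = hmin (E l) c' + hmin (E l) (c - c') := by
        intro l
        rw [hμ l, FinDet_hmin_eq (hμE l) c' (hc'E l), FinDet_hmin_eq (hμE l) (c - c') (hgE l),
          ← Finset.sum_add_distrib]
        exact Finset.sum_congr rfl fun i _ => by simp only [Pi.sub_apply]; ring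
      have e2 : ∑ i, c i * a i = ∑ i, c' i * a i + ∑ i, (c - c') i * a i := by
        rw [← Finset.sum_add_distrib]
        exact Finset.sum_congr rfl fun i _ => by simp only [Pi.sub_apply]; ring
      have e3 : ∑ l, η l * hmin (E l) c =
          ∑ l, η l * hmin (E l) c' + ∑ l, η l * hmin (E l) (c - c') := by
        rw [← Finset.sum_add_distrib]
        exact Finset.sum_congr rfl fun l _ => by rw [e1 l]; ring
      rw [e2, e3]
      ring
    linarith

private theorem FinDet_super {m : ℕ} (E : Finset (Fin m → ℕ)) (x y : Fin m → ℝ) {t : ℝ}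
    (ht : 0 ≤ t) : t * hmin E x + hmin E y ≤ hmin E (fun i => t * x i + y i) := by
  rcases E.eq_empty_or_nonempty with h | h
  · simp [hmin, h]
  · obtain ⟨μ, hμ, he⟩ := exists_hmin_eq h (fun i => t * x i + y i)
    rw [he]
    have e : ∑ i, (μ i : ℝ) * (t * x i + y i) =
        t * ∑ i, (μ i : ℝ) * x i + ∑ i, (μ i : ℝ) * y i := by
      rw [Finset.mul_sum, ← Finset.sum_add_distrib]
      exact Finset.sum_congr rfl fun i _ => by ring
    rw [e]
    exact add_le_add (mul_le_mul_of_nonneg_left (hmin_le hμ x) ht) (hmin_le hμ y)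

theorem fval_nonneg {m L : ℕ} (G : AddSubgroup (Fin m → ℝ)) (hG : Lat G)
    (E : Fin L → Finset (Fin m → ℕ)) (a : Fin m → ℝ) (η : Fin L → ℝ) (hη : ∀ l, 0 ≤ η l)
    (h : ∀ z : Fin m → ℤ, (∀ i, 0 < z i) → 1 ≤ fval a η E (toReal z)) :
    ∀ g ∈ G, (∀ i, 0 ≤ g i) → 0 ≤ fval a η E g := by
  intro g hg hg0
  obtain ⟨-, D, hD, hden⟩ := hG
  have hDpos : (0 : ℝ) < D := by exact_mod_cast hD
  choose z hz using fun i => hden g hg i
  have hz0 : ∀ i, 0 ≤ z i := by
    intro i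
    have : (0 : ℝ) ≤ z i := by
      rw [← hz i]
      exact mul_nonneg hDpos.le (hg0 i)
    exact_mod_cast this
  by_contra hneg
  push Not at hneg
  have hkey : ∀ n : ℕ, 1 ≤ (n : ℝ) * D * fval a η E g + fval a η E (fun _ => 1) := by
    intro n
    have h1 := h (fun i => n * z i + 1) (fun i => by
      have := mul_nonneg (Int.natCast_nonneg n) (hz0 i)
      linarith)
    have e : toReal (fun i => (n : ℤ) * z i + 1) = fun i => ((n : ℝ) * D) * g i + 1 := by
      funext i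
      simp only [toReal]
      push_cast
      rw [← hz i]
      ring
    rw [e] at h1
    refine h1.trans ?_
    unfold fval
    have ht : (0 : ℝ) ≤ (n : ℝ) * D := by positivity
    have e2 : ∑ i, ((n : ℝ) * D * g i + 1) * a i =
        (n : ℝ) * D * ∑ i, g i * a i + ∑ i, 1 * a i := by
      rw [Finset.mul_sum, ← Finset.sum_add_distrib]
      exact Finset.sum_congr rfl fun i _ => by ring
    have e3 : (n : ℝ) * D * ∑ l, η l * hmin (E l) g + ∑ l, η l * hmin (E l) (fun _ => 1) ≤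
        ∑ l, η l * hmin (E l) (fun i => (n : ℝ) * D * g i + 1) := by
      rw [Finset.mul_sum, ← Finset.sum_add_distrib]
      refine Finset.sum_le_sum fun l _ => ?_
      have := mul_le_mul_of_nonneg_left (FinDet_super (E l) g (fun _ => 1) ht) (hη l)
      refine le_trans (le_of_eq (by ring)) this
    rw [e2]
    linarith
  have hpos : 0 < (D : ℝ) * (-fval a η E g) := mul_pos hDpos (by linarith)
  obtain ⟨n, hn⟩ := exists_nat_gt (|fval a η E (fun _ => 1)| / ((D : ℝ) * (-fval a η E g)))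
  have h1 := hkey n
  rw [div_lt_iff₀ hpos] at hn
  have h2 := le_abs_self (fval a η E (fun _ => 1))
  nlinarith

end Pool.Agent.CTP
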