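import Pool.Agent.CTP.NDef

/-!
# Pairs on Newton nondegenerate hypersurfaces of toric varieties

`Z` is a toric variety of dimension `d + 1`, `X ⊆ Z` the closure of the zero set in the torus of a
Laurent polynomial `f_0`, and the divisors on `X` are restrictions to `X` of divisors on `Z` whose
components are torus invariant or closures `F_l` of zero sets of Laurent polynomials `f_l`; the
family `f_0, f_1, ..., f_L` is Newton nondegenerate. (For `Z = Y × 𝔾_m` and `f_0 = z - 1` one gets
all the pairs on the toric variety `X = Y` of `NDef.lean`.)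
-/

namespace Pool.Agent.CTP

/-- `v` lies in the tropical hypersurface of a Laurent polynomial with the set of exponents `A`:
the minimum of `⟨u, v⟩`, `u ∈ A`, is attained at least twice. For a cone containing only `v` and
its multiples this says that the hypersurface meets the orbit of `v`. -/
def Trop {n : ℕ} (A : Finset (Fin n → ℤ)) (v : Fin n → ℤ) : Prop :=
  ∃ u ∈ A, ∃ u' ∈ A, u ≠ u' ∧ ∑ i, u i * v i = ordAt A v ∧ ∑ i, u' i * v i = ordAt A v

/-- A hypersurface `X` of a toric variety `Z` of dimension `n` together with a finite family of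
further hypersurfaces `F_l` of `Z`. The fields `eq_cartier` and `no_orbit` say that `X` is a
`ℚ`-Cartier divisor of `Z` and that `X` contains no torus orbit of codimension two; so `X` is
normal, and the exceptional divisors over `X` in the toric resolutions are those of the lattice
points of `Trop eq` which are not on rays of the fan. -/
structure HyperFan (n : ℕ) where
  /-- the fan of `Z` -/
  fan : Fan n
  /-- the support of the equation `f_0` of `X` -/
  eq : Finset (Fin n → ℤ)
  eq_two : 2 ≤ eq.card
  eq_cartier : ∀ σ ∈ fan.cones, ∃ m : Fin n → ℝ, ∀ w ∈ σ, pair m w = (ordAt eq w : ℝ)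
  no_orbit : ∀ σ ∈ fan.cones, σ.card = 2 →
    ∃ u ∈ eq, ∀ w ∈ σ, ∑ i, u i * w i = ordAt eq w
  /-- the number of further hypersurfaces -/
  L : ℕ
  /-- the support of `f_l` -/
  supp : Fin L → Finset (Fin n → ℤ)
  supp_nonempty : ∀ l, (supp l).Nonempty
  /-- `F_l` meets `X` in the orbit of codimension one of the ray generated by `v` -/
  meetsRay : Fin L → (Fin n → ℤ) → Prop
  /-- `F_l` and `F_l'` meet in `X` -/
  meets : Fin L → Fin L → Prop

/-- The divisor on `Z` with coefficient `B v` at the torus invariant prime divisor of `v` and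
coefficient `b l` at `F_l` is `ℝ`-Cartier. -/
def HyperFan.RCartier {n : ℕ} (X : HyperFan n) (B : (Fin n → ℤ) → ℝ) (b : Fin X.L → ℝ) : Prop :=
  ∀ σ ∈ X.fan.cones, ∃ m : Fin n → ℝ, ∀ v ∈ σ,
    pair m v + ∑ l, b l * (ordAt (X.supp l) v : ℝ) = B v

/-- The pair `(X, B|_X)` with `B = ∑ B v D_v + ∑ b l F_l` is canonical, `dim X = n - 1`.
`cartier`: `K_Z + X + B` is `ℝ`-Cartier. `logdisc`: by adjunction the log discrepancy of the
exceptional divisors over `X` cut out by the toric divisor of a primitive lattice point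
`v ∈ Trop eq` of a cone `σ` is `pair m v - ordAt eq v - ∑ b l * ordAt (supp l) v`, where `m` is the
linear form such that this expression is `1 - B w` at the generators `w` of `σ`; it has to be at
least one. `coeff` and `codim_two`: conditions at the prime divisors of `X` and at the
intersections of codimension two in `X` which involve an `F_l`. -/
structure HyperFan.Canonical {n : ℕ} (X : HyperFan n) (B : (Fin n → ℤ) → ℝ)
    (b : Fin X.L → ℝ) : Prop where
  cartier : X.RCartier (fun v => 1 - B v + ordAt X.eq v) (fun l => - b l)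
  coeff : 3 ≤ n → (∀ v ∈ X.fan.rays, Trop X.eq v → B v ≤ 1) ∧ ∀ l, b l ≤ 1
  codim_two : 3 ≤ n → (∀ l, ∀ v ∈ X.fan.rays, X.meetsRay l v → B v + b l ≤ 1) ∧
    ∀ l l', l ≠ l' → X.meets l l' → b l + b l' ≤ 1
  logdisc : ∀ σ ∈ X.fan.cones, ∀ m : Fin n → ℝ,
    (∀ w ∈ σ, pair m w - ordAt X.eq w - ∑ l, b l * (ordAt (X.supp l) w : ℝ) = 1 - B w) →
    ∀ v : Fin n → ℤ, IsPrimitive v → toReal v ∈ coneOf σ → v ∉ σ → Trop X.eq v →
      1 ≤ pair m v - ordAt X.eq v - ∑ l, b l * (ordAt (X.supp l) v : ℝ)

/-- Tuples `(X, Δ; D_1, ..., D_s)` as in the question, with `X` a Newton nondegenerate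
hypersurface of dimension `d` of a toric variety `Z`, and divisors which are restrictions of
divisors on `Z` whose components are torus invariant or among the `F_l`: `(X, Δ)` is canonical,
the `D_j` are `ℝ`-Cartier and all coefficients which are not zero lie in `Γ`. -/
structure HyperTuple (d s : ℕ) (Γ : Set ℝ) where
  /-- the hypersurface `X` and the further hypersurfaces `F_l` -/
  X : HyperFan (d + 1)
  /-- the coefficients of `Δ` at the torus invariant prime divisors -/
  Δ : (Fin (d + 1) → ℤ) → ℝ
  /-- the coefficients of `Δ` at the hypersurfaces -/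
  Δ' : Fin X.L → ℝ
  /-- the coefficients of the `D_j` at the torus invariant prime divisors -/
  D : Fin s → (Fin (d + 1) → ℤ) → ℝ
  /-- the coefficients of the `D_j` at the hypersurfaces -/
  D' : Fin s → Fin X.L → ℝ
  Δ_mem : ∀ v ∈ X.fan.rays, Δ v = 0 ∨ Δ v ∈ Γ
  Δ'_mem : ∀ l, Δ' l = 0 ∨ Δ' l ∈ Γ
  D_mem : ∀ j, ∀ v ∈ X.fan.rays, D j v = 0 ∨ D j v ∈ Γ
  D'_mem : ∀ j l, D' j l = 0 ∨ D' j l ∈ Γ
  canonical : X.Canonical Δ Δ'
  cartier : ∀ j, X.RCartier (D j) (D' j)

/-- The canonical threshold polytope. -/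
def HyperTuple.polytope {d s : ℕ} {Γ : Set ℝ} (T : HyperTuple d s Γ) : Set (Fin s → ℝ) :=
  {t | (∀ j, 0 ≤ t j) ∧
    T.X.Canonical (fun v => T.Δ v + ∑ j, t j * T.D j v) (fun l => T.Δ' l + ∑ j, t j * T.D' j l)}

end Pool.Agent.CTP
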