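import Pool.Agent.CTP.Rep

/-!
# The polytope of a toric tuple is an intersection of basic pieces
-/

namespace Pool.Agent.CTP

theorem toReal_injective {d : ℕ} : Function.Injective (toReal (d := d)) := by
  intro v w h
  ext i
  have := congrFun h i
  simpa [toReal] using this

theorem toReal_zero {d : ℕ} : toReal (0 : Fin d → ℤ) = 0 := by
  ext i; simp [toReal]

theorem toReal_smul {d : ℕ} (k : ℤ) (v : Fin d → ℤ) : toReal (k • v) = (k : ℝ) • toReal v := by
  ext i; simp [toReal]

theorem IsPrimitive.ne_zero {d : ℕ} {v : Fin d → ℤ} (hv : IsPrimitive v) : v ≠ 0 := by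
  rintro rfl
  have := hv 0 0 (by simp)
  simp at this

/-- every nonzero lattice vector is a positive multiple of a primitive one -/
theorem exists_primitive {d : ℕ} (v : Fin d → ℤ) (hv : v ≠ 0) :
    ∃ (k : ℤ) (w : Fin d → ℤ), 1 ≤ k ∧ IsPrimitive w ∧ v = k • w := by
  classical
  set g : ℤ := Finset.univ.gcd v with hg
  have hg0 : g ≠ 0 := by
    intro h0
    apply hv
    ext i
    exact Finset.gcd_eq_zero_iff.1 h0 i (Finset.mem_univ i)
  obtain ⟨w, hw, hw1⟩ := Finset.extract_gcd (s := Finset.univ) v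
    (by
      by_contra hne
      rw [Finset.not_nonempty_iff_eq_empty] at hne
      apply hv
      ext i
      have := Finset.mem_univ i
      rw [hne] at this
      simp at this)
  have hgn : 0 ≤ g := Int.nonneg_of_normalize_eq_self Finset.normalize_gcd
  refine ⟨g, w, by omega, ?_, ?_⟩
  · intro k u hu
    have hk : k ∣ Finset.univ.gcd w := by
      apply Finset.dvd_gcd
      intro i _
      exact ⟨u i, by rw [hu]; simp⟩
    rw [hw1] at hk
    exact isUnit_of_dvd_one hk
  · ext i
    have := hw i (Finset.mem_univ i)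
    rw [this]
    simp [hg]

/-- positively proportional primitive vectors are equal -/
theorem IsPrimitive.eq_of_smul {d : ℕ} {v w : Fin d → ℤ} (hv : IsPrimitive v)
    (hw : IsPrimitive w) {c : ℝ} (hc : 0 < c) (h : toReal v = c • toReal w) : v = w := by
  -- some coordinate of `w` is nonzero
  obtain ⟨l, hl⟩ : ∃ l, w l ≠ 0 := by
    by_contra hcon
    push Not at hcon
    exact hw.ne_zero (by ext i; simpa using hcon i)
  have hcl : (v l : ℝ) = c * (w l : ℝ) := by
    have := congrFun h l
    simpa [toReal] using this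
  have hvl : v l ≠ 0 := by
    intro h0
    rw [h0] at hcl
    have : c * (w l : ℝ) ≠ 0 := mul_ne_zero hc.ne' (by exact_mod_cast hl)
    apply this
    rw [← hcl]; simp
  -- cross multiplication
  have hcross : ∀ i, v i * w l = w i * v l := by
    intro i
    have hi : (v i : ℝ) = c * (w i : ℝ) := by
      have := congrFun h i
      simpa [toReal] using this
    have : (v i : ℝ) * (w l : ℝ) = (w i : ℝ) * (v l : ℝ) := by
      rw [hi, hcl]; ring
    exact_mod_cast this
  -- reduce the fraction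
  obtain ⟨g, a, b, hg, hco, ha, hb⟩ : ∃ g a b : ℤ, 0 < g ∧ IsCoprime a b ∧ v l = a * g ∧
      w l = b * g := by
    refine ⟨Int.gcd (v l) (w l), v l / Int.gcd (v l) (w l), w l / Int.gcd (v l) (w l), ?_, ?_,
      ?_, ?_⟩
    · have : Int.gcd (v l) (w l) ≠ 0 := by
        intro h0
        exact hvl (Int.gcd_eq_zero_iff.1 h0).1
      positivity
    · rw [Int.isCoprime_iff_gcd_eq_one]
      exact Int.gcd_div_gcd_div_gcd (Nat.pos_of_ne_zero (by
        intro h0
        exact hvl (Int.gcd_eq_zero_iff.1 h0).1))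
    · exact (Int.ediv_mul_cancel (Int.gcd_dvd_left _ _)).symm
    · exact (Int.ediv_mul_cancel (Int.gcd_dvd_right _ _)).symm
  have hba : ∀ i, b * v i = a * w i := by
    intro i
    have := hcross i
    rw [ha, hb] at this
    have h2 : g * (b * v i) = g * (a * w i) := by linear_combination this
    exact mul_left_cancel₀ hg.ne' h2
  have hdvd1 : ∀ i, a ∣ v i := by
    intro i
    exact hco.dvd_of_dvd_mul_left ⟨w i, hba i⟩
  have hdvd2 : ∀ i, b ∣ w i := by
    intro i
    exact hco.symm.dvd_of_dvd_mul_left ⟨v i, (hba i).symm⟩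
  choose v' hv' using hdvd1
  choose w' hw' using hdvd2
  have hua : IsUnit a := hv a v' (by ext i; simp [hv' i])
  have hub : IsUnit b := hw b w' (by ext i; simp [hw' i])
  have hcab : c * b = a := by
    have h1 : (a : ℝ) * g = c * (b * g) := by
      have : ((v l : ℤ) : ℝ) = c * ((w l : ℤ) : ℝ) := hcl
      rw [ha, hb] at this
      push_cast at this
      exact this
    have hgr : (g : ℝ) ≠ 0 := by exact_mod_cast hg.ne'
    have : (g : ℝ) * (c * b) = g * a := by linarith
    exact mul_left_cancel₀ hgr this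
  have hab : a = b := by
    rcases Int.isUnit_iff.1 hua with h1 | h1 <;> rcases Int.isUnit_iff.1 hub with h2 | h2
    · rw [h1, h2]
    · exfalso
      rw [h1, h2] at hcab
      push_cast at hcab
      linarith
    · exfalso
      rw [h1, h2] at hcab
      push_cast at hcab
      linarith
    · rw [h1, h2]
  ext i
  have := hba i
  rw [← hab] at this
  exact mul_left_cancel₀ hua.ne_zero this

theorem mem_coneOf_of_comb {d m : ℕ} {τ : Finset (Fin d → ℤ)} {g : Fin m → (Fin d → ℤ)}
    (hg : ∀ i, g i ∈ τ) {c : Fin m → ℝ} (hc : ∀ i, 0 ≤ c i) :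
    ∑ i, c i • toReal (g i) ∈ coneOf τ := by
  classical
  refine ⟨fun w => ∑ i, if g i = w then c i else 0, ?_, ?_⟩
  · intro v _
    exact Finset.sum_nonneg fun i _ => by split_ifs <;> simp [hc i]
  · simp_rw [Finset.sum_smul]
    rw [Finset.sum_comm]
    refine Finset.sum_congr rfl fun i _ => ?_
    rw [Finset.sum_eq_single (g i)]
    · simp
    · intro b _ hb
      simp [hb.symm]
    · intro h
      exact absurd (hg i) h

theorem pair_add {d : ℕ} (m m' : Fin d → ℝ) (v : Fin d → ℤ) :
    pair (m + m') v = pair m v + pair m' v := by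
  simp [pair, add_mul, Finset.sum_add_distrib]

theorem pair_sub_sum {d s : ℕ} (m : Fin d → ℝ) (t : Fin s → ℝ) (q : Fin s → Fin d → ℝ)
    (v : Fin d → ℤ) :
    pair (m - ∑ j, t j • q j) v = pair m v - ∑ j, t j * pair (q j) v := by
  simp only [pair, Pi.sub_apply, Finset.sum_apply, Pi.smul_apply, smul_eq_mul, sub_mul,
    Finset.sum_sub_distrib, Finset.sum_mul, Finset.mul_sum]
  rw [Finset.sum_comm]
  congr 1
  exact Finset.sum_congr rfl fun j _ => Finset.sum_congr rfl fun i _ => by ring

theorem pair_comb {d m : ℕ} (q : Fin d → ℝ) (v : Fin d → ℤ) (g : Fin m → (Fin d → ℤ))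
    (c : Fin m → ℝ) (h : toReal v = ∑ i, c i • toReal (g i)) :
    pair q v = ∑ i, c i * pair q (g i) := by
  have h1 : pair q v = ∑ l, q l * toReal v l := rfl
  rw [h1, h]
  simp only [Finset.sum_apply, Pi.smul_apply, smul_eq_mul, Finset.mul_sum, pair]
  rw [Finset.sum_comm]
  exact Finset.sum_congr rfl fun j _ => Finset.sum_congr rfl fun i _ => by
    simp only [toReal]; ring

/-- the family of basic pieces of a toric tuple -/
def pieces {d s : ℕ} {Γ : Set ℝ} (T : ToricTuple d s Γ) : Set (Set (Fin s → ℝ)) :=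
  {A | A = raySet 0 0 ∨ (2 ≤ d ∧ ∃ v ∈ T.fan.rays, A = raySet (T.Δ v) (fun j => T.D j v)) ∨
    ∃ σ ∈ T.fan.cones, ∃ m : ℕ, 2 ≤ m ∧ m ≤ d ∧ ∃ g : Fin m → (Fin d → ℤ), (∀ i, g i ∈ σ) ∧
      LinearIndependent ℝ (fun i => toReal (g i)) ∧
      A = atom (coordGroup g) (fun i => T.Δ (g i)) (fun j i => T.D j (g i))}

theorem pieces_subset {d s : ℕ} {Γ : Set ℝ} (T : ToricTuple d s Γ) :
    pieces T ⊆ Basic d s Γ := by
  rintro A (rfl | ⟨-, v, hv, rfl⟩ | ⟨σ, hσ, m, -, hm, g, hg, hlin, rfl⟩)
  · exact Or.inl ⟨0, 0, Or.inl rfl, fun _ => Or.inl rfl, rfl⟩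
  · exact Or.inl ⟨_, _, T.Δ_mem v hv, fun j => T.D_mem j v hv, rfl⟩
  · exact Or.inr ⟨m, hm, _, _, _, lat_coordGroup g hlin, fun i => T.Δ_mem _ ⟨σ, hσ, hg i⟩,
      fun j i => T.D_mem j _ ⟨σ, hσ, hg i⟩, rfl⟩

theorem polytope_subset {d s : ℕ} {Γ : Set ℝ} (T : ToricTuple d s Γ) :
    T.polytope ⊆ ⋂₀ pieces T := by
  rintro t ⟨ht, hcan⟩
  rw [Set.mem_sInter]
  rintro A (rfl | ⟨hd, v, hv, rfl⟩ | ⟨σ, hσ, m, hm, -, g, hg, hlin, rfl⟩)
  · exact ⟨ht, by simp⟩
  · exact ⟨ht, hcan.coeff hd v hv⟩
  · refine ⟨ht, ?_⟩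
    rintro c ⟨v, hv⟩ hc
    obtain ⟨q, hq⟩ := hcan.cartier σ hσ
    -- two different indices
    have i0 : Fin m := ⟨0, by omega⟩
    have hv0 : v ≠ 0 := by
      rintro rfl
      rw [toReal_zero] at hv
      have := Fintype.linearIndependent_iff.1 hlin c hv.symm i0
      exact (hc i0).ne' this
    obtain ⟨k, v', hk, hv', hkv⟩ := exists_primitive v hv0
    have hkr : (1 : ℝ) ≤ k := by exact_mod_cast hk
    have hk0 : (0 : ℝ) < k := by linarith
    have hv2 : toReal v' = ∑ i, (c i / k) • toReal (g i) := by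
      have h1 : toReal v' = (k : ℝ)⁻¹ • toReal v := by
        rw [hkv, toReal_smul, smul_smul, inv_mul_cancel₀ hk0.ne', one_smul]
      rw [h1, hv, Finset.smul_sum]
      exact Finset.sum_congr rfl fun i _ => by rw [smul_smul]; congr 1; field_simp
    have hnot : v' ∉ σ := by
      intro hmem
      by_cases hex : ∃ i, g i = v'
      · obtain ⟨i, hi⟩ := hex
        obtain ⟨i', hi'⟩ : ∃ i', i' ≠ i := by
          haveI : Nontrivial (Fin m) := Fin.nontrivial_iff_two_le.2 hm
          exact exists_ne i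
        have h2 : ∑ l, (c l / k - if l = i then 1 else 0) • toReal (g l) = 0 := by
          simp_rw [sub_smul, Finset.sum_sub_distrib]
          rw [← hv2]
          simp [hi]
        have h3 := Fintype.linearIndependent_iff.1 hlin _ h2 i'
        rw [if_neg hi', sub_zero] at h3
        have := div_pos (hc i') hk0
        exact this.ne' h3
      · push Not at hex
        apply T.fan.extremal σ hσ v' hmem
        rw [hv2]
        apply mem_coneOf_of_comb
        · intro i
          exact Finset.mem_erase.2 ⟨hex i, hg i⟩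
        · intro i
          exact (div_pos (hc i) hk0).le
    have hcone : toReal v' ∈ coneOf σ := by
      rw [hv2]
      exact mem_coneOf_of_comb hg fun i => (div_pos (hc i) hk0).le
    have h1 := hcan.logdisc σ hσ q hq v' hv' hcone hnot
    rw [pair_comb q v' g _ hv2] at h1
    have h2 : ∑ i, c i * (1 - (T.Δ (g i) + ∑ j, t j * T.D j (g i)))
        = k * ∑ i, c i / k * pair q (g i) := by
      rw [Finset.mul_sum]
      refine Finset.sum_congr rfl fun i _ => ?_
      rw [hq (g i) (hg i)]
      field_simp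
    rw [h2]
    nlinarith

theorem subset_polytope {d s : ℕ} {Γ : Set ℝ} (T : ToricTuple d s Γ) :
    ⋂₀ pieces T ⊆ T.polytope := by
  intro t ht
  rw [Set.mem_sInter] at ht
  have ht0 : ∀ j, 0 ≤ t j := (ht _ (Or.inl rfl)).1
  refine ⟨ht0, ?_, ?_, ?_⟩
  · intro σ hσ
    obtain ⟨q, hq⟩ := T.canonical.cartier σ hσ
    choose p hp using fun j => T.cartier j σ hσ
    refine ⟨q - ∑ j, t j • p j, fun v hv => ?_⟩
    rw [pair_sub_sum, hq v hv]
    have : ∀ j, pair (p j) v = T.D j v := fun j => hp j v hv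
    simp_rw [this]
    ring
  · intro hd v hv
    exact (ht _ (Or.inr (Or.inl ⟨hd, v, hv, rfl⟩))).2
  · intro σ hσ q hq v hv hcone hnot
    obtain ⟨m, g, c, hmd, hg, hlin, hc, hx⟩ := exists_positive_comb σ _ hcone
    have hm2 : 2 ≤ m := by
      by_contra hlt
      have : m = 0 ∨ m = 1 := by omega
      rcases this with rfl | rfl
      · apply hv.ne_zero
        apply toReal_injective
        rw [hx, toReal_zero]
        simp
      · rw [Fin.sum_univ_one] at hx
        have h1 : v = g 0 := hv.eq_of_smul (T.fan.primitive σ hσ _ (hg 0)) (hc 0) hx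
        exact hnot (h1 ▸ hg 0)
    have h1 := (ht _ (Or.inr (Or.inr ⟨σ, hσ, m, hm2, hmd, g, hg, hlin, rfl⟩))).2 c ⟨v, hx⟩ hc
    rw [pair_comb q v g c hx]
    refine h1.trans_eq (Finset.sum_congr rfl fun i _ => ?_)
    rw [hq (g i) (hg i)]

theorem polytope_eq {d s : ℕ} {Γ : Set ℝ} (T : ToricTuple d s Γ) :
    T.polytope = ⋂₀ pieces T :=
  Set.Subset.antisymm (polytope_subset T) (subset_polytope T)

/-- The ascending chain condition for canonical threshold polytopes of toric tuples. -/
theorem acc_toric (d s : ℕ) (Γ : Set ℝ) (hΓ : IsDCC Γ) :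
    ¬ ∃ T : ℕ → ToricTuple d s Γ, ∀ n, (T n).polytope ⊂ (T (n + 1)).polytope := by
  rintro ⟨T, hT⟩
  exact acc_of_pwo (basic_isPWO hΓ d s) (fun n => pieces (T n)) (fun n => pieces_subset (T n))
    (fun n => (T n).polytope) (fun n => polytope_eq (T n)) hT

end Pool.Agent.CTP
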