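import Pool.Agent.CTP.NAtoms
import Pool.Agent.CTP.Poly

/-!
# The polytope of a Newton tuple is an intersection of basic pieces
-/

namespace Pool.Agent.CTP

/-- The condition at a ray, at a hypersurface or at an intersection of codimension two. -/
def raySet2 {s : ℕ} (δ δ' : ℝ) (D D' : Fin s → ℝ) : Set (Fin s → ℝ) :=
  {t | (∀ j, 0 ≤ t j) ∧ (δ + ∑ j, t j * D j) + (δ' + ∑ j, t j * D' j) ≤ 1}

/-- atoms of dimension `m` -/
def NAtomsSet (m s : ℕ) (Γ : Set ℝ) : Set (Set (Fin s → ℝ)) :=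
  {A | ∃ (G : AddSubgroup (Fin m → ℝ)) (δ : Fin m → ℝ) (D : Fin s → Fin m → ℝ) (L : ℕ)
    (ε : Fin L → ℝ) (γ : Fin s → Fin L → ℝ) (E : Fin L → Finset (Fin m → ℕ)),
    Lat G ∧ (∀ i, δ i = 0 ∨ δ i ∈ Γ) ∧ (∀ j i, D j i = 0 ∨ D j i ∈ Γ) ∧
    (∀ i, ε i = 0 ∨ ε i ∈ Γ) ∧ (∀ j i, γ j i = 0 ∨ γ j i ∈ Γ) ∧ (∀ l, (E l).Nonempty) ∧
    (∀ l, ∀ μ ∈ E l, ∀ μ' ∈ E l, (fun i => (μ' i : ℤ) - (μ i : ℤ)) ∈ ann G) ∧
    A = natom G δ D ε γ E}

/-- ray conditions -/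
def Rays2 (s : ℕ) (Γ : Set ℝ) : Set (Set (Fin s → ℝ)) :=
  {A | ∃ (δ δ' : ℝ) (D D' : Fin s → ℝ), (δ = 0 ∨ δ ∈ Γ) ∧ (δ' = 0 ∨ δ' ∈ Γ) ∧
    (∀ j, D j = 0 ∨ D j ∈ Γ) ∧ (∀ j, D' j = 0 ∨ D' j ∈ Γ) ∧ A = raySet2 δ δ' D D'}

/-- all basic pieces -/
def NBasic (d s : ℕ) (Γ : Set ℝ) : Set (Set (Fin s → ℝ)) :=
  {A | A ∈ Rays2 s Γ ∨ ∃ m ≤ d, A ∈ NAtomsSet m s Γ}

theorem natoms_isPWO {Γ : Set ℝ} (hΓ : IsDCC Γ) (hΓ0 : ∀ x ∈ Γ, 0 ≤ x) (m s : ℕ) :
    (NAtomsSet m s Γ).PartiallyWellOrderedOn (fun A B => B ⊆ A) := by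
  rw [Set.partiallyWellOrderedOn_iff_exists_lt]
  intro f hf
  choose G δ D L ε γ E hG hδ hD hε hγ hE hann hA using hf
  obtain ⟨j, k, hjk, h⟩ := natoms_pwo hΓ hΓ0 G hG δ D L ε γ E hδ hD hε hγ hE hann
  exact ⟨j, k, hjk, by rw [hA j, hA k]; exact h⟩

theorem rays2_isPWO {Γ : Set ℝ} (hΓ : IsDCC Γ) (s : ℕ) :
    (Rays2 s Γ).PartiallyWellOrderedOn (fun A B => B ⊆ A) := by
  rw [Set.partiallyWellOrderedOn_iff_exists_lt]
  intro f hf
  choose δ δ' D D' hδ hδ' hD hD' hA using hf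
  obtain ⟨φ, hφ, hm⟩ := exists_monotone_of_dcc hΓ
    (fun n (i : Option (Fin s) ⊕ Option (Fin s)) =>
      i.elim (fun i => i.elim (δ n) (D n)) (fun i => i.elim (δ' n) (D' n))) (by
      intro n i
      rcases i with (_ | i) | (_ | i)
      · exact hδ n
      · exact hD n i
      · exact hδ' n
      · exact hD' n i)
  refine ⟨φ 0, φ 1, hφ zero_lt_one, ?_⟩
  rw [hA (φ 0), hA (φ 1)]
  rintro t ⟨ht, h1⟩
  refine ⟨ht, le_trans (add_le_add (add_le_add ?_ (Finset.sum_le_sum ?_))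
    (add_le_add ?_ (Finset.sum_le_sum ?_))) h1⟩
  · exact hm (Sum.inl none) zero_le_one
  · intro j _
    exact mul_le_mul_of_nonneg_left (hm (Sum.inl (some j)) zero_le_one) (ht j)
  · exact hm (Sum.inr none) zero_le_one
  · intro j _
    exact mul_le_mul_of_nonneg_left (hm (Sum.inr (some j)) zero_le_one) (ht j)

theorem nbasic_isPWO {Γ : Set ℝ} (hΓ : IsDCC Γ) (hΓ0 : ∀ x ∈ Γ, 0 ≤ x) (d s : ℕ) :
    (NBasic d s Γ).PartiallyWellOrderedOn (fun A B => B ⊆ A) := by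
  have h1 : ∀ d, {A : Set (Fin s → ℝ) | ∃ m ≤ d, A ∈ NAtomsSet m s Γ}.PartiallyWellOrderedOn
      (fun A B => B ⊆ A) := by
    intro d
    induction d with
    | zero =>
      refine (natoms_isPWO hΓ hΓ0 0 s).mono ?_
      rintro A ⟨m, hm, hA⟩
      obtain rfl : m = 0 := by omega
      exact hA
    | succ d ih =>
      refine (ih.union (natoms_isPWO hΓ hΓ0 (d + 1) s)).mono ?_
      rintro A ⟨m, hm, hA⟩
      rcases Nat.lt_or_ge m (d + 1) with h | h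
      · exact Or.inl ⟨m, by omega, hA⟩
      · obtain rfl : m = d + 1 := by omega
        exact Or.inr hA
  refine ((rays2_isPWO hΓ s).union (h1 d)).mono ?_
  rintro A (hA | hA)
  · exact Or.inl hA
  · exact Or.inr hA

/-! ## The order function -/

/-- integral pairing -/
def dot {d : ℕ} (u v : Fin d → ℤ) : ℤ := ∑ i, u i * v i

theorem ordAt_le {d : ℕ} {A : Finset (Fin d → ℤ)} {u : Fin d → ℤ} (hu : u ∈ A)
    (v : Fin d → ℤ) : ordAt A v ≤ dot u v := by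
  unfold ordAt
  rw [dif_pos ⟨u, hu⟩]
  exact Finset.inf'_le (fun u => ∑ i, u i * v i) hu

theorem exists_ordAt_eq {d : ℕ} {A : Finset (Fin d → ℤ)} (hA : A.Nonempty) (v : Fin d → ℤ) :
    ∃ u ∈ A, ordAt A v = dot u v := by
  unfold ordAt
  rw [dif_pos hA]
  obtain ⟨u, hu, h⟩ := Finset.exists_mem_eq_inf' hA (fun u : Fin d → ℤ => ∑ i, u i * v i)
  exact ⟨u, hu, h⟩

theorem dot_smul {d : ℕ} (u v : Fin d → ℤ) (k : ℤ) : dot u (k • v) = k * dot u v := by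
  unfold dot
  rw [Finset.mul_sum]
  exact Finset.sum_congr rfl fun i _ => by simp only [Pi.smul_apply, smul_eq_mul]; ring

theorem ordAt_smul {d : ℕ} {A : Finset (Fin d → ℤ)} (hA : A.Nonempty) (v : Fin d → ℤ) {k : ℤ}
    (hk : 0 ≤ k) : ordAt A (k • v) = k * ordAt A v := by
  obtain ⟨u, hu, h⟩ := exists_ordAt_eq hA v
  obtain ⟨u', hu', h'⟩ := exists_ordAt_eq hA (k • v)
  apply le_antisymm
  · rw [h, ← dot_smul]
    exact ordAt_le hu _
  · rw [h', dot_smul]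
    exact mul_le_mul_of_nonneg_left (ordAt_le hu' v) hk

/-- the exponents of a Laurent polynomial relative to the generators `g i`, normalised -/
def relExp {d m : ℕ} (A : Finset (Fin d → ℤ)) (g : Fin m → (Fin d → ℤ)) :
    Finset (Fin m → ℕ) :=
  A.image fun u i => (dot u (g i) - ordAt A (g i)).toNat

theorem relExp_nonempty {d m : ℕ} {A : Finset (Fin d → ℤ)} (hA : A.Nonempty)
    (g : Fin m → (Fin d → ℤ)) : (relExp A g).Nonempty := hA.image _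

theorem toNat_relExp {d m : ℕ} {A : Finset (Fin d → ℤ)} {u : Fin d → ℤ} (hu : u ∈ A)
    (g : Fin m → (Fin d → ℤ)) (i : Fin m) :
    (((dot u (g i) - ordAt A (g i)).toNat : ℕ) : ℤ) = dot u (g i) - ordAt A (g i) :=
  Int.toNat_of_nonneg (sub_nonneg.2 (ordAt_le hu _))

theorem dot_comb {d m : ℕ} (u : Fin d → ℤ) (v : Fin d → ℤ) (g : Fin m → (Fin d → ℤ))
    (c : Fin m → ℝ) (h : toReal v = ∑ i, c i • toReal (g i)) :
    ((dot u v : ℤ) : ℝ) = ∑ i, c i * ((dot u (g i) : ℤ) : ℝ) := by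
  have h1 := pair_comb (toReal u) v g c h
  have h2 : ∀ w : Fin d → ℤ, pair (toReal u) w = ((dot u w : ℤ) : ℝ) := by
    intro w
    simp [pair, toReal, dot]
  rw [← h2, h1]
  exact Finset.sum_congr rfl fun i _ => by rw [h2]

theorem ordAt_comb {d m : ℕ} {A : Finset (Fin d → ℤ)} (hA : A.Nonempty) (v : Fin d → ℤ)
    (g : Fin m → (Fin d → ℤ)) (c : Fin m → ℝ)
    (h : toReal v = ∑ i, c i • toReal (g i)) :
    ((ordAt A v : ℤ) : ℝ) = ∑ i, c i * ((ordAt A (g i) : ℤ) : ℝ) + hmin (relExp A g) c := by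
  -- the value of an element
  have hval : ∀ u ∈ A, ∑ i, (((dot u (g i) - ordAt A (g i)).toNat : ℕ) : ℝ) * c i =
      ((dot u v : ℤ) : ℝ) - ∑ i, c i * ((ordAt A (g i) : ℤ) : ℝ) := by
    intro u hu
    rw [dot_comb u v g c h, ← Finset.sum_sub_distrib]
    refine Finset.sum_congr rfl fun i _ => ?_
    have h1 : (((dot u (g i) - ordAt A (g i)).toNat : ℕ) : ℝ) =
        ((dot u (g i) : ℤ) : ℝ) - ((ordAt A (g i) : ℤ) : ℝ) := by
      have := toNat_relExp hu g i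
      exact_mod_cast this
    rw [h1]; ring
  apply le_antisymm
  · obtain ⟨μ, hμ, h1⟩ := exists_hmin_eq (relExp_nonempty hA g) c
    obtain ⟨u, hu, rfl⟩ := Finset.mem_image.1 hμ
    rw [h1, hval u hu]
    have : ((ordAt A v : ℤ) : ℝ) ≤ ((dot u v : ℤ) : ℝ) := by exact_mod_cast ordAt_le hu v
    linarith
  · obtain ⟨u, hu, h1⟩ := exists_ordAt_eq hA v
    have h2 := hmin_le (Finset.mem_image_of_mem
      (fun u i => (dot u (g i) - ordAt A (g i)).toNat) hu) c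
    rw [hval u hu] at h2
    rw [h1]
    have h3 : hmin (relExp A g) c ≤ _ := h2
    linarith

theorem relExp_ann {d m : ℕ} (A : Finset (Fin d → ℤ)) (g : Fin m → (Fin d → ℤ)) :
    ∀ μ ∈ relExp A g, ∀ μ' ∈ relExp A g,
      (fun i => (μ' i : ℤ) - (μ i : ℤ)) ∈ ann (coordGroup g) := by
  intro μ hμ μ' hμ'
  obtain ⟨u, hu, rfl⟩ := Finset.mem_image.1 hμ
  obtain ⟨u', hu', rfl⟩ := Finset.mem_image.1 hμ'
  rintro c ⟨v, hv⟩
  refine ⟨dot u' v - dot u v, ?_⟩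
  push_cast
  rw [dot_comb u' v g c hv, dot_comb u v g c hv, ← Finset.sum_sub_distrib]
  refine Finset.sum_congr rfl fun i _ => ?_
  have h1 : (((dot u (g i) - ordAt A (g i)).toNat : ℕ) : ℝ) =
      ((dot u (g i) : ℤ) : ℝ) - ((ordAt A (g i) : ℤ) : ℝ) := by
    exact_mod_cast toNat_relExp hu g i
  have h2 : (((dot u' (g i) - ordAt A (g i)).toNat : ℕ) : ℝ) =
      ((dot u' (g i) : ℤ) : ℝ) - ((ordAt A (g i) : ℤ) : ℝ) := by
    exact_mod_cast toNat_relExp hu' g i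
  rw [h1, h2]
  ring

/-- the log discrepancy in terms of the coordinates -/
theorem logdisc_eq {d m : ℕ} (X : NewtonFan d) (B : (Fin d → ℤ) → ℝ) (b : Fin X.L → ℝ)
    (q : Fin d → ℝ) (g : Fin m → (Fin d → ℤ))
    (hq : ∀ i, pair q (g i) - ∑ l, b l * ((ordAt (X.supp l) (g i) : ℤ) : ℝ) = 1 - B (g i))
    (v : Fin d → ℤ) (c : Fin m → ℝ) (h : toReal v = ∑ i, c i • toReal (g i)) :
    pair q v - ∑ l, b l * ((ordAt (X.supp l) v : ℤ) : ℝ) =
      fval (fun i => 1 - B (g i)) b (fun l => relExp (X.supp l) g) c := by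
  unfold fval
  have h1 : ∀ l, ((ordAt (X.supp l) v : ℤ) : ℝ) =
      ∑ i, c i * ((ordAt (X.supp l) (g i) : ℤ) : ℝ) + hmin (relExp (X.supp l) g) c :=
    fun l => ordAt_comb (X.supp_nonempty l) v g c h
  simp_rw [h1, mul_add, Finset.sum_add_distrib]
  rw [pair_comb q v g c h, ← sub_sub]
  congr 1
  simp_rw [Finset.mul_sum]
  rw [Finset.sum_comm, ← Finset.sum_sub_distrib]
  refine Finset.sum_congr rfl fun i _ => ?_
  rw [← hq i, mul_sub, Finset.mul_sum]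
  congr 1
  exact Finset.sum_congr rfl fun l _ => by ring

theorem logdisc_smul {d : ℕ} (X : NewtonFan d) (b : Fin X.L → ℝ) (q : Fin d → ℝ)
    (v : Fin d → ℤ) {k : ℤ} (hk : 0 ≤ k) :
    pair q (k • v) - ∑ l, b l * ((ordAt (X.supp l) (k • v) : ℤ) : ℝ) =
      k * (pair q v - ∑ l, b l * ((ordAt (X.supp l) v : ℤ) : ℝ)) := by
  have h1 : pair q (k • v) = k * pair q v := by
    simp only [pair, Finset.mul_sum]
    exact Finset.sum_congr rfl fun i _ => by simp; ring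
  rw [h1, mul_sub, Finset.mul_sum]
  congr 1
  refine Finset.sum_congr rfl fun l _ => ?_
  rw [ordAt_smul (X.supp_nonempty l) v hk]
  push_cast
  ring

/-- the family of basic pieces of a tuple -/
def npieces {d s : ℕ} {Γ : Set ℝ} (T : NewtonTuple d s Γ) : Set (Set (Fin s → ℝ)) :=
  {A | A = raySet2 0 0 0 0 ∨
    (2 ≤ d ∧ ∃ v ∈ T.X.fan.rays, A = raySet2 (T.Δ v) 0 (fun j => T.D j v) 0) ∨
    (2 ≤ d ∧ ∃ l, A = raySet2 0 (T.Δ' l) 0 (fun j => T.D' j l)) ∨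
    (2 ≤ d ∧ ∃ l, ∃ v ∈ T.X.fan.rays, T.X.meetsRay l v ∧
      A = raySet2 (T.Δ v) (T.Δ' l) (fun j => T.D j v) (fun j => T.D' j l)) ∨
    (2 ≤ d ∧ ∃ l l', l ≠ l' ∧ T.X.meets l l' ∧
      A = raySet2 (T.Δ' l) (T.Δ' l') (fun j => T.D' j l) (fun j => T.D' j l')) ∨
    ∃ σ ∈ T.X.fan.cones, ∃ m : ℕ, 2 ≤ m ∧ m ≤ d ∧ ∃ g : Fin m → (Fin d → ℤ),
      (∀ i, g i ∈ σ) ∧ LinearIndependent ℝ (fun i => toReal (g i)) ∧
      A = natom (coordGroup g) (fun i => T.Δ (g i)) (fun j i => T.D j (g i)) T.Δ' T.D'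
        (fun l => relExp (T.X.supp l) g)}

theorem npieces_subset {d s : ℕ} {Γ : Set ℝ} (T : NewtonTuple d s Γ) :
    npieces T ⊆ NBasic d s Γ := by
  rintro A (rfl | ⟨-, v, hv, rfl⟩ | ⟨-, l, rfl⟩ | ⟨-, l, v, hv, -, rfl⟩ | ⟨-, l, l', -, -, rfl⟩ |
    ⟨σ, hσ, m, -, hm, g, hg, hlin, rfl⟩)
  · exact Or.inl ⟨0, 0, 0, 0, Or.inl rfl, Or.inl rfl, fun _ => Or.inl rfl,
      fun _ => Or.inl rfl, rfl⟩
  · exact Or.inl ⟨_, _, _, _, T.Δ_mem v hv, Or.inl rfl, fun j => T.D_mem j v hv,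
      fun _ => Or.inl rfl, rfl⟩
  · exact Or.inl ⟨_, _, _, _, Or.inl rfl, T.Δ'_mem l, fun _ => Or.inl rfl,
      fun j => T.D'_mem j l, rfl⟩
  · exact Or.inl ⟨_, _, _, _, T.Δ_mem v hv, T.Δ'_mem l, fun j => T.D_mem j v hv,
      fun j => T.D'_mem j l, rfl⟩
  · exact Or.inl ⟨_, _, _, _, T.Δ'_mem l, T.Δ'_mem l', fun j => T.D'_mem j l,
      fun j => T.D'_mem j l', rfl⟩
  · exact Or.inr ⟨m, hm, _, _, _, _, _, _, _, lat_coordGroup g hlin,
      fun i => T.Δ_mem _ ⟨σ, hσ, hg i⟩, fun j i => T.D_mem j _ ⟨σ, hσ, hg i⟩, T.Δ'_mem,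
      T.D'_mem, fun l => relExp_nonempty (T.X.supp_nonempty l) g,
      fun l => relExp_ann (T.X.supp l) g, rfl⟩

theorem npolytope_subset {d s : ℕ} {Γ : Set ℝ} (T : NewtonTuple d s Γ) :
    T.polytope ⊆ ⋂₀ npieces T := by
  rintro t ⟨ht, hcan⟩
  rw [Set.mem_sInter]
  rintro A (rfl | ⟨hd, v, hv, rfl⟩ | ⟨hd, l, rfl⟩ | ⟨hd, l, v, hv, hmt, rfl⟩ |
    ⟨hd, l, l', hne, hmt, rfl⟩ | ⟨σ, hσ, m, hm, -, g, hg, hlin, rfl⟩)
  · exact ⟨ht, by simp⟩
  · exact ⟨ht, by simpa using (hcan.coeff hd).1 v hv⟩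
  · exact ⟨ht, by simpa using (hcan.coeff hd).2 l⟩
  · exact ⟨ht, (hcan.codim_two hd).1 l v hv hmt⟩
  · exact ⟨ht, (hcan.codim_two hd).2 l l' hne hmt⟩
  · refine ⟨ht, ?_⟩
    rintro c ⟨v, hv⟩ hc
    obtain ⟨q, hq0⟩ := hcan.cartier σ hσ
    have hq : ∀ w ∈ σ, pair q w - ∑ l, (T.Δ' l + ∑ j, t j * T.D' j l) *
        ((ordAt (T.X.supp l) w : ℤ) : ℝ) = 1 - (T.Δ w + ∑ j, t j * T.D j w) := by
      intro w hw
      have h0 := hq0 w hw
      simp only [neg_mul, Finset.sum_neg_distrib] at h0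
      rw [← h0]
      ring
    have i0 : Fin m := ⟨0, by omega⟩
    have hv0 : v ≠ 0 := by
      rintro rfl
      rw [toReal_zero] at hv
      have := Fintype.linearIndependent_iff.1 hlin c hv.symm i0
      exact (hc i0).ne' this
    obtain ⟨k, v', hk, hv', hkv⟩ := exists_primitive v hv0
    have hkr : (1 : ℝ) ≤ k := by exact_mod_cast hk
    have hk0 : (0 : ℝ) < k := by linarith
    have hv2 : toReal v' = ∑ i, (c i / k) • toReal (g i) := by
      have h1 : toReal v' = (k : ℝ)⁻¹ • toReal v := by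
        rw [hkv, toReal_smul, smul_smul, inv_mul_cancel₀ hk0.ne', one_smul]
      rw [h1, hv, Finset.smul_sum]
      exact Finset.sum_congr rfl fun i _ => by rw [smul_smul]; congr 1; field_simp
    have hnot : v' ∉ σ := by
      intro hmem
      by_cases hex : ∃ i, g i = v'
      · obtain ⟨i, hi⟩ := hex
        obtain ⟨i', hi'⟩ : ∃ i', i' ≠ i := by
          have : Nontrivial (Fin m) := Fin.nontrivial_iff_two_le.2 hm
          exact exists_ne i
        have h2 : ∑ l, (c l / k - if l = i then 1 else 0) • toReal (g l) = 0 := by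
          simp_rw [sub_smul, Finset.sum_sub_distrib]
          rw [← hv2]
          simp [hi]
        have h3 := Fintype.linearIndependent_iff.1 hlin _ h2 i'
        rw [if_neg hi', sub_zero] at h3
        have := div_pos (hc i') hk0
        exact this.ne' h3
      · push Not at hex
        apply T.X.fan.extremal σ hσ v' hmem
        rw [hv2]
        apply mem_coneOf_of_comb
        · intro i
          exact Finset.mem_erase.2 ⟨hex i, hg i⟩
        · intro i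
          exact (div_pos (hc i) hk0).le
    have hcone : toReal v' ∈ coneOf σ := by
      rw [hv2]
      exact mem_coneOf_of_comb hg fun i => (div_pos (hc i) hk0).le
    have h1 := hcan.logdisc σ hσ q hq v' hv' hcone hnot
    rw [← logdisc_eq T.X (fun v => T.Δ v + ∑ j, t j * T.D j v)
      (fun l => T.Δ' l + ∑ j, t j * T.D' j l) q g (fun i => hq (g i) (hg i)) v c hv, hkv,
      logdisc_smul T.X _ q v' (by omega)]
    nlinarith

theorem subset_npolytope {d s : ℕ} {Γ : Set ℝ} (T : NewtonTuple d s Γ) :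
    ⋂₀ npieces T ⊆ T.polytope := by
  intro t ht
  rw [Set.mem_sInter] at ht
  have ht0 : ∀ j, 0 ≤ t j := (ht _ (Or.inl rfl)).1
  refine ⟨ht0, ?_, ?_, ?_, ?_⟩
  · intro σ hσ
    obtain ⟨q, hq⟩ := T.canonical.cartier σ hσ
    choose p hp using fun j => T.cartier j σ hσ
    refine ⟨q - ∑ j, t j • p j, fun v hv => ?_⟩
    rw [pair_sub_sum]
    have h1 : ∀ j, pair (p j) v = T.D j v -
        ∑ l, T.D' j l * ((ordAt (T.X.supp l) v : ℤ) : ℝ) := by
      intro j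
      rw [← hp j v hv]; ring
    have h2 : pair q v = 1 - T.Δ v + ∑ l, T.Δ' l * ((ordAt (T.X.supp l) v : ℤ) : ℝ) := by
      have h0 := hq v hv
      simp only [neg_mul, Finset.sum_neg_distrib] at h0
      rw [← h0]
      ring
    simp_rw [h1]
    rw [h2]
    simp only [mul_sub, Finset.sum_sub_distrib, neg_mul, Finset.sum_neg_distrib, add_mul,
      Finset.sum_add_distrib, Finset.sum_mul, Finset.mul_sum]
    rw [Finset.sum_comm (s := (Finset.univ : Finset (Fin T.X.L)))]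
    have h3 : ∑ j, ∑ l, t j * (T.D' j l * ((ordAt (T.X.supp l) v : ℤ) : ℝ)) =
        ∑ j, ∑ l, t j * T.D' j l * ((ordAt (T.X.supp l) v : ℤ) : ℝ) :=
      Finset.sum_congr rfl fun j _ => Finset.sum_congr rfl fun l _ => by ring
    rw [h3]
    ring
  · intro hd
    refine ⟨fun v hv => ?_, fun l => ?_⟩
    · simpa using (ht _ (Or.inr (Or.inl ⟨hd, v, hv, rfl⟩))).2
    · simpa using (ht _ (Or.inr (Or.inr (Or.inl ⟨hd, l, rfl⟩)))).2
  · intro hd
    refine ⟨fun l v hv hmt => ?_, fun l l' hne hmt => ?_⟩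
    · exact (ht _ (Or.inr (Or.inr (Or.inr (Or.inl ⟨hd, l, v, hv, hmt, rfl⟩))))).2
    · exact (ht _ (Or.inr (Or.inr (Or.inr (Or.inr (Or.inl ⟨hd, l, l', hne, hmt, rfl⟩)))))).2
  · intro σ hσ q hq v hv hcone hnot
    obtain ⟨m, g, c, hmd, hg, hlin, hc, hx⟩ := exists_positive_comb σ _ hcone
    have hm2 : 2 ≤ m := by
      by_contra hlt
      have : m = 0 ∨ m = 1 := by omega
      rcases this with rfl | rfl
      · apply hv.ne_zero
        apply toReal_injective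
        rw [hx, toReal_zero]
        simp
      · rw [Fin.sum_univ_one] at hx
        have h1 : v = g 0 := hv.eq_of_smul (T.X.fan.primitive σ hσ _ (hg 0)) (hc 0) hx
        exact hnot (h1 ▸ hg 0)
    have h1 := (ht _ (Or.inr (Or.inr (Or.inr (Or.inr (Or.inr
      ⟨σ, hσ, m, hm2, hmd, g, hg, hlin, rfl⟩)))))).2 c ⟨v, hx⟩ hc
    rw [logdisc_eq T.X (fun v => T.Δ v + ∑ j, t j * T.D j v)
      (fun l => T.Δ' l + ∑ j, t j * T.D' j l) q g (fun i => hq (g i) (hg i)) v c hx]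
    exact h1

theorem npolytope_eq {d s : ℕ} {Γ : Set ℝ} (T : NewtonTuple d s Γ) :
    T.polytope = ⋂₀ npieces T :=
  Set.Subset.antisymm (npolytope_subset T) (subset_npolytope T)

/-- The ascending chain condition for canonical threshold polytopes of Newton tuples. -/
theorem acc_newton (d s : ℕ) (Γ : Set ℝ) (hΓ0 : ∀ x ∈ Γ, 0 ≤ x) (hΓ : IsDCC Γ) :
    ¬ ∃ T : ℕ → NewtonTuple d s Γ, ∀ n, (T n).polytope ⊂ (T (n + 1)).polytope := by
  rintro ⟨T, hT⟩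
  exact acc_of_pwo (nbasic_isPWO hΓ hΓ0 d s) (fun n => npieces (T n))
    (fun n => npieces_subset (T n)) (fun n => (T n).polytope) (fun n => npolytope_eq (T n)) hT

end Pool.Agent.CTP
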