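import Pool.Agent.CTP.HDef
import Pool.Agent.CTP.NPoly

/-!
# The polytope of a hypersurface tuple is an intersection of basic pieces

The main point is `trop_suffices`: on a simplicial cone on whose relative interior the
equation `f_0` has order bigger than the linear interpolation from the generators, the condition
at the lattice points of the tropical hypersurface of `f_0` implies the condition at all the
lattice points (a combinatorial form of inversion of adjunction).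
-/

namespace Pool.Agent.CTP

theorem dot_add {d : ℕ} (u v w : Fin d → ℤ) : dot u (v + w) = dot u v + dot u w := by
  simp [dot, mul_add, Finset.sum_add_distrib]

theorem mul_hmin_le {m : ℕ} (E : Finset (Fin m → ℕ)) (c c' : Fin m → ℝ) (κ : ℝ) (hκ : 0 ≤ κ)
    (h : ∀ i, κ * c i ≤ c' i) : κ * hmin E c ≤ hmin E c' := by
  by_cases hE : E.Nonempty
  · obtain ⟨μ, hμ, h1⟩ := exists_hmin_eq hE c'
    rw [h1]
    calc κ * hmin E c ≤ κ * ∑ i, (μ i : ℝ) * c i := mul_le_mul_of_nonneg_left (hmin_le hμ c) hκ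
      _ = ∑ i, (μ i : ℝ) * (κ * c i) := by
        rw [Finset.mul_sum]; exact Finset.sum_congr rfl fun i _ => by ring
      _ ≤ _ := Finset.sum_le_sum fun i _ => mul_le_mul_of_nonneg_left (h i) (Nat.cast_nonneg _)
  · simp [hmin, hE]

/-- A combinatorial form of inversion of adjunction. -/
theorem trop_suffices {m n L : ℕ} (g : Fin m → (Fin n → ℤ)) (A : Finset (Fin n → ℤ))
    (hA : A.Nonempty) (hnone : ¬ ∃ u ∈ A, ∀ i, dot u (g i) = ordAt A (g i))
    (a : Fin m → ℝ) (ha : ∀ i, a i ≤ 1) (η : Fin L → ℝ) (hη : ∀ l, 0 ≤ η l)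
    (E : Fin L → Finset (Fin m → ℕ))
    (htrop : ∀ (c : Fin m → ℝ) (v : Fin n → ℤ), toReal v = ∑ i, c i • toReal (g i) →
      (∀ i, 0 < c i) → Trop A v →
      1 ≤ ∑ i, c i * a i - hmin (relExp A g) c - ∑ l, η l * hmin (E l) c)
    (c : Fin m → ℝ) (v : Fin n → ℤ) (hv : toReal v = ∑ i, c i • toReal (g i))
    (hc : ∀ i, 0 < c i) :
    1 ≤ ∑ i, c i * a i - hmin (relExp A g) c - ∑ l, η l * hmin (E l) c := by
  classical
  by_cases ht : Trop A v
  · exact htrop c v hv hc ht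
  obtain ⟨u₀, hu₀, hmin₀⟩ := exists_ordAt_eq hA v
  push Not at hnone
  obtain ⟨i, hi⟩ := hnone u₀ hu₀
  have hi' : ordAt A (g i) < dot u₀ (g i) := lt_of_le_of_ne (ordAt_le hu₀ _) (Ne.symm hi)
  -- the candidates
  set B : Finset (Fin n → ℤ) := A.filter fun u => dot u (g i) < dot u₀ (g i) with hB
  have hBne : B.Nonempty := by
    obtain ⟨u, hu, h1⟩ := exists_ordAt_eq hA (g i)
    exact ⟨u, Finset.mem_filter.2 ⟨hu, by rw [← h1]; exact hi'⟩⟩
  obtain ⟨u₁, hu₁, hmin₁⟩ := Finset.exists_min_image B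
    (fun u => ((dot u v - dot u₀ v : ℤ) : ℝ) / ((dot u₀ (g i) - dot u (g i) : ℤ) : ℝ)) hBne
  obtain ⟨hu₁A, hu₁B⟩ := Finset.mem_filter.1 hu₁
  have hne : u₁ ≠ u₀ := by
    rintro rfl
    exact lt_irrefl _ hu₁B
  -- gaps
  have hgap : ∀ u ∈ A, u ≠ u₀ → 1 ≤ dot u v - dot u₀ v := by
    intro u hu hne'
    have h1 : dot u₀ v ≤ dot u v := by rw [← hmin₀]; exact ordAt_le hu v
    have h2 : dot u v ≠ dot u₀ v := by
      intro h3
      exact ht ⟨u, hu, u₀, hu₀, hne', by rw [hmin₀]; exact h3, hmin₀.symm⟩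
    omega
  set κ : ℤ := dot u₀ (g i) - dot u₁ (g i) with hκ
  set γ : ℤ := dot u₁ v - dot u₀ v with hγ
  have hκ1 : 1 ≤ κ := by omega
  have hγ1 : 1 ≤ γ := hgap u₁ hu₁A hne
  have hκr : (1 : ℝ) ≤ κ := by exact_mod_cast hκ1
  have hγr : (1 : ℝ) ≤ γ := by exact_mod_cast hγ1
  -- the crossing point
  set w : Fin n → ℤ := κ • v + γ • g i with hw
  have hdw : ∀ u, dot u w = κ * dot u v + γ * dot u (g i) := by
    intro u
    rw [hw, dot_add, dot_smul, dot_smul]
  have hle : ∀ u ∈ A, dot u₀ w ≤ dot u w := by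
    intro u hu
    rw [hdw, hdw]
    by_cases huB : u ∈ B
    · have h1 := hmin₁ u huB
      have hlt := (Finset.mem_filter.1 huB).2
      have hk2 : (0 : ℝ) < ((dot u₀ (g i) - dot u (g i) : ℤ) : ℝ) := by
        exact_mod_cast (by omega : (0 : ℤ) < dot u₀ (g i) - dot u (g i))
      have hk1 : (0 : ℝ) < ((κ : ℤ) : ℝ) := by linarith
      have h1' : ((γ : ℤ) : ℝ) / ((κ : ℤ) : ℝ) ≤
          ((dot u v - dot u₀ v : ℤ) : ℝ) / ((dot u₀ (g i) - dot u (g i) : ℤ) : ℝ) := h1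
      rw [div_le_div_iff₀ hk1 hk2] at h1'
      have h2 : γ * (dot u₀ (g i) - dot u (g i)) ≤ (dot u v - dot u₀ v) * κ := by
        exact_mod_cast h1'
      nlinarith
    · have hge : dot u₀ (g i) ≤ dot u (g i) := by
        by_contra hlt
        push Not at hlt
        exact huB (Finset.mem_filter.2 ⟨hu, hlt⟩)
      have h1 : dot u₀ v ≤ dot u v := by rw [← hmin₀]; exact ordAt_le hu v
      nlinarith
  have heq : dot u₁ w = dot u₀ w := by
    rw [hdw, hdw, hκ, hγ]; ring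
  have hord : ordAt A w = dot u₀ w := by
    apply le_antisymm (ordAt_le hu₀ w)
    obtain ⟨u, hu, h1⟩ := exists_ordAt_eq hA w
    rw [h1]
    exact hle u hu
  have htw : Trop A w := ⟨u₁, hu₁A, u₀, hu₀, hne, by rw [hord]; exact heq, by rw [hord]; rfl⟩
  set c' : Fin m → ℝ := fun j => κ * c j + (if j = i then (γ : ℝ) else 0) with hc'
  have hc'pos : ∀ j, 0 < c' j := by
    intro j
    have : 0 < (κ : ℝ) * c j := mul_pos (by linarith) (hc j)
    simp only [hc']
    split_ifs <;> linarith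
  have hvw : toReal w = ∑ j, c' j • toReal (g j) := by
    have h1 : toReal w = (κ : ℝ) • toReal v + (γ : ℝ) • toReal (g i) := by
      rw [← toReal_smul, ← toReal_smul]
      ext j
      simp [hw, toReal]
    rw [h1, hv, Finset.smul_sum]
    simp only [hc', add_smul, Finset.sum_add_distrib, ite_smul, zero_smul,
      Finset.sum_ite_eq', Finset.mem_univ, if_true, smul_smul]
  have hmain := htrop c' w hvw hc'pos htw
  -- compare the values
  have hsum : ∑ j, c' j * a j = κ * ∑ j, c j * a j + γ * a i := by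
    simp only [hc', add_mul, Finset.sum_add_distrib, ite_mul, zero_mul, Finset.sum_ite_eq',
      Finset.mem_univ, if_true, Finset.mul_sum]
    congr 1
    exact Finset.sum_congr rfl fun j _ => by ring
  have hh0 : hmin (relExp A g) c = ((dot u₀ v : ℤ) : ℝ) -
      ∑ j, c j * ((ordAt A (g j) : ℤ) : ℝ) := by
    have := ordAt_comb hA v g c hv
    rw [hmin₀] at this
    linarith
  have hh1 : hmin (relExp A g) c' = κ * hmin (relExp A g) c +
      γ * (((dot u₀ (g i) : ℤ) : ℝ) - ((ordAt A (g i) : ℤ) : ℝ)) := by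
    have h1 := ordAt_comb hA w g c' hvw
    rw [hord, hdw] at h1
    have h2 : ∑ j, c' j * ((ordAt A (g j) : ℤ) : ℝ) =
        κ * ∑ j, c j * ((ordAt A (g j) : ℤ) : ℝ) + γ * ((ordAt A (g i) : ℤ) : ℝ) := by
      simp only [hc', add_mul, Finset.sum_add_distrib, ite_mul, zero_mul, Finset.sum_ite_eq',
        Finset.mem_univ, if_true, Finset.mul_sum]
      congr 1
      exact Finset.sum_congr rfl fun j _ => by ring
    rw [h2] at h1
    push_cast at h1
    rw [hh0]
    linarith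
  have hH : κ * ∑ l, η l * hmin (E l) c ≤ ∑ l, η l * hmin (E l) c' := by
    rw [Finset.mul_sum]
    refine Finset.sum_le_sum fun l _ => ?_
    have h1 : (κ : ℝ) * hmin (E l) c ≤ hmin (E l) c' := by
      apply mul_hmin_le _ _ _ _ (by linarith)
      intro j
      simp only [hc']
      split_ifs <;> linarith
    calc (κ : ℝ) * (η l * hmin (E l) c) = η l * (κ * hmin (E l) c) := by ring
      _ ≤ _ := mul_le_mul_of_nonneg_left h1 (hη l)
  -- the multiplicity is at least `κ`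
  have hmu : (κ : ℝ) ≤ ((dot u₀ (g i) : ℤ) : ℝ) - ((ordAt A (g i) : ℤ) : ℝ) := by
    have h1 : ordAt A (g i) ≤ dot u₁ (g i) := ordAt_le hu₁A _
    have h2 : κ ≤ dot u₀ (g i) - ordAt A (g i) := by omega
    exact_mod_cast h2
  rw [hsum, hh1] at hmain
  set M : ℝ := ((dot u₀ (g i) : ℤ) : ℝ) - ((ordAt A (g i) : ℤ) : ℝ) with hM
  set F : ℝ := ∑ i, c i * a i - hmin (relExp A g) c - ∑ l, η l * hmin (E l) c with hF
  have h1 : 1 ≤ κ * F + γ * (a i - M) := by
    have : κ * F + γ * (a i - M) = κ * ∑ j, c j * a j + γ * a i -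
        (κ * hmin (relExp A g) c + γ * M) - κ * ∑ l, η l * hmin (E l) c := by
      rw [hF]; ring
    rw [this]
    linarith
  have h2 : a i - M ≤ 1 - κ := by linarith [ha i]
  have h3 : (γ : ℝ) * (a i - M) ≤ γ * (1 - κ) := mul_le_mul_of_nonneg_left h2 (by linarith)
  have h4 : (γ : ℝ) * (1 - κ) ≤ 1 * (1 - κ) := mul_le_mul_of_nonpos_right hγr (by linarith)
  have h5 : (κ : ℝ) * 1 ≤ κ * F := by linarith
  exact le_of_mul_le_mul_left h5 (by linarith)

/-- the toric variety `Z` with `X` as a further hypersurface -/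
def HyperFan.toNewton {n : ℕ} (X : HyperFan n) : NewtonFan n where
  fan := X.fan
  L := X.L + 1
  supp := Fin.cons X.eq X.supp
  supp_nonempty := by
    intro l
    refine Fin.cases ?_ ?_ l
    · have h1 : X.eq.Nonempty := Finset.card_pos.1 (by have := X.eq_two; omega)
      simpa using h1
    · intro l
      simpa using X.supp_nonempty l
  meetsRay := fun _ _ => False
  meets := fun _ _ => False

theorem HyperFan.eq_nonempty {n : ℕ} (X : HyperFan n) : X.eq.Nonempty :=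
  Finset.card_pos.1 (by have := X.eq_two; omega)

theorem toNewton_expr {n : ℕ} (X : HyperFan n) (b : Fin X.L → ℝ) (q : Fin n → ℝ)
    (v : Fin n → ℤ) :
    pair q v - ∑ l, (Fin.cons 1 b : Fin (X.L + 1) → ℝ) l *
      ((ordAt (X.toNewton.supp l) v : ℤ) : ℝ) =
    pair q v - ordAt X.eq v - ∑ l, b l * ((ordAt (X.supp l) v : ℤ) : ℝ) := by
  have h : ∑ l, (Fin.cons 1 b : Fin (X.L + 1) → ℝ) l *
      ((ordAt (X.toNewton.supp l) v : ℤ) : ℝ) =
      ordAt X.eq v + ∑ l, b l * ((ordAt (X.supp l) v : ℤ) : ℝ) := by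
    change ∑ l : Fin (X.L + 1), (Fin.cons 1 b : Fin (X.L + 1) → ℝ) l *
      ((ordAt ((Fin.cons X.eq X.supp : Fin (X.L + 1) → Finset (Fin n → ℤ)) l) v : ℤ) : ℝ) = _
    rw [Fin.sum_univ_succ]
    simp
  rw [h]; ring

theorem toNewton_fval {n m : ℕ} (X : HyperFan n) (b : Fin X.L → ℝ) (a : Fin m → ℝ)
    (g : Fin m → (Fin n → ℤ)) (c : Fin m → ℝ) :
    fval a (Fin.cons 1 b : Fin (X.L + 1) → ℝ) (fun l => relExp (X.toNewton.supp l) g) c =
    ∑ i, c i * a i - hmin (relExp X.eq g) c - ∑ l, b l * hmin (relExp (X.supp l) g) c := by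
  unfold fval
  have h : ∑ l, (Fin.cons 1 b : Fin (X.L + 1) → ℝ) l *
      hmin (relExp (X.toNewton.supp l) g) c =
      hmin (relExp X.eq g) c + ∑ l, b l * hmin (relExp (X.supp l) g) c := by
    change ∑ l : Fin (X.L + 1), (Fin.cons 1 b : Fin (X.L + 1) → ℝ) l *
      hmin (relExp ((Fin.cons X.eq X.supp : Fin (X.L + 1) → Finset (Fin n → ℤ)) l) g) c = _
    rw [Fin.sum_univ_succ]
    simp
  rw [h]; ring

theorem cons_coeff {s L : ℕ} (t : Fin s → ℝ) (ε : Fin L → ℝ) (γ : Fin s → Fin L → ℝ) :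
    (fun l => (Fin.cons 1 ε : Fin (L + 1) → ℝ) l +
      ∑ j, t j * (Fin.cons 0 (γ j) : Fin (L + 1) → ℝ) l) =
    (Fin.cons 1 (fun l => ε l + ∑ j, t j * γ j l) : Fin (L + 1) → ℝ) := by
  ext l
  refine Fin.cases ?_ ?_ l
  · simp
  · intro l
    simp

theorem isDCC_insert {Γ : Set ℝ} (hΓ : IsDCC Γ) (x : ℝ) : IsDCC (insert x Γ) := by
  have h1 : Γ.IsWF := by
    rw [Set.isWF_iff_no_descending_seq]
    intro f hf hmem
    exact hΓ ⟨f, hf, hmem⟩
  have h2 := h1.insert x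
  rw [Set.isWF_iff_no_descending_seq] at h2
  rintro ⟨f, hf, hmem⟩
  exact h2 f hf hmem

/-- The pieces which occur: no exponent, or at least two exponents of `f_0`, are minimal at all
the generators. -/
def Relevant {m n : ℕ} (A : Finset (Fin n → ℤ)) (g : Fin m → (Fin n → ℤ)) : Prop :=
  (∃ u ∈ A, ∀ i, dot u (g i) = ordAt A (g i)) →
    ∃ u ∈ A, ∃ u' ∈ A, u ≠ u' ∧ (∀ i, dot u (g i) = ordAt A (g i)) ∧
      ∀ i, dot u' (g i) = ordAt A (g i)

theorem dot_eq_ordAt_iff {m n : ℕ} {A : Finset (Fin n → ℤ)} (hA : A.Nonempty) (v : Fin n → ℤ)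
    (g : Fin m → (Fin n → ℤ)) (c : Fin m → ℝ) (hc : ∀ i, 0 < c i)
    (hv : toReal v = ∑ i, c i • toReal (g i)) {u₀ : Fin n → ℤ} (hu₀ : u₀ ∈ A)
    (h₀ : ∀ i, dot u₀ (g i) = ordAt A (g i)) {u : Fin n → ℤ} (hu : u ∈ A) :
    dot u v = ordAt A v ↔ ∀ i, dot u (g i) = ordAt A (g i) := by
  have hord : ordAt A v = dot u₀ v := by
    apply le_antisymm (ordAt_le hu₀ v)
    obtain ⟨w, hw, h1⟩ := exists_ordAt_eq hA v
    rw [h1]
    have h2 : ((dot u₀ v : ℤ) : ℝ) ≤ ((dot w v : ℤ) : ℝ) := by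
      rw [dot_comb u₀ v g c hv, dot_comb w v g c hv]
      refine Finset.sum_le_sum fun i _ => mul_le_mul_of_nonneg_left ?_ (hc i).le
      rw [h₀ i]
      exact_mod_cast ordAt_le hw _
    exact_mod_cast h2
  constructor
  · intro h i
    by_contra hne
    have hlt : ordAt A (g i) < dot u (g i) := lt_of_le_of_ne (ordAt_le hu _) (Ne.symm hne)
    have h2 : ((dot u₀ v : ℤ) : ℝ) < ((dot u v : ℤ) : ℝ) := by
      rw [dot_comb u₀ v g c hv, dot_comb u v g c hv]
      refine Finset.sum_lt_sum (fun j _ => mul_le_mul_of_nonneg_left ?_ (hc j).le)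
        ⟨i, Finset.mem_univ i, mul_lt_mul_of_pos_left ?_ (hc i)⟩
      · rw [h₀ j]
        exact_mod_cast ordAt_le hu _
      · rw [h₀ i]
        exact_mod_cast hlt
    rw [h, hord] at h2
    exact lt_irrefl _ h2
  · intro h
    have h2 : ((dot u v : ℤ) : ℝ) = ((dot u₀ v : ℤ) : ℝ) := by
      rw [dot_comb u₀ v g c hv, dot_comb u v g c hv]
      exact Finset.sum_congr rfl fun i _ => by rw [h i, h₀ i]
    rw [hord]
    exact_mod_cast h2

theorem trop_smul_iff {n : ℕ} {A : Finset (Fin n → ℤ)} (hA : A.Nonempty) (v : Fin n → ℤ) {k : ℤ}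
    (hk : 1 ≤ k) : Trop A (k • v) ↔ Trop A v := by
  have h1 : ∀ u : Fin n → ℤ, dot u (k • v) = ordAt A (k • v) ↔ dot u v = ordAt A v := by
    intro u
    rw [dot_smul, ordAt_smul hA v (by omega)]
    exact mul_right_inj' (by omega)
  constructor
  · rintro ⟨u, hu, u', hu', hne, h2, h3⟩
    exact ⟨u, hu, u', hu', hne, (h1 u).1 h2, (h1 u').1 h3⟩
  · rintro ⟨u, hu, u', hu', hne, h2, h3⟩
    exact ⟨u, hu, u', hu', hne, (h1 u).2 h2, (h1 u').2 h3⟩

/-- the family of basic pieces of a tuple -/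
def hpieces {d s : ℕ} {Γ : Set ℝ} (T : HyperTuple d s Γ) : Set (Set (Fin s → ℝ)) :=
  {A | A = raySet2 0 0 0 0 ∨
    (3 ≤ d + 1 ∧ ∃ v ∈ T.X.fan.rays, Trop T.X.eq v ∧
      A = raySet2 (T.Δ v) 0 (fun j => T.D j v) 0) ∨
    (3 ≤ d + 1 ∧ ∃ l, A = raySet2 0 (T.Δ' l) 0 (fun j => T.D' j l)) ∨
    (3 ≤ d + 1 ∧ ∃ l, ∃ v ∈ T.X.fan.rays, T.X.meetsRay l v ∧
      A = raySet2 (T.Δ v) (T.Δ' l) (fun j => T.D j v) (fun j => T.D' j l)) ∨
    (3 ≤ d + 1 ∧ ∃ l l', l ≠ l' ∧ T.X.meets l l' ∧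
      A = raySet2 (T.Δ' l) (T.Δ' l') (fun j => T.D' j l) (fun j => T.D' j l')) ∨
    ∃ σ ∈ T.X.fan.cones, ∃ m : ℕ, 2 ≤ m ∧ m ≤ d + 1 ∧ ∃ g : Fin m → (Fin (d + 1) → ℤ),
      (∀ i, g i ∈ σ) ∧ LinearIndependent ℝ (fun i => toReal (g i)) ∧ Relevant T.X.eq g ∧
      A = natom (coordGroup g) (fun i => T.Δ (g i)) (fun j i => T.D j (g i))
        (Fin.cons 1 T.Δ') (fun j => Fin.cons 0 (T.D' j))
        (fun l => relExp (T.X.toNewton.supp l) g)}

theorem or_insert {Γ : Set ℝ} {x : ℝ} (h : x = 0 ∨ x ∈ Γ) : x = 0 ∨ x ∈ insert 1 Γ := by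
  rcases h with h | h
  · exact Or.inl h
  · exact Or.inr (Or.inr h)

theorem hpieces_subset {d s : ℕ} {Γ : Set ℝ} (T : HyperTuple d s Γ) :
    hpieces T ⊆ NBasic (d + 1) s (insert 1 Γ) := by
  rintro A (rfl | ⟨-, v, hv, -, rfl⟩ | ⟨-, l, rfl⟩ | ⟨-, l, v, hv, -, rfl⟩ |
    ⟨-, l, l', -, -, rfl⟩ | ⟨σ, hσ, m, -, hm, g, hg, hlin, -, rfl⟩)
  · exact Or.inl ⟨0, 0, 0, 0, Or.inl rfl, Or.inl rfl, fun _ => Or.inl rfl,
      fun _ => Or.inl rfl, rfl⟩
  · exact Or.inl ⟨_, _, _, _, or_insert (T.Δ_mem v hv), Or.inl rfl,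
      fun j => or_insert (T.D_mem j v hv), fun _ => Or.inl rfl, rfl⟩
  · exact Or.inl ⟨_, _, _, _, Or.inl rfl, or_insert (T.Δ'_mem l), fun _ => Or.inl rfl,
      fun j => or_insert (T.D'_mem j l), rfl⟩
  · exact Or.inl ⟨_, _, _, _, or_insert (T.Δ_mem v hv), or_insert (T.Δ'_mem l),
      fun j => or_insert (T.D_mem j v hv), fun j => or_insert (T.D'_mem j l), rfl⟩
  · exact Or.inl ⟨_, _, _, _, or_insert (T.Δ'_mem l), or_insert (T.Δ'_mem l'),
      fun j => or_insert (T.D'_mem j l), fun j => or_insert (T.D'_mem j l'), rfl⟩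
  · refine Or.inr ⟨m, hm, _, _, _, _, _, _, _, lat_coordGroup g hlin,
      fun i => or_insert (T.Δ_mem _ ⟨σ, hσ, hg i⟩),
      fun j i => or_insert (T.D_mem j _ ⟨σ, hσ, hg i⟩), ?_, ?_,
      fun l => relExp_nonempty (T.X.toNewton.supp_nonempty l) g,
      fun l => relExp_ann (T.X.toNewton.supp l) g, rfl⟩
    · intro l
      refine Fin.cases ?_ ?_ l
      · right; left; simp
      · intro l
        simpa using or_insert (T.Δ'_mem l)
    · intro j l
      refine Fin.cases ?_ ?_ l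
      · left; simp
      · intro l
        simpa using or_insert (T.D'_mem j l)

theorem hpolytope_subset {d s : ℕ} {Γ : Set ℝ} (hΓ0 : ∀ x ∈ Γ, 0 ≤ x) (T : HyperTuple d s Γ) :
    T.polytope ⊆ ⋂₀ hpieces T := by
  rintro t ⟨ht, hcan⟩
  rw [Set.mem_sInter]
  have hnn : ∀ x : ℝ, x = 0 ∨ x ∈ Γ → 0 ≤ x := by
    rintro x (rfl | hx)
    · exact le_refl _
    · exact hΓ0 x hx
  rintro A (rfl | ⟨hd, v, hv, hT, rfl⟩ | ⟨hd, l, rfl⟩ | ⟨hd, l, v, hv, hmt, rfl⟩ |
    ⟨hd, l, l', hne, hmt, rfl⟩ | ⟨σ, hσ, m, hm, -, g, hg, hlin, hrel, rfl⟩)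
  · exact ⟨ht, by simp⟩
  · exact ⟨ht, by simpa using (hcan.coeff hd).1 v hv hT⟩
  · exact ⟨ht, by simpa using (hcan.coeff hd).2 l⟩
  · exact ⟨ht, (hcan.codim_two hd).1 l v hv hmt⟩
  · exact ⟨ht, (hcan.codim_two hd).2 l l' hne hmt⟩
  · refine ⟨ht, ?_⟩
    rw [cons_coeff]
    obtain ⟨q, hq0⟩ := hcan.cartier σ hσ
    have hq : ∀ w ∈ σ, pair q w - ordAt T.X.eq w - ∑ l, (T.Δ' l + ∑ j, t j * T.D' j l) *
        ((ordAt (T.X.supp l) w : ℤ) : ℝ) = 1 - (T.Δ w + ∑ j, t j * T.D j w) := by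
      intro w hw
      have h0 := hq0 w hw
      simp only [neg_mul, Finset.sum_neg_distrib] at h0
      linarith
    -- the tropical points
    have htropical : ∀ (c : Fin m → ℝ) (v : Fin (d + 1) → ℤ),
        toReal v = ∑ i, c i • toReal (g i) → (∀ i, 0 < c i) → Trop T.X.eq v →
        1 ≤ ∑ i, c i * (1 - (T.Δ (g i) + ∑ j, t j * T.D j (g i))) -
          hmin (relExp T.X.eq g) c - ∑ l, (T.Δ' l + ∑ j, t j * T.D' j l) *
            hmin (relExp (T.X.supp l) g) c := by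
      intro c v hv hc hvT
      have i0 : Fin m := ⟨0, by omega⟩
      have hv0 : v ≠ 0 := by
        rintro rfl
        rw [toReal_zero] at hv
        have := Fintype.linearIndependent_iff.1 hlin c hv.symm i0
        exact (hc i0).ne' this
      obtain ⟨k, v', hk, hv', hkv⟩ := exists_primitive v hv0
      have hkr : (1 : ℝ) ≤ k := by exact_mod_cast hk
      have hk0 : (0 : ℝ) < k := by linarith
      have hv2 : toReal v' = ∑ i, (c i / k) • toReal (g i) := by
        have h1 : toReal v' = (k : ℝ)⁻¹ • toReal v := by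
          rw [hkv, toReal_smul, smul_smul, inv_mul_cancel₀ hk0.ne', one_smul]
        rw [h1, hv, Finset.smul_sum]
        exact Finset.sum_congr rfl fun i _ => by rw [smul_smul]; congr 1; field_simp
      have hnot : v' ∉ σ := by
        intro hmem
        by_cases hex : ∃ i, g i = v'
        · obtain ⟨i, hi⟩ := hex
          obtain ⟨i', hi'⟩ : ∃ i', i' ≠ i := by
            have : Nontrivial (Fin m) := Fin.nontrivial_iff_two_le.2 hm
            exact exists_ne i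
          have h2 : ∑ l, (c l / k - if l = i then 1 else 0) • toReal (g l) = 0 := by
            simp_rw [sub_smul, Finset.sum_sub_distrib]
            rw [← hv2]
            simp [hi]
          have h3 := Fintype.linearIndependent_iff.1 hlin _ h2 i'
          rw [if_neg hi', sub_zero] at h3
          have := div_pos (hc i') hk0
          exact this.ne' h3
        · push Not at hex
          apply T.X.fan.extremal σ hσ v' hmem
          rw [hv2]
          apply mem_coneOf_of_comb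
          · intro i
            exact Finset.mem_erase.2 ⟨hex i, hg i⟩
          · intro i
            exact (div_pos (hc i) hk0).le
      have hcone : toReal v' ∈ coneOf σ := by
        rw [hv2]
        exact mem_coneOf_of_comb hg fun i => (div_pos (hc i) hk0).le
      have hv'T : Trop T.X.eq v' := by
        rw [hkv] at hvT
        exact (trop_smul_iff T.X.eq_nonempty v' hk).1 hvT
      have h1 := hcan.logdisc σ hσ q hq v' hv' hcone hnot hv'T
      have h2 := logdisc_eq T.X.toNewton (fun v => T.Δ v + ∑ j, t j * T.D j v)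
        (Fin.cons 1 (fun l => T.Δ' l + ∑ j, t j * T.D' j l) : Fin (T.X.L + 1) → ℝ) q g
        (fun i => by
          have h3 := toNewton_expr T.X (fun l => T.Δ' l + ∑ j, t j * T.D' j l) q (g i)
          exact h3.trans (hq (g i) (hg i))) v c hv
      have h2' := h2.trans (toNewton_fval T.X (fun l => T.Δ' l + ∑ j, t j * T.D' j l)
        (fun i => 1 - (T.Δ (g i) + ∑ j, t j * T.D j (g i))) g c)
      have h3 := logdisc_smul T.X.toNewton
        (Fin.cons 1 (fun l => T.Δ' l + ∑ j, t j * T.D' j l) : Fin (T.X.L + 1) → ℝ) q v'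
        (k := k) (by omega)
      rw [← hkv] at h3
      rw [← h2', h3]
      have h4 := toNewton_expr T.X (fun l => T.Δ' l + ∑ j, t j * T.D' j l) q v'
      have h5 : 1 ≤ pair q v' - ∑ l, (Fin.cons 1 (fun l => T.Δ' l + ∑ j, t j * T.D' j l) :
          Fin (T.X.L + 1) → ℝ) l * ((ordAt (T.X.toNewton.supp l) v' : ℤ) : ℝ) := by
        rw [h4]; exact h1
      exact one_le_mul_of_one_le_of_one_le hkr h5
    rintro c ⟨v, hv⟩ hc
    rw [toNewton_fval T.X (fun l => T.Δ' l + ∑ j, t j * T.D' j l)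
        (fun i => 1 - (T.Δ (g i) + ∑ j, t j * T.D j (g i))) g c]
    by_cases hex : ∃ u ∈ T.X.eq, ∀ i, dot u (g i) = ordAt T.X.eq (g i)
    · obtain ⟨u, hu, u', hu', hne, h1, h2⟩ := hrel hex
      apply htropical c v hv hc
      exact ⟨u, hu, u', hu', hne,
        (dot_eq_ordAt_iff T.X.eq_nonempty v g c hc hv hu h1 hu).2 h1,
        (dot_eq_ordAt_iff T.X.eq_nonempty v g c hc hv hu h1 hu').2 h2⟩
    · refine trop_suffices g T.X.eq T.X.eq_nonempty hex _ ?_ _ ?_ _ htropical c v hv hc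
      · intro i
        have h1 : 0 ≤ T.Δ (g i) := hnn _ (T.Δ_mem _ ⟨σ, hσ, hg i⟩)
        have h2 : 0 ≤ ∑ j, t j * T.D j (g i) :=
          Finset.sum_nonneg fun j _ => mul_nonneg (ht j) (hnn _ (T.D_mem j _ ⟨σ, hσ, hg i⟩))
        linarith
      · intro l
        have h1 : 0 ≤ T.Δ' l := hnn _ (T.Δ'_mem l)
        have h2 : 0 ≤ ∑ j, t j * T.D' j l :=
          Finset.sum_nonneg fun j _ => mul_nonneg (ht j) (hnn _ (T.D'_mem j l))
        linarith

theorem subset_hpolytope {d s : ℕ} {Γ : Set ℝ} (T : HyperTuple d s Γ) :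
    ⋂₀ hpieces T ⊆ T.polytope := by
  intro t ht
  rw [Set.mem_sInter] at ht
  have ht0 : ∀ j, 0 ≤ t j := (ht _ (Or.inl rfl)).1
  refine ⟨ht0, ?_, ?_, ?_, ?_⟩
  · intro σ hσ
    obtain ⟨q, hq⟩ := T.canonical.cartier σ hσ
    choose p hp using fun j => T.cartier j σ hσ
    refine ⟨q - ∑ j, t j • p j, fun v hv => ?_⟩
    rw [pair_sub_sum]
    have h1 : ∀ j, pair (p j) v = T.D j v -
        ∑ l, T.D' j l * ((ordAt (T.X.supp l) v : ℤ) : ℝ) := by
      intro j
      rw [← hp j v hv]; ring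
    have h2 : pair q v = 1 - T.Δ v + ordAt T.X.eq v +
        ∑ l, T.Δ' l * ((ordAt (T.X.supp l) v : ℤ) : ℝ) := by
      have h0 := hq v hv
      simp only [neg_mul, Finset.sum_neg_distrib] at h0
      linarith
    simp_rw [h1]
    rw [h2]
    simp only [mul_sub, Finset.sum_sub_distrib, neg_mul, Finset.sum_neg_distrib, add_mul,
      Finset.sum_add_distrib, Finset.sum_mul, Finset.mul_sum]
    rw [Finset.sum_comm (s := (Finset.univ : Finset (Fin T.X.L)))]
    have h3 : ∑ j, ∑ l, t j * (T.D' j l * ((ordAt (T.X.supp l) v : ℤ) : ℝ)) =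
        ∑ j, ∑ l, t j * T.D' j l * ((ordAt (T.X.supp l) v : ℤ) : ℝ) :=
      Finset.sum_congr rfl fun j _ => Finset.sum_congr rfl fun l _ => by ring
    rw [h3]
    ring
  · intro hd
    refine ⟨fun v hv hT => ?_, fun l => ?_⟩
    · simpa using (ht _ (Or.inr (Or.inl ⟨hd, v, hv, hT, rfl⟩))).2
    · simpa using (ht _ (Or.inr (Or.inr (Or.inl ⟨hd, l, rfl⟩)))).2
  · intro hd
    refine ⟨fun l v hv hmt => ?_, fun l l' hne hmt => ?_⟩
    · exact (ht _ (Or.inr (Or.inr (Or.inr (Or.inl ⟨hd, l, v, hv, hmt, rfl⟩))))).2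
    · exact (ht _ (Or.inr (Or.inr (Or.inr (Or.inr (Or.inl ⟨hd, l, l', hne, hmt, rfl⟩)))))).2
  · intro σ hσ q hq v hv hcone hnot hT
    obtain ⟨m, g, c, hmd, hg, hlin, hc, hx⟩ := exists_positive_comb σ _ hcone
    have hm2 : 2 ≤ m := by
      by_contra hlt
      have : m = 0 ∨ m = 1 := by omega
      rcases this with rfl | rfl
      · apply hv.ne_zero
        apply toReal_injective
        rw [hx, toReal_zero]
        simp
      · rw [Fin.sum_univ_one] at hx
        have h1 : v = g 0 := hv.eq_of_smul (T.X.fan.primitive σ hσ _ (hg 0)) (hc 0) hx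
        exact hnot (h1 ▸ hg 0)
    have hrel : Relevant T.X.eq g := by
      rintro ⟨u₀, hu₀, h₀⟩
      obtain ⟨u, hu, u', hu', hne, h1, h2⟩ := hT
      exact ⟨u, hu, u', hu', hne,
        (dot_eq_ordAt_iff T.X.eq_nonempty v g c hc hx hu₀ h₀ hu).1 h1,
        (dot_eq_ordAt_iff T.X.eq_nonempty v g c hc hx hu₀ h₀ hu').1 h2⟩
    have h1 := (ht _ (Or.inr (Or.inr (Or.inr (Or.inr (Or.inr
      ⟨σ, hσ, m, hm2, hmd, g, hg, hlin, hrel, rfl⟩)))))).2 c ⟨v, hx⟩ hc
    rw [cons_coeff] at h1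
    have h2 := logdisc_eq T.X.toNewton (fun v => T.Δ v + ∑ j, t j * T.D j v)
      (Fin.cons 1 (fun l => T.Δ' l + ∑ j, t j * T.D' j l) : Fin (T.X.L + 1) → ℝ) q g
      (fun i => by
        have h3 := toNewton_expr T.X (fun l => T.Δ' l + ∑ j, t j * T.D' j l) q (g i)
        exact h3.trans (hq (g i) (hg i))) v c hx
    have h4 := toNewton_expr T.X (fun l => T.Δ' l + ∑ j, t j * T.D' j l) q v
    rw [← h4]
    exact h1.trans_eq h2.symm

theorem hpolytope_eq {d s : ℕ} {Γ : Set ℝ} (hΓ0 : ∀ x ∈ Γ, 0 ≤ x) (T : HyperTuple d s Γ) :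
    T.polytope = ⋂₀ hpieces T :=
  Set.Subset.antisymm (hpolytope_subset hΓ0 T) (subset_hpolytope T)

/-- The ascending chain condition for canonical threshold polytopes of hypersurface tuples. -/
theorem acc_hyper (d s : ℕ) (Γ : Set ℝ) (hΓ0 : ∀ x ∈ Γ, 0 ≤ x) (hΓ : IsDCC Γ) :
    ¬ ∃ T : ℕ → HyperTuple d s Γ, ∀ n, (T n).polytope ⊂ (T (n + 1)).polytope := by
  rintro ⟨T, hT⟩
  have h0 : ∀ x ∈ insert (1 : ℝ) Γ, 0 ≤ x := by
    rintro x (rfl | hx)
    · exact zero_le_one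
    · exact hΓ0 x hx
  exact acc_of_pwo (nbasic_isPWO (isDCC_insert hΓ 1) h0 (d + 1) s) (fun n => hpieces (T n))
    (fun n => hpieces_subset (T n)) (fun n => (T n).polytope)
    (fun n => hpolytope_eq hΓ0 (T n)) hT

end Pool.Agent.CTP
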