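import Pool.Agent.CTP.Density

/-!
# The key lemma

`key`: for every sequence `G_0, G_1, ...` of groups between `ℤ ^ m` and `ℝ ^ m` with (individual)
common denominators there are `j < k` such that for every linear form `a` and every point `c` of
`G_j` with positive coordinates there is a point `x` of `G_k` with positive coordinates and
`a(x) ≤ a(c)`. (So the convex hull of the positive points of `G_j`, plus the orthant, is contained
in that of `G_k`.)

PAPER PROOF. The case `m = 0` is trivial (`x = c = 0`; the unique point), so let `m ≥ 1`.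
Let `U` be a nonprincipal ultrafilter on `ℕ` (`Filter.hyperfilter ℕ`) and
`M = {u : Fin m → ℤ | ∀ᶠ n in U, u ∈ ann (G n)}`, an additive subgroup of `ℤ ^ m`. It is finitely
generated (`ℤ ^ m` is a Noetherian `ℤ`-module; e.g. `IsNoetherian.noetherian` for
`AddSubgroup.toIntSubmodule M`), so let `B` be a finite set of generators of `M`; we get
`∀ᶠ n in U, M ≤ ann (G n)`. Choose `j` with `M ≤ ann (G j)`. Let `D` be a common denominator
of `G j`. Choose `η > 0` with `2 η ≤ 1/D` and `2 η * ∑ i, |u i| ≤ 1` for all `u ∈ B`, and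
`ε = η / m`. Let `R` be the number of `density m ε`. As `U` is an ultrafilter, for every one of
the finitely many `u` with `|u i| ≤ R`, we have `∀ᶠ n in U, (u ∈ ann (G n) ↔ u ∈ M)`; so (using
also that `U` contains `{n | j < n}`) there is `k > j` with `M ≤ ann (G k)` and
`u ∈ ann (G k) → u ∈ M` for all `u` with all `|u i| ≤ R`.

Let `a` and `c ∈ G j`, all `c i > 0`, be given. `D c_i` is a positive integer, so `c_i ≥ 1/D`.
Let `V = {w : ∀ u ∈ M, ∑ u_i w_i = 0}`, a real subspace, and decompose `a = b + b'` with `b ∈ V`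
and `b'` orthogonal to `V` (work in `EuclideanSpace ℝ (Fin m)` and use
`Submodule.exists_add_mem_mem_orthogonal`, or any other argument).
If `b = 0` let `w = 0`, otherwise let `w = -(η / |b|) b` (`|b|` the euclidean norm), so `w ∈ V`,
`|w_i| ≤ η`, and `∑ w_i b_i = -η |b|`. Let `h = c + w`. For `u ∈ ann (G k)` with `|u_i| ≤ R` we
have `u ∈ M`, so `∑ u_i h_i = ∑ u_i c_i` is an integer since `u ∈ ann (G j)`. By `density` there
is `x ∈ G k` with `|x_i - h_i| < ε` for all `i`. So `|x_i - c_i| < η + ε ≤ 2η ≤ 1/D ≤ c_i`, hence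
`x_i > 0`. For `u ∈ B` the number `∑ u_i (x_i - c_i)` is an integer (`u ∈ ann (G k)` and
`u ∈ ann (G j)`) of absolute value `< 1` (if all `u_i = 0` trivial; otherwise
`≤ ∑ |u_i| |x_i - c_i| < 2η ∑|u_i| ≤ 1`), so it is zero. Hence `x - c ∈ V` and
`∑ (x_i - c_i) b'_i = 0`, and
`∑ x_i a_i - ∑ c_i a_i = ∑ (x_i - c_i) b_i = ∑ w_i b_i + ∑ (x_i - h_i) b_i
  ≤ -η |b| + ε ∑ |b_i| ≤ -η |b| + ε m |b| = 0`.
-/

namespace Pool.Agent.CTP

/-- orthogonal projection to the space of solutions of linear equations -/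
lemma key_proj {m : ℕ} (S : Set (Fin m → ℤ)) (a : Fin m → ℝ) :
    ∃ b : Fin m → ℝ, (∀ u ∈ S, ∑ i, (u i : ℝ) * b i = 0) ∧
      ∀ w : Fin m → ℝ, (∀ u ∈ S, ∑ i, (u i : ℝ) * w i = 0) →
        ∑ i, w i * a i = ∑ i, w i * b i := by
  let V : Submodule ℝ (EuclideanSpace ℝ (Fin m)) :=
    { carrier := {w | ∀ u ∈ S, ∑ i, (u i : ℝ) * w i = 0}
      zero_mem' := by
        intro u _
        simp
      add_mem' := by
        intro x y hx hy u hu
        have h1 := hx u hu
        have h2 := hy u hu
        simp only [PiLp.add_apply, mul_add, Finset.sum_add_distrib, h1, h2, add_zero]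
      smul_mem' := by
        intro r x hx u hu
        have h1 := hx u hu
        simp only [PiLp.smul_apply, smul_eq_mul]
        have : ∀ i, (u i : ℝ) * (r * x i) = r * ((u i : ℝ) * x i) := fun i => by ring
        simp only [this, ← Finset.mul_sum, h1, mul_zero] }
  let a' : EuclideanSpace ℝ (Fin m) := WithLp.toLp 2 a
  let b' : EuclideanSpace ℝ (Fin m) := V.starProjection a'
  refine ⟨fun i => b' i, ?_, ?_⟩
  · have hb : b' ∈ V := Submodule.starProjection_apply_mem V a'
    exact hb
  · intro w hw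
    let w' : EuclideanSpace ℝ (Fin m) := WithLp.toLp 2 w
    have hw' : w' ∈ V := by
      intro u hu
      exact hw u hu
    have h1 : inner ℝ w' (a' - b') = 0 := by
      have := Submodule.sub_starProjection_mem_orthogonal (K := V) a'
      exact (Submodule.mem_orthogonal V _).1 this w' hw'
    have h2 : ∑ i, w i * (a i - b' i) = 0 := by
      rw [PiLp.inner_apply] at h1
      rw [← h1]
      apply Finset.sum_congr rfl
      intro i _
      simp only [RCLike.inner_apply, conj_trivial, PiLp.sub_apply]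
      simp only [a', w']
      ring
    have h3 : ∑ i, w i * (a i - b' i) = ∑ i, w i * a i - ∑ i, w i * b' i := by
      rw [← Finset.sum_sub_distrib]
      exact Finset.sum_congr rfl fun i _ => by ring
    rw [h3] at h2
    linarith

lemma key_span {m : ℕ} (S : Set (Fin m → ℤ)) (w : Fin m → ℝ)
    (h : ∀ u ∈ S, ∑ i, (u i : ℝ) * w i = 0) (u : Fin m → ℤ) (hu : u ∈ Submodule.span ℤ S) :
    ∑ i, (u i : ℝ) * w i = 0 := by
  induction hu using Submodule.span_induction with
  | mem x hx => exact h x hx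
  | zero => simp
  | add x y _ _ hx hy =>
    simp only [Pi.add_apply, Int.cast_add, add_mul, Finset.sum_add_distrib, hx, hy, add_zero]
  | smul r x _ hx =>
    simp only [Pi.smul_apply, smul_eq_mul, Int.cast_mul, mul_assoc, ← Finset.mul_sum, hx, mul_zero]

theorem key {m : ℕ} (G : ℕ → AddSubgroup (Fin m → ℝ)) (hG : ∀ n, Lat (G n)) :
    ∃ j k, j < k ∧ ∀ a : Fin m → ℝ, ∀ c ∈ G j, (∀ i, 0 < c i) →
      ∃ x ∈ G k, (∀ i, 0 < x i) ∧ ∑ i, x i * a i ≤ ∑ i, c i * a i := by
  rcases Nat.eq_zero_or_pos m with hm | hm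
  · subst hm
    refine ⟨0, 1, Nat.zero_lt_one, ?_⟩
    intro a c _ _
    refine ⟨0, (G 1).zero_mem, fun i => i.elim0, ?_⟩
    simp
  have hm' : (0 : ℝ) < m := by exact_mod_cast hm
  let U : Ultrafilter ℕ := Filter.hyperfilter ℕ
  let M : AddSubgroup (Fin m → ℤ) :=
    { carrier := {u | ∀ᶠ n in (U : Filter ℕ), u ∈ ann (G n)}
      zero_mem' := Filter.Eventually.of_forall fun n => (ann (G n)).zero_mem
      add_mem' := by
        intro x y hx hy
        filter_upwards [hx, hy] with n h1 h2
        exact (ann (G n)).add_mem h1 h2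
      neg_mem' := by
        intro x hx
        filter_upwards [hx] with n h1
        exact (ann (G n)).neg_mem h1 }
  have hMdef : ∀ u, u ∈ M ↔ ∀ᶠ n in (U : Filter ℕ), u ∈ ann (G n) := fun u => Iff.rfl
  obtain ⟨S, hS⟩ := IsNoetherian.noetherian (AddSubgroup.toIntSubmodule M)
  have hSM : ∀ u ∈ S, u ∈ M := by
    intro u hu
    have : u ∈ AddSubgroup.toIntSubmodule M := by
      rw [← hS]; exact Submodule.subset_span hu
    exact this
  have hMS : ∀ u ∈ M, u ∈ Submodule.span ℤ (S : Set (Fin m → ℤ)) := by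
    intro u hu
    rw [hS]; exact hu
  have hev : ∀ᶠ n in (U : Filter ℕ), M ≤ ann (G n) := by
    have h1 : ∀ᶠ n in (U : Filter ℕ), ∀ u ∈ S, u ∈ ann (G n) := by
      rw [Filter.eventually_all_finset]
      intro u hu
      exact (hMdef u).1 (hSM u hu)
    filter_upwards [h1] with n hn
    intro u hu
    have h2 : Submodule.span ℤ (S : Set (Fin m → ℤ)) ≤ AddSubgroup.toIntSubmodule (ann (G n)) :=
      Submodule.span_le.2 hn
    exact h2 (hMS u hu)
  obtain ⟨j, hj⟩ := hev.exists
  obtain ⟨D, hD, hDc⟩ := (hG j).2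
  have hD' : (0 : ℝ) < D := by exact_mod_cast hD
  set T : ℝ := ∑ u ∈ S, ∑ i, |(u i : ℝ)| with hT
  have hT0 : 0 ≤ T := Finset.sum_nonneg fun u _ => Finset.sum_nonneg fun i _ => abs_nonneg _
  set η : ℝ := min (1 / (2 * D)) (1 / (2 * (1 + T))) with hη
  have hη0 : 0 < η := lt_min (by positivity) (by positivity)
  have hη1 : 2 * η ≤ 1 / D := by
    have h1 : η ≤ 1 / (2 * D) := min_le_left _ _
    have h2 : 2 * (1 / (2 * (D : ℝ))) = 1 / D := by field_simp
    linarith
  have hη2 : ∀ u ∈ S, (∑ i, |(u i : ℝ)|) * (2 * η) < 1 := by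
    intro u hu
    have h1 : ∑ i, |(u i : ℝ)| ≤ T := by
      rw [hT]
      exact Finset.single_le_sum (f := fun u : Fin m → ℤ => ∑ i, |(u i : ℝ)|)
        (fun v _ => Finset.sum_nonneg fun i _ => abs_nonneg _) hu
    have h2 : 2 * η ≤ 1 / (1 + T) := by
      have h3 : η ≤ 1 / (2 * (1 + T)) := min_le_right _ _
      have h4 : 2 * (1 / (2 * (1 + T))) = 1 / (1 + T) := by field_simp
      linarith
    calc (∑ i, |(u i : ℝ)|) * (2 * η) ≤ T * (1 / (1 + T)) :=
          mul_le_mul h1 h2 (by positivity) hT0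
      _ < 1 := by
          rw [mul_one_div, div_lt_one (by positivity)]
          linarith
  set ε : ℝ := η / m with hε
  have hε0 : 0 < ε := by positivity
  have hεη : ε ≤ η := by
    rw [hε]
    apply div_le_self hη0.le
    exact_mod_cast hm
  obtain ⟨R, hR⟩ := density m ε hε0
  have hk : ∀ᶠ n in (U : Filter ℕ), ∀ u : Fin m → ℤ, (∀ i, |u i| ≤ (R : ℤ)) →
      u ∈ ann (G n) → u ∈ M := by
    have h1 : ∀ᶠ n in (U : Filter ℕ), ∀ u ∈ Fintype.piFinset
        (fun _ : Fin m => Finset.Icc (-(R : ℤ)) R), u ∈ ann (G n) → u ∈ M := by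
      rw [Filter.eventually_all_finset]
      intro u _
      by_cases hu : u ∈ M
      · exact Filter.Eventually.of_forall fun n _ => hu
      · have h2 : ¬ ∀ᶠ n in (U : Filter ℕ), u ∈ ann (G n) := fun h => hu ((hMdef u).2 h)
        rw [← Ultrafilter.eventually_not] at h2
        filter_upwards [h2] with n hn h3
        exact absurd h3 hn
    filter_upwards [h1] with n hn u hu h2
    apply hn u _ h2
    rw [Fintype.mem_piFinset]
    intro i
    rw [Finset.mem_Icc]
    exact abs_le.1 (hu i)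
  have hgt : ∀ᶠ n in (U : Filter ℕ), j < n :=
    Nat.hyperfilter_le_atTop (Filter.eventually_gt_atTop j)
  obtain ⟨k, ⟨hk1, hk2⟩, hk3⟩ := ((hev.and hk).and hgt).exists
  refine ⟨j, k, hk3, ?_⟩
  intro a c hc hcpos
  have hc1 : ∀ i, 1 / (D : ℝ) ≤ c i := by
    intro i
    obtain ⟨z, hz⟩ := hDc c hc i
    have h1 : (0 : ℝ) < z := by
      rw [← hz]; exact mul_pos hD' (hcpos i)
    have h2 : (0 : ℤ) < z := by exact_mod_cast h1
    have h3 : (1 : ℝ) ≤ z := by exact_mod_cast h2
    rw [div_le_iff₀ hD']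
    linarith
  obtain ⟨b, hb1, hb2⟩ := key_proj (S : Set (Fin m → ℤ)) a
  set nb : ℝ := Real.sqrt (∑ i, b i ^ 2) with hnb
  have hnb0 : 0 ≤ nb := Real.sqrt_nonneg _
  have hsq : nb ^ 2 = ∑ i, b i ^ 2 := Real.sq_sqrt (Finset.sum_nonneg fun i _ => sq_nonneg _)
  have hbi : ∀ i, |b i| ≤ nb := by
    intro i
    rw [← Real.sqrt_sq_eq_abs]
    apply Real.sqrt_le_sqrt
    exact Finset.single_le_sum (f := fun i => b i ^ 2) (fun i _ => sq_nonneg _) (Finset.mem_univ i)
  let w : Fin m → ℝ := fun i => -(η / nb) * b i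
  have hw1 : ∀ i, |w i| ≤ η := by
    intro i
    simp only [w]
    rw [abs_mul, abs_neg, abs_of_nonneg (div_nonneg hη0.le hnb0)]
    rcases eq_or_lt_of_le hnb0 with h | h
    · rw [← h]; simp [hη0.le]
    · calc η / nb * |b i| ≤ η / nb * nb := mul_le_mul_of_nonneg_left (hbi i) (by positivity)
        _ = η := by field_simp
  have hw2 : ∀ u ∈ S, ∑ i, (u i : ℝ) * w i = 0 := by
    intro u hu
    have h1 : ∀ i, (u i : ℝ) * w i = -(η / nb) * ((u i : ℝ) * b i) := fun i => by
      simp only [w]; ring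
    simp only [h1, ← Finset.mul_sum, hb1 u hu, mul_zero]
  have hw3 : ∑ i, w i * b i = -(η * nb) := by
    have h1 : ∀ i, w i * b i = -(η / nb) * b i ^ 2 := fun i => by simp only [w]; ring
    simp only [h1, ← Finset.mul_sum, ← hsq]
    rcases eq_or_lt_of_le hnb0 with h | h
    · rw [← h]; simp
    · field_simp
  obtain ⟨x, hxG, hx⟩ := hR (G k) (hG k) (fun i => c i + w i) (by
    intro u hu huR
    have huM := hk2 u huR hu
    obtain ⟨z, hz⟩ := hj huM c hc
    refine ⟨z, ?_⟩
    have h1 := key_span (S : Set (Fin m → ℤ)) w hw2 u (hMS u huM)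
    simp only [mul_add, Finset.sum_add_distrib, h1, add_zero]
    exact hz)
  have hxc : ∀ i, |x i - c i| < 2 * η := by
    intro i
    have h1 := hx i
    have h2 : x i - c i = (x i - (c i + w i)) + w i := by ring
    rw [h2]
    calc |(x i - (c i + w i)) + w i| ≤ |x i - (c i + w i)| + |w i| := abs_add_le _ _
      _ < ε + η := add_lt_add_of_lt_of_le h1 (hw1 i)
      _ ≤ 2 * η := by linarith
  refine ⟨x, hxG, ?_, ?_⟩
  · intro i
    have h1 := (abs_lt.1 (hxc i)).1
    have h2 := hc1 i
    linarith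
  · have hzero : ∀ u ∈ S, ∑ i, (u i : ℝ) * (x i - c i) = 0 := by
      intro u hu
      have huM := hSM u hu
      obtain ⟨z1, hz1⟩ := hk1 huM x hxG
      obtain ⟨z2, hz2⟩ := hj huM c hc
      have h1 : ∑ i, (u i : ℝ) * (x i - c i) = ((z1 - z2 : ℤ) : ℝ) := by
        push_cast
        rw [← hz1, ← hz2, ← Finset.sum_sub_distrib]
        exact Finset.sum_congr rfl fun i _ => by ring
      have h2 : |∑ i, (u i : ℝ) * (x i - c i)| < 1 := by
        calc |∑ i, (u i : ℝ) * (x i - c i)| ≤ ∑ i, |(u i : ℝ) * (x i - c i)| :=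
              Finset.abs_sum_le_sum_abs _ _
          _ ≤ ∑ i, |(u i : ℝ)| * (2 * η) := by
              apply Finset.sum_le_sum
              intro i _
              rw [abs_mul]
              exact mul_le_mul_of_nonneg_left (hxc i).le (abs_nonneg _)
          _ = (∑ i, |(u i : ℝ)|) * (2 * η) := by rw [Finset.sum_mul]
          _ < 1 := hη2 u hu
      rw [h1] at h2 ⊢
      have h3 : |z1 - z2| < 1 := by exact_mod_cast h2
      have h4 : z1 - z2 = 0 := Int.abs_lt_one_iff.1 h3
      rw [h4]; simp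
    have h1 := hb2 (fun i => x i - c i) hzero
    have h2 : ∑ i, (x i - c i) * b i = ∑ i, w i * b i + ∑ i, (x i - (c i + w i)) * b i := by
      rw [← Finset.sum_add_distrib]
      exact Finset.sum_congr rfl fun i _ => by ring
    have h3 : ∑ i, (x i - (c i + w i)) * b i ≤ η * nb := by
      calc ∑ i, (x i - (c i + w i)) * b i ≤ ∑ _i : Fin m, ε * nb := by
            apply Finset.sum_le_sum
            intro i _
            calc (x i - (c i + w i)) * b i ≤ |(x i - (c i + w i)) * b i| := le_abs_self _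
              _ = |x i - (c i + w i)| * |b i| := abs_mul _ _
              _ ≤ ε * nb := mul_le_mul (hx i).le (hbi i) (abs_nonneg _) hε0.le
        _ = η * nb := by
            rw [Finset.sum_const, Finset.card_univ, Fintype.card_fin, nsmul_eq_mul, hε]
            field_simp
    have h4 : ∑ i, (x i - c i) * a i = ∑ i, x i * a i - ∑ i, c i * a i := by
      rw [← Finset.sum_sub_distrib]
      exact Finset.sum_congr rfl fun i _ => by ring
    linarith

end Pool.Agent.CTP
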