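import Pool.Agent.CTP.Key

/-!
# The key lemma, stronger form

`key2`: for every sequence `G_0, G_1, ...` of groups between `ℤ ^ m` and `ℝ ^ m` with (individual)
common denominators there is `j` such that for all `R` and `K` and all `η > 0` there is `k ≥ K`
such that for every linear form `a` and every point `c` of `G_j` there is a point `x` of `G_k`
with `|x_i - c_i| < η`, `a(x) ≤ a(c)` and `u(x) = u(c)` for all the integral linear forms `u` with
`|u_i| ≤ R` which are integral on `G_k`.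

PAPER PROOF (the same as in `Key.lean`, whose proof is on main and can be adapted).
Let `U` be the ultrafilter `Filter.hyperfilter ℕ` and
`M = {u : Fin m → ℤ | ∀ᶠ n in U, u ∈ ann (G n)}`, a finitely generated subgroup of `ℤ ^ m`; let
`B` be a finite set of generators. `∀ᶠ n in U, M ≤ ann (G n)`; choose `j` with `M ≤ ann (G j)`.
Let `R`, `K`, `η` be given. Choose `η' > 0` with `2 η' ≤ η` and `2 η' * ∑ i, |u i| ≤ 1` for all
`u ∈ B`, and `ε = η' / m` (`m = 0` is trivial: `x = c`, the unique point). Let `R'` be the number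
of `density m ε`. There is `k ≥ K` with `M ≤ ann (G k)` and `u ∈ ann (G k) → u ∈ M` for all `u`
with all `|u i| ≤ max R R'` (finitely many `u`, and `U` is an ultrafilter containing the cofinite
sets). Let `a` and `c ∈ G j` be given, `V = {w : ∀ u ∈ M, ∑ u_i w_i = 0}`, `a = b + b'` with
`b ∈ V` and `b'` orthogonal to `V`; `w = -(η' / |b|) b` (`w = 0` if `b = 0`), `h = c + w`. For
`u ∈ ann (G k)` with `|u_i| ≤ R'` we have `u ∈ M ≤ ann (G j)` and so `∑ u_i h_i = ∑ u_i c_i` is an
integer. `density` gives `x ∈ G k` with `|x_i - h_i| < ε`, so `|x_i - c_i| < η' + ε ≤ 2 η' ≤ η`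
(`|w_i| ≤ η'`). For `u ∈ B` the number `∑ u_i (x_i - c_i)` is an integer of absolute value `< 1`,
so `x - c ∈ V`; in particular `∑ u_i (x_i - c_i) = 0` for all `u ∈ M`, hence for all
`u ∈ ann (G k)` with `|u_i| ≤ R`. Finally
`∑ x_i a_i - ∑ c_i a_i = ∑ (x_i - c_i) b_i ≤ -η' |b| + ε m |b| = 0`.
-/

namespace Pool.Agent.CTP

theorem key2 {m : ℕ} (G : ℕ → AddSubgroup (Fin m → ℝ)) (hG : ∀ n, Lat (G n)) :
    ∃ j, ∀ (R K : ℕ) (η : ℝ), 0 < η → ∃ k, K ≤ k ∧ ∀ a : Fin m → ℝ, ∀ c ∈ G j,
      ∃ x ∈ G k, (∀ i, |x i - c i| < η) ∧ ∑ i, x i * a i ≤ ∑ i, c i * a i ∧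
        ∀ u ∈ ann (G k), (∀ i, |u i| ≤ (R : ℤ)) → ∑ i, (u i : ℝ) * (x i - c i) = 0 := by
  rcases Nat.eq_zero_or_pos m with hm | hm
  · subst hm
    refine ⟨0, fun R K η _ => ⟨K, le_rfl, ?_⟩⟩
    intro a c _
    refine ⟨0, (G K).zero_mem, fun i => i.elim0, ?_, ?_⟩
    · simp
    · intro u _ _
      simp
  have hm' : (0 : ℝ) < m := by exact_mod_cast hm
  let U : Ultrafilter ℕ := Filter.hyperfilter ℕ
  let M : AddSubgroup (Fin m → ℤ) :=
    { carrier := {u | ∀ᶠ n in (U : Filter ℕ), u ∈ ann (G n)}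
      zero_mem' := Filter.Eventually.of_forall fun n => (ann (G n)).zero_mem
      add_mem' := by
        intro x y hx hy
        filter_upwards [hx, hy] with n h1 h2
        exact (ann (G n)).add_mem h1 h2
      neg_mem' := by
        intro x hx
        filter_upwards [hx] with n h1
        exact (ann (G n)).neg_mem h1 }
  have hMdef : ∀ u, u ∈ M ↔ ∀ᶠ n in (U : Filter ℕ), u ∈ ann (G n) := fun u => Iff.rfl
  obtain ⟨S, hS⟩ := IsNoetherian.noetherian (AddSubgroup.toIntSubmodule M)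
  have hSM : ∀ u ∈ S, u ∈ M := by
    intro u hu
    have : u ∈ AddSubgroup.toIntSubmodule M := by
      rw [← hS]; exact Submodule.subset_span hu
    exact this
  have hMS : ∀ u ∈ M, u ∈ Submodule.span ℤ (S : Set (Fin m → ℤ)) := by
    intro u hu
    rw [hS]; exact hu
  have hev : ∀ᶠ n in (U : Filter ℕ), M ≤ ann (G n) := by
    have h1 : ∀ᶠ n in (U : Filter ℕ), ∀ u ∈ S, u ∈ ann (G n) := by
      rw [Filter.eventually_all_finset]
      intro u hu
      exact (hMdef u).1 (hSM u hu)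
    filter_upwards [h1] with n hn
    intro u hu
    have h2 : Submodule.span ℤ (S : Set (Fin m → ℤ)) ≤ AddSubgroup.toIntSubmodule (ann (G n)) :=
      Submodule.span_le.2 hn
    exact h2 (hMS u hu)
  obtain ⟨j, hj⟩ := hev.exists
  refine ⟨j, ?_⟩
  intro R0 K η0 hη0pos
  set T : ℝ := ∑ u ∈ S, ∑ i, |(u i : ℝ)| with hT
  have hT0 : 0 ≤ T := Finset.sum_nonneg fun u _ => Finset.sum_nonneg fun i _ => abs_nonneg _
  set η : ℝ := min (η0 / 2) (1 / (2 * (1 + T))) with hη
  have hη0 : 0 < η := lt_min (by positivity) (by positivity)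
  have hη1 : 2 * η ≤ η0 := by
    have h1 : η ≤ η0 / 2 := min_le_left _ _
    linarith
  have hη2 : ∀ u ∈ S, (∑ i, |(u i : ℝ)|) * (2 * η) < 1 := by
    intro u hu
    have h1 : ∑ i, |(u i : ℝ)| ≤ T := by
      rw [hT]
      exact Finset.single_le_sum (f := fun u : Fin m → ℤ => ∑ i, |(u i : ℝ)|)
        (fun v _ => Finset.sum_nonneg fun i _ => abs_nonneg _) hu
    have h2 : 2 * η ≤ 1 / (1 + T) := by
      have h3 : η ≤ 1 / (2 * (1 + T)) := min_le_right _ _
      have h4 : 2 * (1 / (2 * (1 + T))) = 1 / (1 + T) := by field_simp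
      linarith
    calc (∑ i, |(u i : ℝ)|) * (2 * η) ≤ T * (1 / (1 + T)) :=
          mul_le_mul h1 h2 (by positivity) hT0
      _ < 1 := by
          rw [mul_one_div, div_lt_one (by positivity)]
          linarith
  set ε : ℝ := η / m with hε
  have hε0 : 0 < ε := by positivity
  have hεη : ε ≤ η := by
    rw [hε]
    apply div_le_self hη0.le
    exact_mod_cast hm
  obtain ⟨R1, hR⟩ := density m ε hε0
  set R : ℕ := max R0 R1 with hRdef
  have hk : ∀ᶠ n in (U : Filter ℕ), ∀ u : Fin m → ℤ, (∀ i, |u i| ≤ (R : ℤ)) →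
      u ∈ ann (G n) → u ∈ M := by
    have h1 : ∀ᶠ n in (U : Filter ℕ), ∀ u ∈ Fintype.piFinset
        (fun _ : Fin m => Finset.Icc (-(R : ℤ)) R), u ∈ ann (G n) → u ∈ M := by
      rw [Filter.eventually_all_finset]
      intro u _
      by_cases hu : u ∈ M
      · exact Filter.Eventually.of_forall fun n _ => hu
      · have h2 : ¬ ∀ᶠ n in (U : Filter ℕ), u ∈ ann (G n) := fun h => hu ((hMdef u).2 h)
        rw [← Ultrafilter.eventually_not] at h2
        filter_upwards [h2] with n hn h3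
        exact absurd h3 hn
    filter_upwards [h1] with n hn u hu h2
    apply hn u _ h2
    rw [Fintype.mem_piFinset]
    intro i
    rw [Finset.mem_Icc]
    exact abs_le.1 (hu i)
  have hgt : ∀ᶠ n in (U : Filter ℕ), K ≤ n :=
    Nat.hyperfilter_le_atTop (Filter.eventually_ge_atTop K)
  obtain ⟨k, ⟨hk1, hk2⟩, hk3⟩ := ((hev.and hk).and hgt).exists
  have hRR1 : ∀ u : Fin m → ℤ, (∀ i, |u i| ≤ (R1 : ℤ)) → ∀ i, |u i| ≤ (R : ℤ) := by
    intro u hu i
    refine (hu i).trans ?_
    exact_mod_cast le_max_right R0 R1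
  have hRR0 : ∀ u : Fin m → ℤ, (∀ i, |u i| ≤ (R0 : ℤ)) → ∀ i, |u i| ≤ (R : ℤ) := by
    intro u hu i
    refine (hu i).trans ?_
    exact_mod_cast le_max_left R0 R1
  refine ⟨k, hk3, ?_⟩
  intro a c hc
  obtain ⟨b, hb1, hb2⟩ := key_proj (S : Set (Fin m → ℤ)) a
  set nb : ℝ := Real.sqrt (∑ i, b i ^ 2) with hnb
  have hnb0 : 0 ≤ nb := Real.sqrt_nonneg _
  have hsq : nb ^ 2 = ∑ i, b i ^ 2 := Real.sq_sqrt (Finset.sum_nonneg fun i _ => sq_nonneg _)
  have hbi : ∀ i, |b i| ≤ nb := by
    intro i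
    rw [← Real.sqrt_sq_eq_abs]
    apply Real.sqrt_le_sqrt
    exact Finset.single_le_sum (f := fun i => b i ^ 2) (fun i _ => sq_nonneg _) (Finset.mem_univ i)
  let w : Fin m → ℝ := fun i => -(η / nb) * b i
  have hw1 : ∀ i, |w i| ≤ η := by
    intro i
    simp only [w]
    rw [abs_mul, abs_neg, abs_of_nonneg (div_nonneg hη0.le hnb0)]
    rcases eq_or_lt_of_le hnb0 with h | h
    · rw [← h]; simp [hη0.le]
    · calc η / nb * |b i| ≤ η / nb * nb := mul_le_mul_of_nonneg_left (hbi i) (by positivity)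
        _ = η := by field_simp
  have hw2 : ∀ u ∈ S, ∑ i, (u i : ℝ) * w i = 0 := by
    intro u hu
    have h1 : ∀ i, (u i : ℝ) * w i = -(η / nb) * ((u i : ℝ) * b i) := fun i => by
      simp only [w]; ring
    simp only [h1, ← Finset.mul_sum, hb1 u hu, mul_zero]
  have hw3 : ∑ i, w i * b i = -(η * nb) := by
    have h1 : ∀ i, w i * b i = -(η / nb) * b i ^ 2 := fun i => by simp only [w]; ring
    simp only [h1, ← Finset.mul_sum, ← hsq]
    rcases eq_or_lt_of_le hnb0 with h | h
    · rw [← h]; simp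
    · field_simp
  obtain ⟨x, hxG, hx⟩ := hR (G k) (hG k) (fun i => c i + w i) (by
    intro u hu huR
    have huM := hk2 u (hRR1 u huR) hu
    obtain ⟨z, hz⟩ := hj huM c hc
    refine ⟨z, ?_⟩
    have h1 := key_span (S : Set (Fin m → ℤ)) w hw2 u (hMS u huM)
    simp only [mul_add, Finset.sum_add_distrib, h1, add_zero]
    exact hz)
  have hxc : ∀ i, |x i - c i| < 2 * η := by
    intro i
    have h1 := hx i
    have h2 : x i - c i = (x i - (c i + w i)) + w i := by ring
    rw [h2]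
    calc |(x i - (c i + w i)) + w i| ≤ |x i - (c i + w i)| + |w i| := abs_add_le _ _
      _ < ε + η := add_lt_add_of_lt_of_le h1 (hw1 i)
      _ ≤ 2 * η := by linarith
  have hzero : ∀ u ∈ S, ∑ i, (u i : ℝ) * (x i - c i) = 0 := by
    intro u hu
    have huM := hSM u hu
    obtain ⟨z1, hz1⟩ := hk1 huM x hxG
    obtain ⟨z2, hz2⟩ := hj huM c hc
    have h1 : ∑ i, (u i : ℝ) * (x i - c i) = ((z1 - z2 : ℤ) : ℝ) := by
      push_cast
      rw [← hz1, ← hz2, ← Finset.sum_sub_distrib]
      exact Finset.sum_congr rfl fun i _ => by ring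
    have h2 : |∑ i, (u i : ℝ) * (x i - c i)| < 1 := by
      calc |∑ i, (u i : ℝ) * (x i - c i)| ≤ ∑ i, |(u i : ℝ) * (x i - c i)| :=
            Finset.abs_sum_le_sum_abs _ _
        _ ≤ ∑ i, |(u i : ℝ)| * (2 * η) := by
            apply Finset.sum_le_sum
            intro i _
            rw [abs_mul]
            exact mul_le_mul_of_nonneg_left (hxc i).le (abs_nonneg _)
        _ = (∑ i, |(u i : ℝ)|) * (2 * η) := by rw [Finset.sum_mul]
        _ < 1 := hη2 u hu
    rw [h1] at h2 ⊢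
    have h3 : |z1 - z2| < 1 := by exact_mod_cast h2
    have h4 : z1 - z2 = 0 := Int.abs_lt_one_iff.1 h3
    rw [h4]; simp
  refine ⟨x, hxG, ?_, ?_, ?_⟩
  · intro i
    exact lt_of_lt_of_le (hxc i) hη1
  · have h1 := hb2 (fun i => x i - c i) hzero
    have h2 : ∑ i, (x i - c i) * b i = ∑ i, w i * b i + ∑ i, (x i - (c i + w i)) * b i := by
      rw [← Finset.sum_add_distrib]
      exact Finset.sum_congr rfl fun i _ => by ring
    have h3 : ∑ i, (x i - (c i + w i)) * b i ≤ η * nb := by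
      calc ∑ i, (x i - (c i + w i)) * b i ≤ ∑ _i : Fin m, ε * nb := by
            apply Finset.sum_le_sum
            intro i _
            calc (x i - (c i + w i)) * b i ≤ |(x i - (c i + w i)) * b i| := le_abs_self _
              _ = |x i - (c i + w i)| * |b i| := abs_mul _ _
              _ ≤ ε * nb := mul_le_mul (hx i).le (hbi i) (abs_nonneg _) hε0.le
        _ = η * nb := by
            rw [Finset.sum_const, Finset.card_univ, Fintype.card_fin, nsmul_eq_mul, hε]
            field_simp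
    have h4 : ∑ i, (x i - c i) * a i = ∑ i, x i * a i - ∑ i, c i * a i := by
      rw [← Finset.sum_sub_distrib]
      exact Finset.sum_congr rfl fun i _ => by ring
    linarith
  · intro u hu huR
    have huM := hk2 u (hRR0 u huR) hu
    exact key_span (S : Set (Fin m → ℤ)) (fun i => x i - c i) hzero u (hMS u huM)

end Pool.Agent.CTP
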