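import Pool.Agent.CTP.Chain
import Pool.Agent.CTP.Key2
import Pool.Agent.CTP.FinDet

/-!
# The pieces are well-quasi-ordered under reverse inclusion

PAPER PROOF of `natoms_pwo`. By `exists_chain` (and replacing the sequence by the subsequence) we
may assume that all `δ n i`, `D n j i` are nondecreasing in `n` and that there are injective maps
`ι_n : Fin (L n) → Fin (L (n+1))` with `ε n l ≤ ε (n+1) (ι_n l)`, `γ n j l ≤ γ (n+1) j (ι_n l)`
and `Dom (E n l) (E (n+1) (ι_n l))`. For `j ≤ k` let `ι_{jk} : Fin (L j) → Fin (L k)` be the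
composition; the same three statements and injectivity hold for it (`Dom` is reflexive and
transitive). (It may be convenient to construct, for fixed `j`, the sequence
`p l n : Fin (L (j + n))`, `p l 0 = l`, `p l (n+1) = ι (p l n)`.)

Let `j` be the number of `key2` for the sequence `G`. Write `η_l(t) = ε j l + ∑ i, t i * γ j i l`,
`H_l = hmin (E j l)` and, for `k ≥ j`, `E^k_l = E k (ι_{jk} l)`, `H^k_l = hmin E^k_l`. Let `D` be a
common denominator of `G j` and let `C` be the finite set of `exists_finite_test` for `G j`,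
`E j`; let `X ≥ 1` be such that `c i + 1 ≤ X` for all `c ∈ C`. For `c ∈ C` (indeed for every
positive `c ∈ G j`) all `c i ≥ 1/D`. Let `η₀ = 1/(2D)`.
Let `I₁` be the set of the `l : Fin (L j)` for which there is `ν_l : Fin m → ℕ` such that for all
`k ≥ j` some `μ ∈ E^k_l` has `μ ≤ ν_l`, and `I₂` its complement. For `l ∈ I₁` let
`S_l = X * ∑ i, ν_l i`, and choose `R` with `R ≥ 2 D S_l` for all `l ∈ I₁`. For `l ∈ I₂` and every
number `T` there is `K` such that for `k ≥ K` no `μ ∈ E^k_l` is `≤ (T, ..., T)` (this holds for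
one `k`, hence for all the later ones because `Dom` is transitive), i.e. every `μ ∈ E^k_l` has a
coordinate `> T`; choose `T` with `T/(2D) ≥ H_l c` for all `c ∈ C`, `l ∈ I₂`, and let `K > j` be
good for all `l ∈ I₂`. Let `k ≥ K` be the number which `key2` gives for `R`, `K`, `η₀`.

Let `t` be in the piece of `k`; we show that it is in the piece of `j`. `t ≥ 0` is clear. Let
`a_k i = 1 - (δ k i + ∑ t D k)`, so `a_k ≤ a_j`, and `η^k` the analogous weights; all weights are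
`≥ 0` as `Γ` consists of numbers `≥ 0`, and `η_l ≤ η^k_{ι_{jk} l}`.
(1) For every `x` with all `x i ≥ 0` we have
`fval a_k η^k (E k) x ≤ ∑ x i a_k i - ∑ l, η_l * H^k_l x ≤ fval a_j η (E j) x`: drop the indices
of `Fin (L k)` which are not in the range of `ι_{jk}` (`hmin_nonneg`), use `η_l ≤ η^k_{ι l}` and
then `H_l x ≤ H^k_l x` (`hmin_mono_of_dom`) and `a_k ≤ a_j`.
(2) By (1) for positive integral vectors (which lie in `G k`) and `fval_nonneg`, `fval a_j η (E j)`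
is `≥ 0` at the nonnegative points of `G j`. So by `exists_finite_test` it remains to show
`fval a_j η (E j) c ≥ 1` for `c ∈ C`.
(3) Let `c ∈ C`. For `l ∈ I₁` let `μ_l ∈ E^k_l` with `H^k_l c = ⟨μ_l, c⟩` (`exists_hmin_eq`). Let
`b = a_k - ∑_{l ∈ I₁} η_l μ_l`. `key2` gives `x ∈ G k` with `|x_i - c_i| < η₀ = 1/(2D)`,
`⟨x - c, b⟩ ≤ 0` and `⟨u, x - c⟩ = 0` for all `u ∈ ann (G k)` with `|u_i| ≤ R`. So
`1/(2D) < x_i ≤ X`. Let `l ∈ I₁`: some `μ ∈ E^k_l` is `≤ ν_l`, so `H^k_l x ≤ S_l` and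
`H^k_l c ≤ S_l`. Let `μ' ∈ E^k_l` with `H^k_l x = ⟨μ', x⟩`. The coordinates of `μ'` and of `μ_l`
are at most `2 D S_l ≤ R` (`μ'_i /(2D) ≤ μ'_i x_i ≤ ⟨μ', x⟩ ≤ S_l`), so `u = μ' - μ_l` has
`|u_i| ≤ R` and lies in `ann (G k)` (hypothesis `hann`). Hence
`H^k_l x = ⟨μ', x⟩ = ⟨μ', c⟩ + ⟨μ', x - c⟩ ≥ H^k_l c + ⟨μ_l, x - c⟩`.
For `l ∈ I₂`: `H^k_l x ≥ T/(2D) ≥ H_l c`, as every `μ ∈ E^k_l` has a coordinate `> T`. So
`1 ≤ fval a_k η^k (E k) x ≤ ⟨x, a_k⟩ - ∑_l η_l H^k_l x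
  ≤ ⟨x, a_k⟩ - ∑_{I₁} η_l (H^k_l c + ⟨μ_l, x - c⟩) - ∑_{I₂} η_l H_l c
  = ⟨c, a_k⟩ + ⟨x - c, b⟩ - ∑_{I₁} η_l H^k_l c - ∑_{I₂} η_l H_l c
  ≤ ⟨c, a_j⟩ - ∑_l η_l H_l c = fval a_j η (E j) c`
(`H^k_l c ≥ H_l c` by `hmin_mono_of_dom`, `c ≥ 0`, `a_k ≤ a_j`).

It may be convenient to prove the steps (1) and (3) as separate lemmas about one `k`.
-/

namespace Pool.Agent.CTP

/-- Dropping indices and comparing the correction terms. -/
private theorem NAtoms_drop {m Lj Lk : ℕ} (ι : Fin Lj → Fin Lk) (hι : Function.Injective ι)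
    (a : Fin m → ℝ) (η : Fin Lj → ℝ) (ηk : Fin Lk → ℝ) (Ek : Fin Lk → Finset (Fin m → ℕ))
    (hηk : ∀ l, 0 ≤ ηk l) (hle : ∀ l, η l ≤ ηk (ι l)) (x : Fin m → ℝ) (hx : ∀ i, 0 ≤ x i) :
    fval a ηk Ek x ≤ ∑ i, x i * a i - ∑ l, η l * hmin (Ek (ι l)) x := by
  classical
  unfold fval
  have h1 : ∑ l, η l * hmin (Ek (ι l)) x ≤ ∑ l, ηk (ι l) * hmin (Ek (ι l)) x :=
    Finset.sum_le_sum fun l _ => mul_le_mul_of_nonneg_right (hle l) (hmin_nonneg _ x hx)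
  have h2 : ∑ l, ηk (ι l) * hmin (Ek (ι l)) x = ∑ l ∈ Finset.univ.image ι, ηk l * hmin (Ek l) x := by
    rw [Finset.sum_image fun a _ b _ h => hι h]
  have h3 : ∑ l ∈ Finset.univ.image ι, ηk l * hmin (Ek l) x ≤ ∑ l, ηk l * hmin (Ek l) x :=
    Finset.sum_le_sum_of_subset_of_nonneg (Finset.subset_univ _) fun l _ _ =>
      mul_nonneg (hηk l) (hmin_nonneg _ x hx)
  linarith

private theorem NAtoms_cmp {m Lj Lk : ℕ} (ι : Fin Lj → Fin Lk)
    (aj ak : Fin m → ℝ) (ha : ∀ i, ak i ≤ aj i) (η : Fin Lj → ℝ) (hη : ∀ l, 0 ≤ η l)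
    (Ej : Fin Lj → Finset (Fin m → ℕ)) (Ek : Fin Lk → Finset (Fin m → ℕ))
    (hEk : ∀ l, (Ek l).Nonempty)
    (hdom : ∀ l, Dom (Ej l) (Ek (ι l))) (x : Fin m → ℝ) (hx : ∀ i, 0 ≤ x i) :
    ∑ i, x i * ak i - ∑ l, η l * hmin (Ek (ι l)) x ≤ fval aj η Ej x := by
  unfold fval
  have h1 : ∑ i, x i * ak i ≤ ∑ i, x i * aj i :=
    Finset.sum_le_sum fun i _ => mul_le_mul_of_nonneg_left (ha i) (hx i)
  have h2 : ∑ l, η l * hmin (Ej l) x ≤ ∑ l, η l * hmin (Ek (ι l)) x :=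
    Finset.sum_le_sum fun l _ => mul_le_mul_of_nonneg_left
      (hmin_mono_of_dom (hdom l) (hEk _) x hx) (hη l)
  linarith

/-- Step (3): the test vectors. -/
private theorem NAtoms_test {m Lj Lk : ℕ} (Gk : AddSubgroup (Fin m → ℝ)) (ι : Fin Lj → Fin Lk)
    (hι : Function.Injective ι) (aj ak : Fin m → ℝ) (ha : ∀ i, ak i ≤ aj i)
    (η : Fin Lj → ℝ) (hη : ∀ l, 0 ≤ η l) (ηk : Fin Lk → ℝ) (hηk : ∀ l, 0 ≤ ηk l)
    (hle : ∀ l, η l ≤ ηk (ι l))
    (Ej : Fin Lj → Finset (Fin m → ℕ)) (Ek : Fin Lk → Finset (Fin m → ℕ))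
    (hEk : ∀ l, (Ek l).Nonempty) (hdom : ∀ l, Dom (Ej l) (Ek (ι l)))
    (hann : ∀ l, ∀ μ ∈ Ek l, ∀ μ' ∈ Ek l, (fun i => (μ' i : ℤ) - (μ i : ℤ)) ∈ ann Gk)
    (D : ℕ) (hD : 0 < D) (X : ℝ) (c : Fin m → ℝ) (hc1 : ∀ i, 1 / (D : ℝ) ≤ c i)
    (hc2 : ∀ i, c i + 1 ≤ X) (I : Finset (Fin Lj)) (ν : Fin Lj → Fin m → ℕ) (R : ℕ)
    (hν : ∀ l ∈ I, ∃ μ ∈ Ek (ι l), μ ≤ ν l)
    (hR : ∀ l ∈ I, 2 * (D : ℝ) * (X * ∑ i, (ν l i : ℝ)) ≤ R) (T : ℝ) (hT0 : 0 ≤ T)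
    (hT : ∀ l, l ∉ I → ∀ μ ∈ Ek (ι l), ∃ i, T ≤ μ i)
    (hT2 : ∀ l, hmin (Ej l) c ≤ T / (2 * D))
    (hkey : ∀ b : Fin m → ℝ, ∃ x ∈ Gk, (∀ i, |x i - c i| < 1 / (2 * (D : ℝ))) ∧
      ∑ i, x i * b i ≤ ∑ i, c i * b i ∧
        ∀ u ∈ ann Gk, (∀ i, |u i| ≤ (R : ℤ)) → ∑ i, (u i : ℝ) * (x i - c i) = 0)
    (hk : ∀ x ∈ Gk, (∀ i, 0 < x i) → 1 ≤ fval ak ηk Ek x) : 1 ≤ fval aj η Ej c := by
  classical
  have hDpos : (0 : ℝ) < D := by exact_mod_cast hD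
  have hc0 : ∀ i, 0 < c i := fun i => lt_of_lt_of_le (by positivity) (hc1 i)
  choose μ hμE hμ using fun l => exists_hmin_eq (hEk (ι l)) c
  obtain ⟨x, hxG, hxc, hxb, hxu⟩ := hkey (fun i => ak i - ∑ l ∈ I, η l * (μ l i : ℝ))
  have hhalf : 1 / (D : ℝ) = 1 / (2 * (D : ℝ)) + 1 / (2 * (D : ℝ)) := by
    field_simp
    norm_num
  have hx1 : ∀ i, 1 / (2 * (D : ℝ)) < x i := by
    intro i
    have h1 := (abs_lt.1 (hxc i)).1
    have h2 := hc1 i
    rw [hhalf] at h2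
    linarith
  have hx0 : ∀ i, 0 < x i := fun i => lt_trans (by positivity) (hx1 i)
  have hsmall : 1 / (2 * (D : ℝ)) ≤ 1 := by
    rw [div_le_one (by positivity)]
    have : (1 : ℝ) ≤ D := by exact_mod_cast hD
    linarith
  have hxX : ∀ i, x i ≤ X := by
    intro i
    have h1 := (abs_lt.1 (hxc i)).2
    have h2 := hc2 i
    linarith
  have hcX : ∀ i, c i ≤ X := fun i => by
    have := hc2 i
    linarith
  -- the bound for the indices in `I`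
  have hbd : ∀ l ∈ I, ∀ y : Fin m → ℝ, (∀ i, 0 ≤ y i) → (∀ i, y i ≤ X) →
      hmin (Ek (ι l)) y ≤ X * ∑ i, (ν l i : ℝ) := by
    intro l hl y hy0 hyX
    obtain ⟨κ, hκ, hκν⟩ := hν l hl
    refine (hmin_le hκ y).trans ?_
    rw [Finset.mul_sum]
    refine Finset.sum_le_sum fun i _ => ?_
    have h1 : (κ i : ℝ) ≤ ν l i := by exact_mod_cast hκν i
    have h2 : (0 : ℝ) ≤ κ i := Nat.cast_nonneg _
    calc (κ i : ℝ) * y i ≤ (ν l i : ℝ) * X :=
          mul_le_mul h1 (hyX i) (hy0 i) (le_trans h2 h1)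
      _ = X * ν l i := mul_comm _ _
  have hcoord : ∀ l ∈ I, ∀ y : Fin m → ℝ, (∀ i, 1 / (2 * (D : ℝ)) ≤ y i) → (∀ i, y i ≤ X) →
      ∀ κ : Fin m → ℕ, hmin (Ek (ι l)) y = ∑ i, (κ i : ℝ) * y i → ∀ i, (κ i : ℤ) ≤ R := by
    intro l hl y hy0 hyX κ hκ i
    have hypos : ∀ i, 0 ≤ y i := fun i => le_trans (by positivity) (hy0 i)
    have h1 := hbd l hl y hypos hyX
    rw [hκ] at h1
    have h2 : (κ i : ℝ) * y i ≤ ∑ i, (κ i : ℝ) * y i :=
      Finset.single_le_sum (f := fun i => (κ i : ℝ) * y i)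
        (fun i _ => mul_nonneg (Nat.cast_nonneg _) (hypos i)) (Finset.mem_univ i)
    have h3 : (κ i : ℝ) * (1 / (2 * (D : ℝ))) ≤ (κ i : ℝ) * y i :=
      mul_le_mul_of_nonneg_left (hy0 i) (Nat.cast_nonneg _)
    have h4 : (κ i : ℝ) * (1 / (2 * (D : ℝ))) ≤ X * ∑ i, (ν l i : ℝ) := by linarith
    have h5 : (κ i : ℝ) ≤ 2 * (D : ℝ) * (X * ∑ i, (ν l i : ℝ)) := by
      rw [mul_one_div, div_le_iff₀ (by positivity)] at h4
      linarith
    have h6 : (κ i : ℝ) ≤ (R : ℝ) := h5.trans (hR l hl)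
    exact_mod_cast h6
  -- the estimates for the indices in `I`
  have hI : ∀ l ∈ I, hmin (Ek (ι l)) c + ∑ i, (μ l i : ℝ) * (x i - c i) ≤
      hmin (Ek (ι l)) x := by
    intro l hl
    obtain ⟨μ', hμ'E, hμ'⟩ := exists_hmin_eq (hEk (ι l)) x
    have b1 := hcoord l hl x (fun i => (hx1 i).le) hxX μ' hμ'
    have b2 := hcoord l hl c (fun i => by
      have h2 := hc1 i
      rw [hhalf] at h2
      have : (0 : ℝ) < 1 / (2 * (D : ℝ)) := by positivity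
      linarith) hcX (μ l) (hμ l)
    have h1 := hxu _ (hann (ι l) (μ l) (hμE l) μ' hμ'E) (fun i => by
      have e1 := b1 i
      have e2 := b2 i
      have e3 : (0 : ℤ) ≤ (μ' i : ℤ) := Int.natCast_nonneg _
      have e4 : (0 : ℤ) ≤ (μ l i : ℤ) := Int.natCast_nonneg _
      rw [abs_le]
      constructor <;> linarith)
    have h2 : ∑ i, (μ' i : ℝ) * (x i - c i) = ∑ i, (μ l i : ℝ) * (x i - c i) := by
      have : ∑ i, (((μ' i : ℤ) - (μ l i : ℤ) : ℤ) : ℝ) * (x i - c i) =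
          ∑ i, (μ' i : ℝ) * (x i - c i) - ∑ i, (μ l i : ℝ) * (x i - c i) := by
        rw [← Finset.sum_sub_distrib]
        refine Finset.sum_congr rfl fun i _ => ?_
        push_cast
        ring
      rw [this] at h1
      linarith
    have h3 : ∑ i, (μ' i : ℝ) * x i = ∑ i, (μ' i : ℝ) * c i + ∑ i, (μ' i : ℝ) * (x i - c i) := by
      rw [← Finset.sum_add_distrib]
      exact Finset.sum_congr rfl fun i _ => by ring
    have h4 := hmin_le hμ'E c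
    rw [hμ', h3, h2]
    linarith
  have hI' : ∀ l, l ∉ I → hmin (Ej l) c ≤ hmin (Ek (ι l)) x := by
    intro l hl
    obtain ⟨μ', hμ'E, hμ'⟩ := exists_hmin_eq (hEk (ι l)) x
    obtain ⟨i, hi⟩ := hT l hl μ' hμ'E
    rw [hμ']
    have h2 : (μ' i : ℝ) * x i ≤ ∑ i, (μ' i : ℝ) * x i :=
      Finset.single_le_sum (f := fun i => (μ' i : ℝ) * x i)
        (fun i _ => mul_nonneg (Nat.cast_nonneg _) (hx0 i).le) (Finset.mem_univ i)
    have h3 : T * (1 / (2 * (D : ℝ))) ≤ (μ' i : ℝ) * x i :=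
      mul_le_mul hi (hx1 i).le (by positivity) (le_trans hT0 hi)
    have h4 := hT2 l
    rw [mul_one_div] at h3
    linarith
  have hsum : ∑ l, η l * hmin (Ej l) c + ∑ l ∈ I, η l * ∑ i, (μ l i : ℝ) * (x i - c i) ≤
      ∑ l, η l * hmin (Ek (ι l)) x := by
    have e1 : ∑ l ∈ I, η l * ∑ i, (μ l i : ℝ) * (x i - c i) =
        ∑ l, if l ∈ I then η l * ∑ i, (μ l i : ℝ) * (x i - c i) else 0 := by
      rw [Finset.sum_ite_mem, Finset.univ_inter]
    rw [e1, ← Finset.sum_add_distrib]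
    refine Finset.sum_le_sum fun l _ => ?_
    by_cases hl : l ∈ I
    · rw [if_pos hl, ← mul_add]
      refine mul_le_mul_of_nonneg_left ?_ (hη l)
      have h1 := hI l hl
      have h2 := hmin_mono_of_dom (hdom l) (hEk _) c (fun i => (hc0 i).le)
      linarith
    · rw [if_neg hl, add_zero]
      exact mul_le_mul_of_nonneg_left (hI' l hl) (hη l)
  have h1 := (hk x hxG hx0).trans (NAtoms_drop ι hι ak η ηk Ek hηk hle x fun i => (hx0 i).le)
  have h2 : ∑ i, c i * ak i ≤ ∑ i, c i * aj i :=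
    Finset.sum_le_sum fun i _ => mul_le_mul_of_nonneg_left (ha i) (hc0 i).le
  have h3 : ∑ i, x i * (ak i - ∑ l ∈ I, η l * (μ l i : ℝ)) -
      ∑ i, c i * (ak i - ∑ l ∈ I, η l * (μ l i : ℝ)) =
      ∑ i, x i * ak i - ∑ i, c i * ak i - ∑ l ∈ I, η l * ∑ i, (μ l i : ℝ) * (x i - c i) := by
    have e1 : ∑ l ∈ I, η l * ∑ i, (μ l i : ℝ) * (x i - c i) =
        ∑ i, (x i - c i) * ∑ l ∈ I, η l * (μ l i : ℝ) := by
      simp_rw [Finset.mul_sum]
      rw [Finset.sum_comm]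
      exact Finset.sum_congr rfl fun i _ => Finset.sum_congr rfl fun l _ => by ring
    rw [e1, ← Finset.sum_sub_distrib, ← Finset.sum_sub_distrib, ← Finset.sum_sub_distrib]
    exact Finset.sum_congr rfl fun i _ => by ring
  unfold fval
  linarith

private theorem NAtoms_bound {α : Type*} (s : Finset α) (f : α → ℝ) :
    ∃ N : ℕ, ∀ a ∈ s, f a ≤ N := by
  classical
  obtain ⟨M, hM⟩ := (s.image fun a => ⌈f a⌉₊).exists_le
  refine ⟨M, fun a ha => (Nat.le_ceil (f a)).trans ?_⟩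
  exact_mod_cast hM _ (Finset.mem_image_of_mem _ ha)

private theorem NAtoms_core {m s : ℕ}
    (G : ℕ → AddSubgroup (Fin m → ℝ)) (hG : ∀ n, Lat (G n)) (δ : ℕ → Fin m → ℝ)
    (D : ℕ → Fin s → Fin m → ℝ) (L : ℕ → ℕ) (ε : ∀ n, Fin (L n) → ℝ)
    (γ : ∀ n, Fin s → Fin (L n) → ℝ) (E : ∀ n, Fin (L n) → Finset (Fin m → ℕ))
    (hε0 : ∀ n l, 0 ≤ ε n l) (hγ0 : ∀ n j l, 0 ≤ γ n j l)
    (hE : ∀ n l, (E n l).Nonempty)
    (hann : ∀ n l, ∀ μ ∈ E n l, ∀ μ' ∈ E n l,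
      (fun i => (μ' i : ℤ) - (μ i : ℤ)) ∈ ann (G n))
    (hδm : ∀ i, Monotone fun n => δ n i) (hDm : ∀ j i, Monotone fun n => D n j i)
    (hch : ∀ n, ∃ ι : Fin (L n) → Fin (L (n + 1)), Function.Injective ι ∧
        ∀ l, ε n l ≤ ε (n + 1) (ι l) ∧
          (∀ j, γ n j l ≤ γ (n + 1) j (ι l)) ∧
          Dom (E n l) (E (n + 1) (ι l))) :
    ∃ j k, j < k ∧ natom (G k) (δ k) (D k) (ε k) (γ k) (E k) ⊆
      natom (G j) (δ j) (D j) (ε j) (γ j) (E j) := by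
  classical
  choose ι hι hιp using hch
  obtain ⟨j, hj⟩ := key2 G hG
  -- the iterated maps
  let p : ∀ n, Fin (L j) → Fin (L (j + n)) := fun n =>
    Nat.rec (motive := fun n => Fin (L j) → Fin (L (j + n))) (fun l => l)
      (fun n f l => ι (j + n) (f l)) n
  have hp0 : ∀ l, p 0 l = l := fun l => rfl
  have hps : ∀ n l, p (n + 1) l = ι (j + n) (p n l) := fun n l => rfl
  have hpinj : ∀ n, Function.Injective (p n) := by
    intro n
    induction n with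
    | zero => exact fun a b h => h
    | succ n ih => exact fun a b h => ih (hι (j + n) h)
  have hpε : ∀ n l, ε j l ≤ ε (j + n) (p n l) := by
    intro n
    induction n with
    | zero => exact fun l => le_refl _
    | succ n ih => exact fun l => (ih l).trans (hιp (j + n) (p n l)).1
  have hpγ : ∀ n i l, γ j i l ≤ γ (j + n) i (p n l) := by
    intro n
    induction n with
    | zero => exact fun i l => le_refl _
    | succ n ih => exact fun i l => (ih i l).trans ((hιp (j + n) (p n l)).2.1 i)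
  have hpD : ∀ n l q, Dom (E (j + n) (p n l)) (E (j + (n + q)) (p (n + q) l)) := by
    intro n l q
    induction q with
    | zero => exact chain_dom_refl _
    | succ q ih => exact chain_dom_trans ih (hιp (j + (n + q)) (p (n + q) l)).2.2
  obtain ⟨-, Dn, hDn, hden⟩ := hG j
  have hDnpos : (0 : ℝ) < Dn := by exact_mod_cast hDn
  obtain ⟨C, hC1, hC2⟩ := exists_finite_test (G j) (hG j) (E j) (hE j)
  obtain ⟨X, hX⟩ := NAtoms_bound (C ×ˢ (Finset.univ : Finset (Fin m))) (fun q => q.1 q.2 + 1)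
  -- the indices which stay bounded
  let P : Fin (L j) → Prop := fun l =>
    ∃ ν : Fin m → ℕ, ∀ n, ∃ μ ∈ E (j + n) (p n l), μ ≤ ν
  have hν0 : ∀ l, ∃ ν : Fin m → ℕ, P l → ∀ n, ∃ μ ∈ E (j + n) (p n l), μ ≤ ν := by
    intro l
    by_cases h : P l
    · obtain ⟨ν, hν⟩ := h
      exact ⟨ν, fun _ => hν⟩
    · exact ⟨0, fun h' => absurd h' h⟩
  choose ν hν using hν0
  obtain ⟨R, hR⟩ := NAtoms_bound (Finset.univ : Finset (Fin (L j)))
    (fun l => 2 * (Dn : ℝ) * ((X : ℝ) * ∑ i, (ν l i : ℝ)))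
  obtain ⟨T, hT⟩ := NAtoms_bound (C ×ˢ (Finset.univ : Finset (Fin (L j))))
    (fun q => 2 * (Dn : ℝ) * hmin (E j q.2) q.1)
  have hN0 : ∀ l, ∃ N : ℕ, ¬ P l → ∀ n, N ≤ n → ∀ μ ∈ E (j + n) (p n l), ∃ i, T ≤ μ i := by
    intro l
    by_cases h : P l
    · exact ⟨0, fun h' => absurd h h'⟩
    · have h1 : ∃ n, ∀ μ ∈ E (j + n) (p n l), ¬ μ ≤ fun _ => T := by
        by_contra hcon
        push Not at hcon
        exact h ⟨fun _ => T, hcon⟩
      obtain ⟨n, hn⟩ := h1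
      refine ⟨n, fun _ n' hn' μ hμ => ?_⟩
      obtain ⟨q, rfl⟩ := Nat.exists_eq_add_of_le hn'
      obtain ⟨κ, hκ, hκμ⟩ := hpD n l q μ hμ
      have h2 := hn κ hκ
      rw [Pi.le_def] at h2
      push Not at h2
      obtain ⟨i, hi⟩ := h2
      exact ⟨i, hi.le.trans (hκμ i)⟩
  choose Nl hNl using hN0
  obtain ⟨N, hN⟩ := (Finset.univ.image Nl).exists_le
  obtain ⟨k, hkK, hk⟩ := hj R (j + N + 1) (1 / (2 * (Dn : ℝ))) (by positivity)
  have hjk : j < k := by omega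
  obtain ⟨n, rfl⟩ := Nat.exists_eq_add_of_le hjk.le
  have hNn : N ≤ n := by omega
  refine ⟨j, j + n, hjk, ?_⟩
  rintro t ⟨ht0, ht⟩
  refine ⟨ht0, ?_⟩
  have ha : ∀ i, 1 - (δ (j + n) i + ∑ q, t q * D (j + n) q i) ≤
      1 - (δ j i + ∑ q, t q * D j q i) := by
    intro i
    have h1 : δ j i ≤ δ (j + n) i := hδm i (Nat.le_add_right j n)
    have h2 : ∑ q, t q * D j q i ≤ ∑ q, t q * D (j + n) q i :=
      Finset.sum_le_sum fun q _ => mul_le_mul_of_nonneg_left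
        (hDm q i (Nat.le_add_right j n)) (ht0 q)
    linarith
  have hη : ∀ l, 0 ≤ ε j l + ∑ q, t q * γ j q l := fun l =>
    add_nonneg (hε0 j l) (Finset.sum_nonneg fun q _ => mul_nonneg (ht0 q) (hγ0 j q l))
  have hηk : ∀ l, 0 ≤ ε (j + n) l + ∑ q, t q * γ (j + n) q l := fun l =>
    add_nonneg (hε0 _ l) (Finset.sum_nonneg fun q _ => mul_nonneg (ht0 q) (hγ0 _ q l))
  have hηle : ∀ l, ε j l + ∑ q, t q * γ j q l ≤
      ε (j + n) (p n l) + ∑ q, t q * γ (j + n) q (p n l) := fun l =>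
    add_le_add (hpε n l) (Finset.sum_le_sum fun q _ =>
      mul_le_mul_of_nonneg_left (hpγ n q l) (ht0 q))
  have hdom : ∀ l, Dom (E j l) (E (j + n) (p n l)) := by
    intro l
    have h1 := hpD 0 l n
    rw [Nat.zero_add] at h1
    exact h1
  refine hC2 _ _ ?_ ?_
  · intro c hc
    have hcG := (hC1 c hc).1
    have hcpos := (hC1 c hc).2
    refine NAtoms_test (G (j + n)) (p n) (hpinj n) _ _ ha _ hη _ hηk hηle (E j) (E (j + n))
      (hE (j + n)) hdom (hann (j + n)) Dn hDn X c ?_ ?_ (Finset.univ.filter P) ν R ?_ ?_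
      (T : ℝ) (Nat.cast_nonneg _) ?_ ?_ (fun b => hk b c hcG) ht
    · intro i
      obtain ⟨z, hz⟩ := hden c hcG i
      have h1 : (0 : ℝ) < z := by
        rw [← hz]
        exact mul_pos hDnpos (hcpos i)
      have h2 : (1 : ℝ) ≤ z := by
        have : (0 : ℤ) < z := by exact_mod_cast h1
        exact_mod_cast this
      rw [div_le_iff₀ hDnpos, mul_comm, hz]
      exact h2
    · intro i
      exact hX (c, i) (Finset.mem_product.2 ⟨hc, Finset.mem_univ i⟩)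
    · intro l hl
      exact hν l (Finset.mem_filter.1 hl).2 n
    · intro l _
      exact hR l (Finset.mem_univ l)
    · intro l hl μ hμ
      have hl' : ¬ P l := fun h => hl (Finset.mem_filter.2 ⟨Finset.mem_univ _, h⟩)
      obtain ⟨i, hi⟩ := hNl l hl' n
        ((hN _ (Finset.mem_image_of_mem _ (Finset.mem_univ l))).trans hNn) μ hμ
      exact ⟨i, by exact_mod_cast hi⟩
    · intro l
      have h1 := hT (c, l) (Finset.mem_product.2 ⟨hc, Finset.mem_univ l⟩)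
      rw [le_div_iff₀ (by positivity)]
      simp only at h1
      linarith
  · refine fval_nonneg (G j) (hG j) (E j) _ _ hη ?_
    intro z hz
    have hzG := (hG (j + n)).1 z
    have hz0 : ∀ i, 0 < toReal z i := fun i => by
      simp only [toReal]
      exact_mod_cast hz i
    refine (ht _ hzG hz0).trans ((NAtoms_drop (p n) (hpinj n) _ _ _ _ hηk hηle _
      fun i => (hz0 i).le).trans ?_)
    exact NAtoms_cmp (p n) _ _ ha _ hη (E j) (E (j + n)) (hE (j + n)) hdom _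
      fun i => (hz0 i).le

theorem natoms_pwo {Γ : Set ℝ} (hΓ : IsDCC Γ) (hΓ0 : ∀ x ∈ Γ, 0 ≤ x) {m s : ℕ}
    (G : ℕ → AddSubgroup (Fin m → ℝ)) (hG : ∀ n, Lat (G n)) (δ : ℕ → Fin m → ℝ)
    (D : ℕ → Fin s → Fin m → ℝ) (L : ℕ → ℕ) (ε : ∀ n, Fin (L n) → ℝ)
    (γ : ∀ n, Fin s → Fin (L n) → ℝ) (E : ∀ n, Fin (L n) → Finset (Fin m → ℕ))
    (hδ : ∀ n i, δ n i = 0 ∨ δ n i ∈ Γ) (hD : ∀ n j i, D n j i = 0 ∨ D n j i ∈ Γ)
    (hε : ∀ n l, ε n l = 0 ∨ ε n l ∈ Γ) (hγ : ∀ n j l, γ n j l = 0 ∨ γ n j l ∈ Γ)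
    (hE : ∀ n l, (E n l).Nonempty)
    (hann : ∀ n l, ∀ μ ∈ E n l, ∀ μ' ∈ E n l,
      (fun i => (μ' i : ℤ) - (μ i : ℤ)) ∈ ann (G n)) :
    ∃ j k, j < k ∧ natom (G k) (δ k) (D k) (ε k) (γ k) (E k) ⊆
      natom (G j) (δ j) (D j) (ε j) (γ j) (E j) := by
  obtain ⟨φ, hφ, h1, h2, h3⟩ := exists_chain hΓ δ D L ε γ E hδ hD hε hγ
  have hpos : ∀ x : ℝ, x = 0 ∨ x ∈ Γ → 0 ≤ x := by
    rintro x (rfl | hx)
    · exact le_refl _
    · exact hΓ0 x hx
  obtain ⟨j, k, hjk, h⟩ := NAtoms_core (fun n => G (φ n)) (fun n => hG (φ n))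
    (fun n => δ (φ n)) (fun n => D (φ n)) (fun n => L (φ n)) (fun n => ε (φ n))
    (fun n => γ (φ n)) (fun n => E (φ n)) (fun n l => hpos _ (hε (φ n) l))
    (fun n q l => hpos _ (hγ (φ n) q l)) (fun n l => hE (φ n) l) (fun n l => hann (φ n) l)
    h1 h2 h3
  exact ⟨φ j, φ k, hφ hjk, h⟩

end Pool.Agent.CTP
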