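import Pool.Agent.CTP.Def

/-!
# Pairs on toric varieties whose non-toric components are Newton nondegenerate

Definitions for the extension of the toric case: `X` is a toric variety and the components of the
divisors are torus invariant prime divisors or hypersurfaces `F_l`, the closures in `X` of the
zero sets of Laurent polynomials `f_l`, such that the family `f_1, ..., f_L` is Newton
nondegenerate. Canonicity of such pairs depends only on the supports of the `f_l` and on which of
the `F_l` meet each other and the torus orbits of codimension one.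
-/

namespace Pool.Agent.CTP

/-- The order of vanishing along the toric valuation `v` of a Laurent polynomial with the finite
set `A` of exponents: the minimum of `⟨u, v⟩` over `u ∈ A` (and `0` if `A` is empty). -/
def ordAt {d : ℕ} (A : Finset (Fin d → ℤ)) (v : Fin d → ℤ) : ℤ :=
  if h : A.Nonempty then A.inf' h (fun u => ∑ i, u i * v i) else 0

/-- A toric variety (given by its fan) with a finite family of hypersurfaces `F_l`, given by the
supports of their equations `f_l`, together with the record which hypersurfaces meet which torus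
orbits of codimension one (indexed by the ray generators), and which of them meet each other. -/
structure NewtonFan (d : ℕ) where
  /-- the fan -/
  fan : Fan d
  /-- the number of hypersurfaces -/
  L : ℕ
  /-- the support of `f_l` -/
  supp : Fin L → Finset (Fin d → ℤ)
  supp_nonempty : ∀ l, (supp l).Nonempty
  /-- `F_l` meets the orbit of codimension one of the ray generated by `v` -/
  meetsRay : Fin L → (Fin d → ℤ) → Prop
  /-- `F_l` and `F_l'` meet in the torus -/
  meets : Fin L → Fin L → Prop

/-- The divisor with coefficient `B v` at the torus invariant prime divisor of `v` and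
coefficient `b l` at `F_l` is `ℝ`-Cartier: on every cone `σ`, after subtracting
`∑ l, b l * div (f_l)`, it is given by a linear form. -/
def NewtonFan.RCartier {d : ℕ} (X : NewtonFan d) (B : (Fin d → ℤ) → ℝ) (b : Fin X.L → ℝ) : Prop :=
  ∀ σ ∈ X.fan.cones, ∃ m : Fin d → ℝ, ∀ v ∈ σ,
    pair m v + ∑ l, b l * (ordAt (X.supp l) v : ℝ) = B v

/-- The pair `(X, B)` with `B = ∑ B v D_v + ∑ b l F_l` is canonical. `logdisc`: the log
discrepancy of the toric exceptional divisor of a primitive lattice point `v` of a cone `σ` is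
`pair m v - ∑ b l * ordAt (supp l) v`, where `m` is the linear form such that this expression is
`1 - B w` at the generators `w` of `σ`; it has to be at least one. `codim_two`: blowing up the
intersections of `F_l` with the codimension one orbits and with the other `F_l'`. -/
structure NewtonFan.Canonical {d : ℕ} (X : NewtonFan d) (B : (Fin d → ℤ) → ℝ)
    (b : Fin X.L → ℝ) : Prop where
  /-- `K + B` is `ℝ`-Cartier -/
  cartier : X.RCartier (fun v => 1 - B v) (fun l => - b l)
  coeff : 2 ≤ d → (∀ v ∈ X.fan.rays, B v ≤ 1) ∧ ∀ l, b l ≤ 1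
  codim_two : 2 ≤ d → (∀ l, ∀ v ∈ X.fan.rays, X.meetsRay l v → B v + b l ≤ 1) ∧
    ∀ l l', l ≠ l' → X.meets l l' → b l + b l' ≤ 1
  logdisc : ∀ σ ∈ X.fan.cones, ∀ m : Fin d → ℝ,
    (∀ w ∈ σ, pair m w - ∑ l, b l * (ordAt (X.supp l) w : ℝ) = 1 - B w) →
    ∀ v : Fin d → ℤ, IsPrimitive v → toReal v ∈ coneOf σ → v ∉ σ →
      1 ≤ pair m v - ∑ l, b l * (ordAt (X.supp l) v : ℝ)

/-- Tuples `(X, Δ; D_1, ..., D_s)` as in the question, with `X` a toric variety of dimension `d`
and divisors whose components are torus invariant or among the `F_l`: `(X, Δ)` is canonical, the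
`D_j` are `ℝ`-Cartier and all coefficients which are not zero lie in `Γ`. -/
structure NewtonTuple (d s : ℕ) (Γ : Set ℝ) where
  /-- the variety with its hypersurfaces -/
  X : NewtonFan d
  /-- the coefficients of `Δ` at the torus invariant prime divisors -/
  Δ : (Fin d → ℤ) → ℝ
  /-- the coefficients of `Δ` at the hypersurfaces -/
  Δ' : Fin X.L → ℝ
  /-- the coefficients of the `D_j` at the torus invariant prime divisors -/
  D : Fin s → (Fin d → ℤ) → ℝ
  /-- the coefficients of the `D_j` at the hypersurfaces -/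
  D' : Fin s → Fin X.L → ℝ
  Δ_mem : ∀ v ∈ X.fan.rays, Δ v = 0 ∨ Δ v ∈ Γ
  Δ'_mem : ∀ l, Δ' l = 0 ∨ Δ' l ∈ Γ
  D_mem : ∀ j, ∀ v ∈ X.fan.rays, D j v = 0 ∨ D j v ∈ Γ
  D'_mem : ∀ j l, D' j l = 0 ∨ D' j l ∈ Γ
  canonical : X.Canonical Δ Δ'
  cartier : ∀ j, X.RCartier (D j) (D' j)

/-- The canonical threshold polytope. -/
def NewtonTuple.polytope {d s : ℕ} {Γ : Set ℝ} (T : NewtonTuple d s Γ) : Set (Fin s → ℝ) :=
  {t | (∀ j, 0 ≤ t j) ∧
    T.X.Canonical (fun v => T.Δ v + ∑ j, t j * T.D j v) (fun l => T.Δ' l + ∑ j, t j * T.D' j l)}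

/-! ## Auxiliary definitions (not used in the statement) -/

/-- The minimum of `⟨μ, c⟩` over `μ ∈ E` (and `0` if `E` is empty). -/
noncomputable def hmin {m : ℕ} (E : Finset (Fin m → ℕ)) (c : Fin m → ℝ) : ℝ :=
  if h : E.Nonempty then E.inf' h (fun μ => ∑ i, (μ i : ℝ) * c i) else 0

/-- The concave correction of a linear form `a`. -/
noncomputable def fval {m L : ℕ} (a : Fin m → ℝ) (η : Fin L → ℝ) (E : Fin L → Finset (Fin m → ℕ))
    (c : Fin m → ℝ) : ℝ :=
  ∑ i, c i * a i - ∑ l, η l * hmin (E l) c

/-- The elementary pieces of the polytopes. -/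
def natom {m s L : ℕ} (G : AddSubgroup (Fin m → ℝ)) (δ : Fin m → ℝ) (D : Fin s → Fin m → ℝ)
    (ε : Fin L → ℝ) (γ : Fin s → Fin L → ℝ) (E : Fin L → Finset (Fin m → ℕ)) :
    Set (Fin s → ℝ) :=
  {t | (∀ j, 0 ≤ t j) ∧ ∀ c ∈ G, (∀ i, 0 < c i) →
    1 ≤ fval (fun i => 1 - (δ i + ∑ j, t j * D j i)) (fun l => ε l + ∑ j, t j * γ j l) E c}

/-- Domination of finite sets of exponents: every element of `E'` lies above an element of
`E`. -/
def Dom {m : ℕ} (E E' : Finset (Fin m → ℕ)) : Prop := ∀ μ' ∈ E', ∃ μ ∈ E, μ ≤ μ'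

end Pool.Agent.CTP
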