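import Pool.Agent.CTP.Carath
import Pool.Agent.CTP.Atoms

/-!
# The polytopes are intersections of basic pieces
-/

namespace Pool.Agent.CTP

/-- The condition at a ray. -/
def raySet {s : ℕ} (δ : ℝ) (D : Fin s → ℝ) : Set (Fin s → ℝ) :=
  {t | (∀ j, 0 ≤ t j) ∧ δ + ∑ j, t j * D j ≤ 1}

/-- atoms of dimension `m` -/
def Atoms (m s : ℕ) (Γ : Set ℝ) : Set (Set (Fin s → ℝ)) :=
  {A | ∃ (G : AddSubgroup (Fin m → ℝ)) (δ : Fin m → ℝ) (D : Fin s → Fin m → ℝ),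
    Lat G ∧ (∀ i, δ i = 0 ∨ δ i ∈ Γ) ∧ (∀ j i, D j i = 0 ∨ D j i ∈ Γ) ∧ A = atom G δ D}

/-- ray conditions -/
def Rays (s : ℕ) (Γ : Set ℝ) : Set (Set (Fin s → ℝ)) :=
  {A | ∃ (δ : ℝ) (D : Fin s → ℝ), (δ = 0 ∨ δ ∈ Γ) ∧ (∀ j, D j = 0 ∨ D j ∈ Γ) ∧ A = raySet δ D}

/-- all basic pieces -/
def Basic (d s : ℕ) (Γ : Set ℝ) : Set (Set (Fin s → ℝ)) :=
  {A | A ∈ Rays s Γ ∨ ∃ m ≤ d, A ∈ Atoms m s Γ}

theorem atoms_isPWO {Γ : Set ℝ} (hΓ : IsDCC Γ) (m s : ℕ) :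
    (Atoms m s Γ).PartiallyWellOrderedOn (fun A B => B ⊆ A) := by
  rw [Set.partiallyWellOrderedOn_iff_exists_lt]
  intro f hf
  choose G δ D hG hδ hD hA using hf
  obtain ⟨j, k, hjk, h⟩ := atoms_pwo hΓ G hG δ D hδ hD
  exact ⟨j, k, hjk, by rw [hA j, hA k]; exact h⟩

theorem rays_isPWO {Γ : Set ℝ} (hΓ : IsDCC Γ) (s : ℕ) :
    (Rays s Γ).PartiallyWellOrderedOn (fun A B => B ⊆ A) := by
  rw [Set.partiallyWellOrderedOn_iff_exists_lt]
  intro f hf
  choose δ D hδ hD hA using hf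
  obtain ⟨φ, hφ, hm⟩ := exists_monotone_of_dcc hΓ
    (fun n (i : Option (Fin s)) => i.elim (δ n) (D n)) (by
      intro n i
      cases i with
      | none => exact hδ n
      | some i => exact hD n i)
  refine ⟨φ 0, φ 1, hφ zero_lt_one, ?_⟩
  rw [hA (φ 0), hA (φ 1)]
  rintro t ⟨ht, h1⟩
  refine ⟨ht, le_trans (add_le_add ?_ (Finset.sum_le_sum ?_)) h1⟩
  · exact hm none zero_le_one
  · intro j _
    exact mul_le_mul_of_nonneg_left (hm (some j) zero_le_one) (ht j)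

theorem basic_isPWO {Γ : Set ℝ} (hΓ : IsDCC Γ) (d s : ℕ) :
    (Basic d s Γ).PartiallyWellOrderedOn (fun A B => B ⊆ A) := by
  have h1 : ∀ d, {A : Set (Fin s → ℝ) | ∃ m ≤ d, A ∈ Atoms m s Γ}.PartiallyWellOrderedOn
      (fun A B => B ⊆ A) := by
    intro d
    induction d with
    | zero =>
      refine (atoms_isPWO hΓ 0 s).mono ?_
      rintro A ⟨m, hm, hA⟩
      obtain rfl : m = 0 := by omega
      exact hA
    | succ d ih =>
      refine (ih.union (atoms_isPWO hΓ (d + 1) s)).mono ?_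
      rintro A ⟨m, hm, hA⟩
      rcases Nat.lt_or_ge m (d + 1) with h | h
      · exact Or.inl ⟨m, by omega, hA⟩
      · obtain rfl : m = d + 1 := by omega
        exact Or.inr hA
  refine ((rays_isPWO hΓ s).union (h1 d)).mono ?_
  rintro A (hA | hA)
  · exact Or.inl hA
  · exact Or.inr hA

/-- Intersections of members of a family which is well-quasi-ordered under reverse inclusion
satisfy the ascending chain condition. -/
theorem acc_of_pwo {α : Type*} {P : Set (Set α)}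
    (hP : P.PartiallyWellOrderedOn (fun A B => B ⊆ A)) (S : ℕ → Set (Set α)) (hS : ∀ n, S n ⊆ P)
    (Q : ℕ → Set α) (hQ : ∀ n, Q n = ⋂₀ S n) (hlt : ∀ n, Q n ⊂ Q (n + 1)) : False := by
  have hmono : StrictMono Q := strictMono_nat_of_lt_succ hlt
  have hex : ∀ n, ∃ A ∈ S n, ¬ Q (n + 1) ⊆ A := by
    intro n
    by_contra hcon
    push Not at hcon
    apply (hlt n).2
    rw [hQ n]
    exact Set.subset_sInter hcon
  choose A hA hnot using hex
  obtain ⟨j, k, hjk, h⟩ := hP.exists_lt (f := A) (fun n => hS n (hA n))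
  apply hnot j
  calc Q (j + 1) ⊆ Q k := hmono.monotone hjk
    _ ⊆ A k := by rw [hQ k]; exact Set.sInter_subset_of_mem (hA k)
    _ ⊆ A j := h

end Pool.Agent.CTP
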